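import Pool.Agent.H559.EH.Stm

set_option autoImplicit false

/-! # Exact patterns of the random sieve: the choice of `s` -/

open Finset MeasureTheory ProbabilityTheory Filter Topology

namespace Pool.Agent.H559.EH

namespace Cho

/-- the deterministic choice -/
theorem crt (w P : ℕ) (hw : 2 ≤ w) (hP : P = primorial w) (H : Finset ℕ) (h0 : 0 ∈ H) (hH : Adm H) :
    ∃ s : ℕ, 1 ≤ s ∧ s < P ∧ ∀ p : ℕ, p.Prime → p ≤ w → ∀ h ∈ H, s % p ≠ h % p := by
  classical
  obtain ⟨cl, hcl⟩ : ∃ cl : ℕ → ℕ, ∀ p : ℕ, p.Prime → cl p < p ∧ ∀ h ∈ H, h % p ≠ cl p := by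
    refine ⟨fun p => if hp : p.Prime then (hH p hp).choose else 0, fun p hp => ?_⟩
    simp only [dif_pos hp]
    exact (hH p hp).choose_spec
  have hs : ∀ p ∈ (range (w + 1)).filter Nat.Prime, (fun p : ℕ => p) p ≠ 0 := by
    intro p hp
    exact (mem_filter.1 hp).2.ne_zero
  have hpp : Set.Pairwise (((range (w + 1)).filter Nat.Prime : Finset ℕ) : Set ℕ)
      (Function.onFun Nat.Coprime (fun p : ℕ => p)) := by
    intro p hp q hq hpq
    exact (Nat.coprime_primes (mem_filter.1 (mem_coe.1 hp)).2 (mem_filter.1 (mem_coe.1 hq)).2).2 hpq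
  obtain ⟨s, hsd⟩ : ∃ s : ℕ, s = (Nat.chineseRemainderOfFinset cl (fun p : ℕ => p)
      ((range (w + 1)).filter Nat.Prime) hs hpp : ℕ) := ⟨_, rfl⟩
  have h1 : s < primorial w := by
    rw [hsd]
    exact Nat.chineseRemainderOfFinset_lt_prod cl (fun p : ℕ => p) hs hpp
  have h2 : ∀ p : ℕ, p.Prime → p ≤ w → s ≡ cl p [MOD p] := by
    intro p hp hpw
    rw [hsd]
    exact (Nat.chineseRemainderOfFinset cl (fun p : ℕ => p)
      ((range (w + 1)).filter Nat.Prime) hs hpp).2 p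
      (mem_filter.2 ⟨mem_range.2 (Nat.lt_succ_of_le hpw), hp⟩)
  have h3 : ∀ p : ℕ, p.Prime → p ≤ w → ∀ h ∈ H, s % p ≠ h % p := by
    intro p hp hpw h hh heq
    have h4 : s % p = cl p % p := h2 p hp hpw
    rw [Nat.mod_eq_of_lt (hcl p hp).1] at h4
    exact (hcl p hp).2 h hh (heq.symm.trans h4)
  refine ⟨s, ?_, hP ▸ h1, h3⟩
  rcases Nat.eq_zero_or_pos s with h | h
  · exact absurd (by rw [h]) (h3 2 Nat.prime_two hw 0 h0)
  · exact h

end Cho

open Cho in
/-- CHOICE OF `s` -/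
theorem t_cho : S_cho := by
  have h1 : ∀ᶠ g : ℕ in atTop, (4 : ℝ) ≤ Real.log g :=
    (Real.tendsto_log_atTop.comp tendsto_natCast_atTop_atTop).eventually_ge_atTop 4
  filter_upwards [h1, eventually_ge_atTop 2] with g hg4 hg2 H h0H hH
  have hg1 : (1 : ℝ) < g := by exact_mod_cast (by omega : 1 < g)
  have hg0 : (0 : ℝ) < g := by linarith
  obtain ⟨w, hwd⟩ : ∃ w : ℕ, w = ⌊Real.log g / 2⌋₊ := ⟨_, rfl⟩
  have hw2 : 2 ≤ w := by
    rw [hwd]
    exact Nat.le_floor (by push_cast; linarith)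
  have hwle : (w : ℝ) ≤ Real.log g / 2 := by
    rw [hwd]
    exact Nat.floor_le (by linarith)
  have hP : (primorial w : ℝ) ≤ (g : ℝ) ^ (7 / 10 : ℝ) := by
    have h2 : (primorial w : ℝ) ≤ (4 : ℝ) ^ w := by exact_mod_cast primorial_le_four_pow w
    refine h2.trans ?_
    rw [← Real.rpow_natCast, Real.rpow_def_of_pos (by norm_num : (0 : ℝ) < 4),
      Real.rpow_def_of_pos hg0]
    apply Real.exp_le_exp.2
    have h3 : Real.log 4 ≤ 14 / 10 := by
      have : (4 : ℝ) = 2 * 2 := by norm_num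
      rw [this, Real.log_mul (by norm_num) (by norm_num)]
      have := Real.log_two_lt_d9
      linarith
    have h4 : 0 ≤ Real.log 4 := Real.log_nonneg (by norm_num)
    calc Real.log 4 * (w : ℝ) ≤ Real.log 4 * (Real.log g / 2) := mul_le_mul_of_nonneg_left hwle h4
      _ ≤ 14 / 10 * (Real.log g / 2) := mul_le_mul_of_nonneg_right h3 (by linarith)
      _ = _ := by ring
  have hlt : (g : ℝ) ^ (7 / 10 : ℝ) < g := by
    have h2 := Real.rpow_lt_rpow_of_exponent_lt hg1 (by norm_num : (7 / 10 : ℝ) < 1)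
    rwa [Real.rpow_one] at h2
  have hPg : primorial w < g := by
    have : (primorial w : ℝ) < g := hP.trans_lt hlt
    exact_mod_cast this
  obtain ⟨s, hs1, hs2, hs3⟩ := crt w (primorial w) hw2 rfl H h0H hH
  refine ⟨s, hs1, ?_, hs2.trans hPg, fun p hp hpw => hs3 p hp ?_⟩
  · refine le_trans ?_ hP
    exact_mod_cast hs2.le
  · rw [hwd]
    exact Nat.le_floor hpw

end Pool.Agent.H559.EH
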