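import Pool.Agent.H559.EH.Stm
import Pool.Agent.H559.EG.Cnt

/-!
# Rough numbers times smooth numbers with few primes, product at most `g ^ ν` (helper161 for helper559)
-/

set_option autoImplicit false

open Finset MeasureTheory ProbabilityTheory Filter Topology

namespace Pool.Agent.H559.EH

namespace Cnt

open Pool.Agent.H559.EG.Cnt

/-- the number of the primes of `E` -/
theorem card_E' {E : Finset ℕ} {w G : ℝ} {ν : ℕ} (hw : 1 < w)
    (hE : ∀ p ∈ E, p.Prime ∧ w < p) (hprod : ∏ p ∈ E, (p : ℝ) ≤ G ^ ν) :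
    (E.card : ℝ) * Real.log w ≤ ν * Real.log G := by
  have h1 : w ^ E.card ≤ G ^ ν := by
    calc w ^ E.card = ∏ _p ∈ E, w := by rw [prod_const]
      _ ≤ ∏ p ∈ E, (p : ℝ) := prod_le_prod (fun p _ => by linarith) (fun p hp => (hE p hp).2.le)
      _ ≤ G ^ ν := hprod
  have h2 := Real.log_le_log (pow_pos (by linarith) _) h1
  rw [Real.log_pow, Real.log_pow] at h2
  exact_mod_cast h2

/-- the bound for one `g` -/
theorem one_g {K ε : ℝ} {g T₁ ν : ℕ} (hg1 : 1 ≤ g) (hε : 0 < ε)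
    (hT : (T₁ : ℝ) ≤ √(g : ℝ) - 1) (hcub : (g : ℝ) ^ (1 / 3 : ℝ) ≤ √(g : ℝ) - 1)
    (h1 : ∀ y : ℕ, (g : ℝ) ≤ K * (y : ℝ) ^ 2 →
      ((rough y g).card : ℝ) ≤ (1 + ε / 2) * g / Real.log g)
    (h2 : ∀ t : ℕ, T₁ ≤ t → ∀ y : ℕ, (t : ℝ) ≤ K * (y : ℝ) ^ 2 →
      ((rough y t).card : ℝ) ≤ (1 + 1) * t / Real.log t)
    (hw : 4 ≤ Real.log g / 2)
    (hc1 : 6 * (Real.exp (4 * ν / Real.log (Real.log g / 2)) - 1) ≤ ε / 4)
    (hc2 : 16 * (ν : ℝ) ≤ √(Real.log g / 2) * Real.log (Real.log g / 2))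
    (hc3 : (g : ℝ) ^ (7 / 8 : ℝ) ≤ ε / 4 * ((g : ℝ) / Real.log g))
    (y : ℕ) (hy : (g : ℝ) ≤ K * (y : ℝ) ^ 2) (E : Finset ℕ)
    (hE : ∀ p ∈ E, p.Prime ∧ Real.log g / 2 < p) (hprod : ∏ p ∈ E, (p : ℝ) ≤ (g : ℝ) ^ ν)
    (A : Finset ℕ) (hA : ∀ n ∈ A, (1 ≤ n ∧ n ≤ g) ∧ ∀ p ≤ y, p.Prime → p ∣ n → p ∈ E) :
    (A.card : ℝ) ≤ (1 + ε) * g / Real.log g := by
  obtain ⟨w, hwdef⟩ : ∃ w, w = Real.log g / 2 := ⟨_, rfl⟩
  rw [← hwdef] at hw hc1 hc2 hE
  have hg0 : (0 : ℝ) < g := by exact_mod_cast hg1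
  have hlog : 0 < Real.log g := by linarith
  have hG : 0 ≤ (g : ℝ) / Real.log g := (div_pos hg0 hlog).le
  have hw0 : 0 < w := by linarith
  have hlw : 0 < Real.log w := Real.log_pos (by linarith)
  have hsw : 0 < √w := Real.sqrt_pos.2 hw0
  have hcard := card_E' (by linarith : (1 : ℝ) < w) hE hprod
  have hcard2 : (E.card : ℝ) ≤ 2 * ν * w / Real.log w := by
    rw [le_div_iff₀ hlw]
    refine hcard.trans (le_of_eq ?_)
    rw [hwdef]
    ring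
  have hs1 : ∑ e ∈ smooth E g, (e : ℝ)⁻¹ ≤ Real.exp (4 * ν / Real.log w) := by
    refine (sum_f1 (by linarith) hE g).trans (Real.exp_le_exp.2 ?_)
    calc 2 * w⁻¹ * (E.card : ℝ) ≤ 2 * w⁻¹ * (2 * ν * w / Real.log w) :=
          mul_le_mul_of_nonneg_left hcard2 (by positivity)
      _ = 4 * ν / Real.log w := by
          field_simp
          ring
  have hs2 : ∑ e ∈ smooth E g, (√(e : ℝ))⁻¹ ≤ (g : ℝ) ^ (1 / 8 : ℝ) := by
    refine (sum_f2 hw hE g).trans ?_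
    rw [Real.rpow_def_of_pos hg0]
    refine Real.exp_le_exp.2 ?_
    have h3 : Real.log g = 2 * w := by rw [hwdef]; ring
    rw [h3]
    calc 2 * (√w)⁻¹ * (E.card : ℝ) ≤ 2 * (√w)⁻¹ * (2 * ν * w / Real.log w) :=
          mul_le_mul_of_nonneg_left hcard2 (by positivity)
      _ ≤ 2 * w * (1 / 8) := by
          have h4 : 2 * (√w)⁻¹ * (2 * ν * w / Real.log w) = 4 * ν * w / (√w * Real.log w) := by
            field_simp
            ring
          rw [h4, div_le_iff₀ (by positivity)]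
          nlinarith [mul_le_mul_of_nonneg_left hc2 hw0.le]
  have h1mem : 1 ∈ smooth E g := by
    rw [mem_smooth]
    refine ⟨⟨le_rfl, hg1⟩, fun p hp hd => ?_⟩
    exact absurd (Nat.dvd_one.1 hd) hp.one_lt.ne'
  have hsum : (A.card : ℝ) ≤ ∑ e ∈ smooth E g, ((rough y (g / e)).card : ℝ) := by
    exact_mod_cast card_le y g E A hA
  refine hsum.trans ?_
  calc ∑ e ∈ smooth E g, ((rough y (g / e)).card : ℝ)
      ≤ ∑ e ∈ smooth E g, ((if e = 1 then (1 + ε / 2) * ((g : ℝ) / Real.log g) -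
        6 * ((g : ℝ) / Real.log g) else 0) + 6 * ((g : ℝ) / Real.log g) * (e : ℝ)⁻¹ +
        (g : ℝ) ^ (3 / 4 : ℝ) * (√(e : ℝ))⁻¹) :=
        sum_le_sum fun e he => pointwise hg1 hε hlog hT hcub h1 h2 y hy e (mem_smooth.1 he).1.1
    _ = ((1 + ε / 2) * ((g : ℝ) / Real.log g) - 6 * ((g : ℝ) / Real.log g)) +
        6 * ((g : ℝ) / Real.log g) * ∑ e ∈ smooth E g, (e : ℝ)⁻¹ +
        (g : ℝ) ^ (3 / 4 : ℝ) * ∑ e ∈ smooth E g, (√(e : ℝ))⁻¹ := by
        rw [sum_add_distrib, sum_add_distrib, ← mul_sum, ← mul_sum, sum_ite_eq' (smooth E g) 1,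
          if_pos h1mem]
    _ ≤ ((1 + ε / 2) * ((g : ℝ) / Real.log g) - 6 * ((g : ℝ) / Real.log g)) +
        6 * ((g : ℝ) / Real.log g) * Real.exp (4 * ν / Real.log w) +
        (g : ℝ) ^ (3 / 4 : ℝ) * (g : ℝ) ^ (1 / 8 : ℝ) := by
        have a1 := mul_le_mul_of_nonneg_left hs1 (by positivity : 0 ≤ 6 * ((g : ℝ) / Real.log g))
        have a2 := mul_le_mul_of_nonneg_left hs2 (by positivity : 0 ≤ (g : ℝ) ^ (3 / 4 : ℝ))
        linarith
    _ = (1 + ε / 2) * ((g : ℝ) / Real.log g) +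
        (6 * (Real.exp (4 * ν / Real.log w) - 1)) * ((g : ℝ) / Real.log g) + (g : ℝ) ^ (7 / 8 : ℝ) := by
        have : (g : ℝ) ^ (3 / 4 : ℝ) * (g : ℝ) ^ (1 / 8 : ℝ) = (g : ℝ) ^ (7 / 8 : ℝ) := by
          rw [← Real.rpow_add hg0]
          norm_num
        rw [this]
        ring
    _ ≤ (1 + ε / 2) * ((g : ℝ) / Real.log g) + ε / 4 * ((g : ℝ) / Real.log g) +
        ε / 4 * ((g : ℝ) / Real.log g) := by
        have a1 := mul_le_mul_of_nonneg_right hc1 hG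
        linarith
    _ = (1 + ε) * g / Real.log g := by ring

end Cnt

open Cnt Pool.Agent.H559.EG.Cnt in
theorem t_cnt (h : Pool.Agent.H559.EG.S_phi) : S_cnt := by
  intro ν K ε hK hε
  have hph : ∀ᶠ g : ℕ in atTop, ∀ y : ℕ, (g : ℝ) ≤ K * (y : ℝ) ^ 2 →
      ((rough y g).card : ℝ) ≤ (1 + ε / 2) * g / Real.log g := h K (ε / 2) hK (by positivity)
  obtain ⟨T₁, hT₁⟩ := eventually_atTop.1 (h K 1 hK one_pos)
  have hlogt : Tendsto (fun g : ℕ => Real.log (g : ℝ)) atTop atTop :=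
    Real.tendsto_log_atTop.comp tendsto_natCast_atTop_atTop
  have hwt : Tendsto (fun g : ℕ => Real.log (g : ℝ) / 2) atTop atTop :=
    hlogt.atTop_div_const (by norm_num)
  have hlwt : Tendsto (fun g : ℕ => Real.log (Real.log (g : ℝ) / 2)) atTop atTop :=
    Real.tendsto_log_atTop.comp hwt
  have hsqt : Tendsto (fun g : ℕ => √(Real.log (g : ℝ) / 2)) atTop atTop :=
    Real.tendsto_sqrt_atTop.comp hwt
  have c1 : ∀ᶠ g : ℕ in atTop, 6 * (Real.exp (4 * ν / Real.log (Real.log g / 2)) - 1) ≤ ε / 4 := by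
    have h1 : Tendsto (fun g : ℕ => 4 * (ν : ℝ) / Real.log (Real.log (g : ℝ) / 2)) atTop (𝓝 0) :=
      hlwt.const_div_atTop (4 * (ν : ℝ))
    have h2 : Tendsto (fun g : ℕ => 6 * (Real.exp (4 * ν / Real.log (Real.log (g : ℝ) / 2)) - 1))
        atTop (𝓝 (6 * (Real.exp 0 - 1))) :=
      ((Real.continuous_exp.continuousAt.tendsto.comp h1).sub_const 1).const_mul 6
    rw [Real.exp_zero, sub_self, mul_zero] at h2
    exact h2.eventually_le_const (by positivity)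
  have c2 : ∀ᶠ g : ℕ in atTop, 16 * (ν : ℝ) ≤ √(Real.log g / 2) * Real.log (Real.log g / 2) :=
    (hsqt.atTop_mul_atTop₀ hlwt).eventually_ge_atTop (16 * (ν : ℝ))
  have c3 : ∀ᶠ g : ℕ in atTop, (g : ℝ) ^ (7 / 8 : ℝ) ≤ ε / 4 * ((g : ℝ) / Real.log g) := by
    have h1 := (isLittleO_log_rpow_atTop (show (0 : ℝ) < 1 / 8 by norm_num)).def
      (show (0 : ℝ) < ε / 4 by positivity)
    have h2 := tendsto_natCast_atTop_atTop (R := ℝ) |>.eventually h1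
    filter_upwards [h2, eventually_ge_atTop 2] with g h3 hg
    have hg0 : (0 : ℝ) < g := by
      have : 0 < g := by omega
      exact_mod_cast this
    have hg1 : (1 : ℝ) < g := by
      have : 1 < g := by omega
      exact_mod_cast this
    have hl : 0 < Real.log g := Real.log_pos hg1
    rw [Real.norm_eq_abs, Real.norm_eq_abs, abs_of_pos hl,
      abs_of_pos (Real.rpow_pos_of_pos hg0 _)] at h3
    rw [← mul_div_assoc, le_div_iff₀ hl]
    calc (g : ℝ) ^ (7 / 8 : ℝ) * Real.log g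
        ≤ (g : ℝ) ^ (7 / 8 : ℝ) * (ε / 4 * (g : ℝ) ^ (1 / 8 : ℝ)) :=
          mul_le_mul_of_nonneg_left h3 (Real.rpow_nonneg hg0.le _)
      _ = ε / 4 * ((g : ℝ) ^ (7 / 8 : ℝ) * (g : ℝ) ^ (1 / 8 : ℝ)) := by ring
      _ = ε / 4 * g := by
          rw [← Real.rpow_add hg0]
          norm_num
  have c4 : ∀ᶠ g : ℕ in atTop, (T₁ : ℝ) ≤ √(g : ℝ) - 1 := by
    have h1 : Tendsto (fun g : ℕ => √(g : ℝ)) atTop atTop :=
      Real.tendsto_sqrt_atTop.comp tendsto_natCast_atTop_atTop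
    filter_upwards [h1.eventually_ge_atTop ((T₁ : ℝ) + 1)] with g hg
    linarith
  have c5 : ∀ᶠ g : ℕ in atTop, (g : ℝ) ^ (1 / 3 : ℝ) ≤ √(g : ℝ) - 1 := by
    have h1 : Tendsto (fun g : ℕ => (g : ℝ) ^ (1 / 6 : ℝ)) atTop atTop :=
      (tendsto_rpow_atTop (by norm_num)).comp tendsto_natCast_atTop_atTop
    filter_upwards [h1.eventually_ge_atTop 2, eventually_ge_atTop 1] with g hg hg1
    have hg0 : (0 : ℝ) < g := by exact_mod_cast hg1
    have e1 : √(g : ℝ) = (g : ℝ) ^ (1 / 6 : ℝ) * (g : ℝ) ^ (1 / 3 : ℝ) := by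
      rw [Real.sqrt_eq_rpow, ← Real.rpow_add hg0]
      norm_num
    have e2 : 1 ≤ (g : ℝ) ^ (1 / 3 : ℝ) :=
      Real.one_le_rpow (by exact_mod_cast hg1) (by norm_num)
    rw [e1]
    nlinarith
  filter_upwards [hph, c1, c2, c3, c4, c5, hwt.eventually_ge_atTop 4, eventually_ge_atTop 1]
    with g g1 g2 g3 g4 g5 g6 g7 g8
  intro y hy E hE hprod
  refine one_g (T₁ := T₁) g8 hε g5 g6 g1 (fun t ht y hy => hT₁ t ht y hy) g7 g2 g3 g4 y hy E hE
    hprod _ ?_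
  intro n hn
  rw [mem_filter, mem_Icc] at hn
  exact hn

end Pool.Agent.H559.EH
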