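import Pool.Agent.H559.EH.Stm

set_option autoImplicit false

/-! # `EH.S_det1` from `EG.S_ap`: lower bound for the patterns -/

open Finset Filter Topology
open Pool.Agent.H559.EG (yy PP w1 w2 St Wk pr)

namespace Pool.Agent.H559.EH

namespace Det1

lemma one_sub_sum_le_prod {ι : Type} (s : Finset ι) (f : ι → ℝ) (h0 : ∀ i ∈ s, 0 ≤ f i)
    (h1 : ∀ i ∈ s, f i ≤ 1) : 1 - ∑ i ∈ s, f i ≤ ∏ i ∈ s, (1 - f i) := by
  classical
  induction s using Finset.induction_on with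
  | empty => simp
  | insert a s ha ih =>
    rw [Finset.sum_insert ha, Finset.prod_insert ha]
    have ih' := ih (fun i hi => h0 i (Finset.mem_insert_of_mem hi))
      (fun i hi => h1 i (Finset.mem_insert_of_mem hi))
    have ha0 := h0 a (Finset.mem_insert_self a s)
    have ha1 := h1 a (Finset.mem_insert_self a s)
    have hs : 0 ≤ ∑ i ∈ s, f i := Finset.sum_nonneg (fun i hi => h0 i (Finset.mem_insert_of_mem hi))
    nlinarith [mul_nonneg (sub_nonneg.mpr ha1) (sub_nonneg.mpr ih'), mul_nonneg ha0 hs]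

/-- the forbidden classes -/
def Om (y u1 u2 : ℕ) (H : Finset ℕ) (b : ℕ → ℕ) (p : ℕ) : Finset ℕ :=
  if p ≤ y then ∅ else (range p).filter (fun u =>
    (p ≤ u2 ∧ ∃ h ∈ H, (u + h) % p = 0) ∨ (u1 < p ∧ ∃ h ∈ H, (u + h) % p = b p))

lemma Om_small {y u1 u2 : ℕ} {H : Finset ℕ} {b : ℕ → ℕ} {p : ℕ} (h : p ≤ y) :
    Om y u1 u2 H b p = ∅ := by
  unfold Om
  rw [if_pos h]

lemma Om_sub (y u1 u2 : ℕ) (H : Finset ℕ) (b : ℕ → ℕ) (p : ℕ) : Om y u1 u2 H b p ⊆ range p := by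
  unfold Om
  by_cases h : p ≤ y
  · rw [if_pos h]
    exact Finset.empty_subset _
  · rw [if_neg h]
    exact Finset.filter_subset _ _

lemma card_hits (p t : ℕ) (H : Finset ℕ) :
    ((range p).filter (fun u => ∃ h ∈ H, (u + h) % p = t)).card ≤ H.card := by
  classical
  have h0 : (range p).filter (fun u => ∃ h ∈ H, (u + h) % p = t) ⊆
      H.biUnion (fun h => (range p).filter (fun u => (u + h) % p = t)) := by
    intro u hu
    obtain ⟨h1, h, h2, h3⟩ := Finset.mem_filter.mp hu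
    exact Finset.mem_biUnion.mpr ⟨h, h2, Finset.mem_filter.mpr ⟨h1, h3⟩⟩
  refine (Finset.card_le_card h0).trans ?_
  refine (Finset.card_biUnion_le_card_mul H _ 1 ?_).trans (by omega)
  intro h _
  rw [Finset.card_le_one]
  intro a ha a' ha'
  obtain ⟨h3, h4⟩ := Finset.mem_filter.mp ha
  obtain ⟨h5, h6⟩ := Finset.mem_filter.mp ha'
  rw [Finset.mem_range] at h3 h5
  have h7 : a + h ≡ a' + h [MOD p] := by
    unfold Nat.ModEq
    rw [h4, h6]
  have h8 : a ≡ a' [MOD p] := Nat.ModEq.add_right_cancel' h h7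
  unfold Nat.ModEq at h8
  rwa [Nat.mod_eq_of_lt h3, Nat.mod_eq_of_lt h5] at h8

lemma Om_card_double (y u1 u2 : ℕ) (H : Finset ℕ) (b : ℕ → ℕ) (p : ℕ) :
    (Om y u1 u2 H b p).card ≤ 2 * H.card := by
  unfold Om
  by_cases h : p ≤ y
  · rw [if_pos h, Finset.card_empty]
    omega
  · rw [if_neg h]
    have hsub : (range p).filter (fun u =>
        (p ≤ u2 ∧ ∃ h ∈ H, (u + h) % p = 0) ∨ (u1 < p ∧ ∃ h ∈ H, (u + h) % p = b p)) ⊆
        (range p).filter (fun u => ∃ h ∈ H, (u + h) % p = 0) ∪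
        (range p).filter (fun u => ∃ h ∈ H, (u + h) % p = b p) := by
      intro u hu
      rw [Finset.mem_union, Finset.mem_filter, Finset.mem_filter]
      obtain ⟨h1, h2⟩ := Finset.mem_filter.mp hu
      rcases h2 with h2 | h2
      · exact Or.inl ⟨h1, h2.2⟩
      · exact Or.inr ⟨h1, h2.2⟩
    have h1 := card_hits p 0 H
    have h2 := card_hits p (b p) H
    exact ((Finset.card_le_card hsub).trans (Finset.card_union_le _ _)).trans (by omega)

lemma Om_card_single {y u1 u2 : ℕ} {H : Finset ℕ} {b : ℕ → ℕ} {p : ℕ} (hp : p ≤ u1 ∨ u2 < p) :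
    (Om y u1 u2 H b p).card ≤ H.card := by
  unfold Om
  by_cases h : p ≤ y
  · rw [if_pos h, Finset.card_empty]
    omega
  · rw [if_neg h]
    rcases hp with hp | hp
    · refine (Finset.card_le_card ?_).trans (card_hits p 0 H)
      intro u hu
      obtain ⟨h1, h2⟩ := Finset.mem_filter.mp hu
      rw [Finset.mem_filter]
      refine ⟨h1, ?_⟩
      rcases h2 with h2 | h2
      · exact h2.2
      · exact absurd h2.1 (by omega)
    · refine (Finset.card_le_card ?_).trans (card_hits p (b p) H)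
      intro u hu
      obtain ⟨h1, h2⟩ := Finset.mem_filter.mp hu
      rw [Finset.mem_filter]
      refine ⟨h1, ?_⟩
      rcases h2 with h2 | h2
      · exact absurd h2.1 (by omega)
      · exact h2.2

/-- the conditions imply strong survival -/
lemma surv {y u1 u2 T Q r v : ℕ} {H : Finset ℕ} {b : ℕ → ℕ} (hy1 : y ≤ u1)
    (hQ : ∀ p, p.Prime → p ≤ y → p ∣ Q) (hr : ∀ p ≤ y, p.Prime → ∀ h ∈ H, ¬ p ∣ r + h)
    (hv : v % Q = r) (ho : ∀ p ≤ T, p.Prime → v % p ∉ Om y u1 u2 H b p) :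
    ∀ h ∈ H, St u1 u2 T b (v + h) := by
  intro h hh p hpT hp
  by_cases hpy : p ≤ y
  · have hd := hQ p hp hpy
    have h1 : v % p = r % p := by
      rw [← hv, Nat.mod_mod_of_dvd v hd]
    have h2 : (v + h) % p = (r + h) % p := by
      rw [Nat.add_mod, h1, ← Nat.add_mod]
    have h3 := hr p hpy hp h hh
    refine ⟨fun _ => ?_, fun h4 => by omega⟩
    rw [h2]
    exact fun h4 => h3 (Nat.dvd_of_mod_eq_zero h4)
  · have h1 := ho p hpT hp
    unfold Om at h1
    rw [if_neg hpy, Finset.mem_filter, not_and] at h1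
    have h2 := h1 (Finset.mem_range.mpr (Nat.mod_lt _ hp.pos))
    rw [not_or] at h2
    refine ⟨fun h4 h5 => h2.1 ⟨h4, h, hh, ?_⟩, fun h4 h5 => h2.2 ⟨h4, h, hh, ?_⟩⟩
    · rw [Nat.mod_add_mod]
      exact h5
    · rw [Nat.mod_add_mod]
      exact h5

lemma k_div_le {k p : ℕ} (hp : 2 * k < p) : (k : ℝ) / (p : ℝ) ≤ 1 := by
  have h1 : (2 : ℝ) * k < p := by exact_mod_cast hp
  have h2 : (0 : ℝ) ≤ k := Nat.cast_nonneg k
  rw [div_le_one (by linarith)]
  linarith

lemma two_k_div_le {k p : ℕ} (hp : 2 * k < p) : 2 * (k : ℝ) / (p : ℝ) ≤ 1 := by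
  have h1 : (2 : ℝ) * k < p := by exact_mod_cast hp
  have h2 : (0 : ℝ) ≤ k := Nat.cast_nonneg k
  rw [div_le_one (by linarith)]
  linarith

lemma pr_nonneg {k y T : ℕ} (hy : 2 * k ≤ y) : 0 ≤ pr (k : ℝ) y T := by
  unfold pr
  apply Finset.prod_nonneg
  intro p hp
  have h1 := (Finset.mem_Ioc.mp (Finset.mem_filter.mp hp).1).1
  have := k_div_le (k := k) (p := p) (by omega)
  linarith

/-- the product over the primes -/
lemma prod_ge {y u1 u2 T : ℕ} (H : Finset ℕ) (b : ℕ → ℕ) (hy : 2 * H.card ≤ y) (hy0 : 1 ≤ y) (hu : y ≤ u1)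
    (hu2 : u1 ≤ u2) {e : ℝ} (he : 2 * (H.card : ℝ) * ((u2 : ℝ) - u1) ≤ e * u1) :
    pr (H.card : ℝ) y T * (1 - e) ≤ ∏ p ∈ (range (T + 1)).filter Nat.Prime,
      (1 - ((Om y u1 u2 H b p).card : ℝ) / p) := by
  classical
  have h1 : ∏ p ∈ (range (T + 1)).filter Nat.Prime, (1 - ((Om y u1 u2 H b p).card : ℝ) / p) =
      ∏ p ∈ (Ioc y T).filter Nat.Prime, (1 - ((Om y u1 u2 H b p).card : ℝ) / p) := by
    symm
    apply Finset.prod_subset
    · intro p hp
      obtain ⟨h1, h2⟩ := Finset.mem_filter.mp hp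
      rw [Finset.mem_Ioc] at h1
      exact Finset.mem_filter.mpr ⟨Finset.mem_range.mpr (by omega), h2⟩
    · intro p hp hp'
      obtain ⟨h1, h2⟩ := Finset.mem_filter.mp hp
      rw [Finset.mem_range] at h1
      have h3 : p ≤ y := by
        by_contra h
        exact hp' (Finset.mem_filter.mpr ⟨Finset.mem_Ioc.mpr ⟨by omega, by omega⟩, h2⟩)
      rw [Om_small h3, Finset.card_empty, Nat.cast_zero, zero_div, sub_zero]
  rw [h1]
  set f : ℕ → ℝ := fun p => if u1 < p ∧ p ≤ u2 then 2 * (H.card : ℝ) / (p : ℝ) else 0 with hf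
  have hf0 : ∀ p ∈ (Ioc y T).filter Nat.Prime, 0 ≤ f p := by
    intro p _
    rw [hf]
    dsimp only
    split_ifs
    · positivity
    · exact le_rfl
  have hf1 : ∀ p ∈ (Ioc y T).filter Nat.Prime, f p ≤ 1 := by
    intro p hp
    have h2 := (Finset.mem_Ioc.mp (Finset.mem_filter.mp hp).1).1
    rw [hf]
    dsimp only
    split_ifs
    · exact two_k_div_le (by omega)
    · exact zero_le_one
  have h2 : ∏ p ∈ (Ioc y T).filter Nat.Prime, ((1 - (H.card : ℝ) / (p : ℝ)) * (1 - f p)) ≤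
      ∏ p ∈ (Ioc y T).filter Nat.Prime, (1 - ((Om y u1 u2 H b p).card : ℝ) / p) := by
    apply Finset.prod_le_prod
    · intro p hp
      have h3 := (Finset.mem_Ioc.mp (Finset.mem_filter.mp hp).1).1
      have h4 := k_div_le (k := H.card) (p := p) (by omega)
      have h5 := hf1 p hp
      exact mul_nonneg (by linarith) (by linarith)
    · intro p hp
      have h3 := (Finset.mem_Ioc.mp (Finset.mem_filter.mp hp).1).1
      have h4 := k_div_le (k := H.card) (p := p) (by omega)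
      have hpp : (0 : ℝ) < p := by
        have : 0 < p := by omega
        exact_mod_cast this
      have h40 : 0 ≤ (H.card : ℝ) / (p : ℝ) := by positivity
      by_cases hm : u1 < p ∧ p ≤ u2
      · have h5 : f p = 2 * (H.card : ℝ) / (p : ℝ) := by
          rw [hf]
          exact if_pos hm
        have h6 := two_k_div_le (k := H.card) (p := p) (by omega)
        have h7 : ((Om y u1 u2 H b p).card : ℝ) / p ≤ 2 * (H.card : ℝ) / p := by
          apply div_le_div_of_nonneg_right _ hpp.le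
          exact_mod_cast Om_card_double y u1 u2 H b p
        rw [h5]
        nlinarith [mul_nonneg h40 (sub_nonneg.mpr h6)]
      · have h5 : f p = 0 := by
          rw [hf]
          exact if_neg hm
        have h7 : ((Om y u1 u2 H b p).card : ℝ) / p ≤ (H.card : ℝ) / p := by
          apply div_le_div_of_nonneg_right _ hpp.le
          have : (Om y u1 u2 H b p).card ≤ H.card := Om_card_single (by omega)
          exact_mod_cast this
        rw [h5]
        linarith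
  refine le_trans ?_ h2
  rw [Finset.prod_mul_distrib]
  have h3 := one_sub_sum_le_prod _ f hf0 hf1
  have h4 : ∑ p ∈ (Ioc y T).filter Nat.Prime, f p ≤ e := by
    have hu1 : (0 : ℝ) < u1 := by
      have : 0 < u1 := by omega
      exact_mod_cast this
    calc ∑ p ∈ (Ioc y T).filter Nat.Prime, f p
        = ∑ p ∈ ((Ioc y T).filter Nat.Prime).filter (fun p => u1 < p ∧ p ≤ u2),
            2 * (H.card : ℝ) / (p : ℝ) := by
          exact (Finset.sum_filter _ _).symm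
      _ ≤ ∑ p ∈ Ioc u1 u2, 2 * (H.card : ℝ) / (p : ℝ) := by
          apply Finset.sum_le_sum_of_subset_of_nonneg
          · intro p hp
            exact Finset.mem_Ioc.mpr (Finset.mem_filter.mp hp).2
          · intro p _ _
            positivity
      _ ≤ ∑ _p ∈ Ioc u1 u2, 2 * (H.card : ℝ) / (u1 : ℝ) := by
          apply Finset.sum_le_sum
          intro p hp
          apply div_le_div_of_nonneg_left (by positivity) hu1
          exact_mod_cast (Finset.mem_Ioc.mp hp).1.le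
      _ = ((u2 : ℝ) - u1) * (2 * (H.card : ℝ) / u1) := by
          rw [Finset.sum_const, Nat.card_Ioc, nsmul_eq_mul, Nat.cast_sub hu2]
      _ ≤ e := by
          rw [mul_div_assoc', div_le_iff₀ hu1]
          linarith
  exact mul_le_mul_of_nonneg_left (by linarith) (pr_nonneg hy)

lemma step_ge (k n : ℕ) (hn : 2 * k < n) :
    (n : ℝ) ^ (2 * k) ≤ (1 - (k : ℝ) / n) * ((n : ℝ) + 1) ^ (2 * k) := by
  have hn0 : (0 : ℝ) < n := by
    have : 0 < n := by omega
    exact_mod_cast this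
  have hkn : (2 : ℝ) * k ≤ n := by exact_mod_cast hn.le
  have hk0 : (0 : ℝ) ≤ k := Nat.cast_nonneg k
  have h1 : 1 + ((2 * k : ℕ) : ℝ) * (1 / n) ≤ (1 + 1 / (n : ℝ)) ^ (2 * k) := by
    apply one_add_mul_le_pow
    have : (0 : ℝ) ≤ 1 / n := by positivity
    linarith
  have h2 : ((n : ℝ) + 1) ^ (2 * k) = (n : ℝ) ^ (2 * k) * (1 + 1 / (n : ℝ)) ^ (2 * k) := by
    rw [← mul_pow]
    congr 1
    field_simp
  have h3 : 0 ≤ 1 - (k : ℝ) / n := by
    have := k_div_le hn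
    linarith
  have h4 : 1 ≤ (1 - (k : ℝ) / n) * (1 + ((2 * k : ℕ) : ℝ) * (1 / n)) := by
    have h5 : (1 - (k : ℝ) / n) * (1 + ((2 * k : ℕ) : ℝ) * (1 / n)) =
        1 + (k : ℝ) * (n - 2 * k) / (n : ℝ) ^ 2 := by
      push_cast
      field_simp
      ring
    rw [h5]
    have h6 : 0 ≤ (k : ℝ) * (n - 2 * k) / (n : ℝ) ^ 2 := by
      apply div_nonneg (mul_nonneg hk0 (by linarith)) (by positivity)
    linarith
  have h5 : 1 ≤ (1 - (k : ℝ) / n) * (1 + 1 / (n : ℝ)) ^ (2 * k) :=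
    h4.trans (mul_le_mul_of_nonneg_left h1 h3)
  rw [h2]
  have h6 : 0 ≤ (n : ℝ) ^ (2 * k) := by positivity
  calc (n : ℝ) ^ (2 * k) = (n : ℝ) ^ (2 * k) * 1 := (mul_one _).symm
    _ ≤ (n : ℝ) ^ (2 * k) * ((1 - (k : ℝ) / n) * (1 + 1 / (n : ℝ)) ^ (2 * k)) :=
        mul_le_mul_of_nonneg_left h5 h6
    _ = (1 - (k : ℝ) / n) * ((n : ℝ) ^ (2 * k) * (1 + 1 / (n : ℝ)) ^ (2 * k)) := by ring

lemma tele (k T : ℕ) (hT : 2 * k ≤ T) :
    1 ≤ (∏ n ∈ Ioc (2 * k) T, (1 - (k : ℝ) / (n : ℝ))) * ((T : ℝ) + 1) ^ (2 * k) := by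
  induction T, hT using Nat.le_induction with
  | base =>
    rw [Finset.Ioc_self, Finset.prod_empty, one_mul]
    apply one_le_pow₀
    have : (0 : ℝ) ≤ ((2 * k : ℕ) : ℝ) := Nat.cast_nonneg _
    linarith
  | succ T hT ih =>
    rw [Finset.prod_Ioc_succ_top (by omega)]
    have h1 := step_ge k (T + 1) (by omega)
    have h2 : 0 ≤ ∏ n ∈ Ioc (2 * k) T, (1 - (k : ℝ) / (n : ℝ)) := by
      apply Finset.prod_nonneg
      intro n hn
      have := k_div_le (k := k) (p := n) (Finset.mem_Ioc.mp hn).1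
      linarith
    rw [mul_assoc]
    have h3 : ((T : ℝ) + 1) ^ (2 * k) = ((T + 1 : ℕ) : ℝ) ^ (2 * k) := by push_cast; ring
    rw [h3] at ih
    exact ih.trans (mul_le_mul_of_nonneg_left h1 h2)

/-- crude lower bound -/
lemma pr_ge {k y T ν : ℕ} (hk : k ≤ ν) (hy : 2 * k ≤ y) (hT : y ≤ T) :
    1 / ((T : ℝ) + 1) ^ (2 * ν) ≤ pr (k : ℝ) y T := by
  have h1 : ∏ n ∈ Ioc (2 * k) T, (1 - (k : ℝ) / (n : ℝ)) ≤ pr (k : ℝ) y T := by
    unfold pr
    apply Finset.prod_le_prod_of_subset_of_le_one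
    · intro p hp
      have h2 := Finset.mem_Ioc.mp (Finset.mem_filter.mp hp).1
      exact Finset.mem_Ioc.mpr ⟨by omega, h2.2⟩
    · intro p hp
      have h3 := k_div_le (k := k) (p := p) (by
        have := (Finset.mem_Ioc.mp hp).1
        omega)
      linarith
    · intro p _ _
      have : 0 ≤ (k : ℝ) / (p : ℝ) := by positivity
      linarith
  have h2 := tele k T (hy.trans hT)
  have hT1 : (1 : ℝ) ≤ (T : ℝ) + 1 := by
    have : (0 : ℝ) ≤ T := Nat.cast_nonneg T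
    linarith
  have h3 : 0 < ((T : ℝ) + 1) ^ (2 * k) := by positivity
  have h4 : 1 / ((T : ℝ) + 1) ^ (2 * k) ≤ ∏ n ∈ Ioc (2 * k) T, (1 - (k : ℝ) / (n : ℝ)) := by
    rw [div_le_iff₀ h3]
    exact h2
  have h5 : 1 / ((T : ℝ) + 1) ^ (2 * ν) ≤ 1 / ((T : ℝ) + 1) ^ (2 * k) := by
    apply div_le_div_of_nonneg_left (by norm_num) h3
    exact pow_le_pow_right₀ hT1 (by omega)
  exact h5.trans (h4.trans h1)

/-- the size of the primorial -/
lemma PP_le {η : ℝ} (hη : 0 < η) (hη4 : η ≤ 1 / 4) {x : ℕ} (hx : 1 ≤ x) :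
    (PP η x : ℝ) ≤ (x : ℝ) ^ (1 / 2 : ℝ) := by
  have hx0 : (0 : ℝ) < x := by exact_mod_cast hx
  have hx1 : (1 : ℝ) ≤ x := by exact_mod_cast hx
  have hL : 0 ≤ Real.log x := Real.log_nonneg hx1
  have h1 : (PP η x : ℝ) ≤ (4 : ℝ) ^ (yy η x) := by
    unfold PP
    exact_mod_cast primorial_le_four_pow (yy η x)
  have h2 : ((yy η x : ℕ) : ℝ) ≤ η * Real.log x := Nat.floor_le (by positivity)
  have h3 : (4 : ℝ) ^ (yy η x) = Real.exp ((yy η x : ℝ) * Real.log 4) := by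
    rw [Real.exp_nat_mul, Real.exp_log (by norm_num)]
  have h4 : Real.log 4 ≤ 2 := by
    have h5 : Real.log 4 = 2 * Real.log 2 := by
      rw [show (4 : ℝ) = 2 ^ 2 by norm_num, Real.log_pow]
      norm_num
    have h6 := Real.log_two_lt_d9
    linarith
  have h40 : 0 ≤ Real.log 4 := Real.log_nonneg (by norm_num)
  rw [h3] at h1
  refine h1.trans ?_
  rw [Real.rpow_def_of_pos hx0, Real.exp_le_exp]
  calc (yy η x : ℝ) * Real.log 4 ≤ (η * Real.log x) * Real.log 4 :=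
        mul_le_mul_of_nonneg_right h2 h40
    _ ≤ (1 / 4 * Real.log x) * 2 := by
        apply mul_le_mul _ h4 h40 (by positivity)
        exact mul_le_mul_of_nonneg_right hη4 hL
    _ = Real.log x * (1 / 2) := by ring

lemma tlog : Tendsto (fun x : ℕ => Real.log (x : ℝ)) atTop atTop :=
  Real.tendsto_log_atTop.comp tendsto_natCast_atTop_atTop

/-- powers of the logarithm -/
lemma logpow (r s M : ℝ) (hs : 0 < s) : ∀ᶠ x : ℕ in atTop, M * Real.log x ^ r ≤ (x : ℝ) ^ s := by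
  have h1 := (isLittleO_log_rpow_rpow_atTop r hs).bound
    (show (0 : ℝ) < 1 / (|M| + 1) by positivity)
  have h2 := tendsto_natCast_atTop_atTop.eventually h1
  filter_upwards [h2, eventually_ge_atTop 1] with x hx hx1
  have hx1' : (1 : ℝ) ≤ x := by exact_mod_cast hx1
  have hL : 0 ≤ Real.log x := Real.log_nonneg hx1'
  have h3 : 0 ≤ Real.log x ^ r := Real.rpow_nonneg hL r
  have h4 : 0 ≤ (x : ℝ) ^ s := Real.rpow_nonneg (by linarith) s
  rw [Real.norm_of_nonneg h3, Real.norm_of_nonneg h4, div_mul_eq_mul_div, one_mul,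
    le_div_iff₀ (by positivity)] at hx
  have h5 : M ≤ |M| := le_abs_self M
  nlinarith [mul_le_mul_of_nonneg_right h5 h3]

/-- the ratio of the two windows -/
lemma window {c : ℝ} (hc : 1 < c) {e : ℝ} (he : 0 < e) :
    ∀ᶠ x : ℕ in atTop, 4 * ((w2 c x : ℝ) - w1 c x) ≤ e * w1 c x := by
  have h1 : Tendsto (fun x : ℕ => Real.log (x : ℝ) - Real.log 2) atTop atTop :=
    tendsto_atTop_add_const_right _ _ tlog
  have h2 : Tendsto (fun x : ℕ => (1 + Real.log 2 / (Real.log (x : ℝ) - Real.log 2)) ^ c) atTop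
      (𝓝 ((1 + 0) ^ c)) := by
    apply Tendsto.rpow_const
    · exact tendsto_const_nhds.add (tendsto_const_nhds.div_atTop h1)
    · right
      linarith
  rw [add_zero, Real.one_rpow] at h2
  have h3 : ∀ᶠ x : ℕ in atTop, (1 + Real.log 2 / (Real.log (x : ℝ) - Real.log 2)) ^ c < 1 + e / 16 :=
    h2.eventually (gt_mem_nhds (by linarith))
  have h4 : ∀ᶠ x : ℕ in atTop, 2 + 16 / e ≤ (Real.log (x : ℝ) - Real.log 2) :=
    h1.eventually_ge_atTop _
  filter_upwards [h3, h4, eventually_ge_atTop 2] with x hx3 hx4 hx2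
  have hx0 : (0 : ℝ) < x := by
    have : 0 < x := by omega
    exact_mod_cast this
  have h16 : 0 < 16 / e := by positivity
  obtain ⟨a, ha⟩ : ∃ a, a = Real.log ((x : ℝ) / 2) ^ c := ⟨_, rfl⟩
  have hl2 : Real.log ((x : ℝ) / 2) = Real.log (x : ℝ) - Real.log 2 :=
    Real.log_div hx0.ne' (by norm_num)
  have hlpos : 0 < Real.log (x : ℝ) - Real.log 2 := by linarith
  have hage : 2 + 16 / e ≤ a := by
    rw [ha, hl2]
    have h5 : (Real.log (x : ℝ) - Real.log 2) ^ (1 : ℝ) ≤ (Real.log (x : ℝ) - Real.log 2) ^ c :=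
      Real.rpow_le_rpow_of_exponent_le (by linarith) hc.le
    rw [Real.rpow_one] at h5
    linarith
  have hb : Real.log (x : ℝ) ^ c ≤ (1 + e / 16) * a := by
    have h6 : Real.log (x : ℝ) = (1 + Real.log 2 / (Real.log (x : ℝ) - Real.log 2)) *
        (Real.log (x : ℝ) - Real.log 2) := by
      field_simp
      ring
    have hlog2 : 0 < Real.log 2 := Real.log_pos (by norm_num)
    have h7 : 0 ≤ 1 + Real.log 2 / (Real.log (x : ℝ) - Real.log 2) := by positivity
    rw [ha, hl2]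
    nth_rewrite 1 [h6]
    rw [Real.mul_rpow h7 hlpos.le]
    exact mul_le_mul_of_nonneg_right hx3.le (Real.rpow_nonneg hlpos.le c)
  have hw2 : (w2 c x : ℝ) ≤ Real.log (x : ℝ) ^ c := by
    apply Nat.floor_le
    apply Real.rpow_nonneg
    have hlog2 : 0 < Real.log 2 := Real.log_pos (by norm_num)
    linarith
  have hw1 : a - 1 < (w1 c x : ℝ) := by
    rw [ha]
    exact Nat.sub_one_lt_floor _
  have hea : 1 ≤ e / 16 * a := by
    have h8 : 16 / e * (e / 16) = 1 := by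
      field_simp
    have h9 : 0 < e / 16 := by positivity
    nlinarith [mul_le_mul_of_nonneg_right hage h9.le]
  have h10 : 4 * ((w2 c x : ℝ) - w1 c x) ≤ 8 * (e / 16 * a) := by
    nlinarith
  nlinarith [mul_le_mul_of_nonneg_left hw1.le he.le]

end Det1

open Det1

theorem t_det1 (h : Pool.Agent.H559.EG.S_ap) : S_det1 := by
  intro ν A c η ε lam hc hη hη4 hε hlam
  classical
  obtain ⟨e, he0, he4, heε⟩ : ∃ e : ℝ, 0 < e ∧ e ≤ 1 / 4 ∧ 4 * e ≤ ε :=
    ⟨min ε 1 / 4, by positivity, by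
      have := min_le_right ε 1
      linarith, by
      have := min_le_left ε 1
      linarith⟩
  obtain ⟨B, K, hK, hB⟩ := h (2 * ν) e he0
  have hν0 : (0 : ℝ) ≤ ν := Nat.cast_nonneg ν
  have hA0 : (0 : ℝ) ≤ A := Nat.cast_nonneg A
  -- the sizes
  have E0 : ∀ᶠ x : ℕ in atTop, 2 + (2 * ν + 5) / η ≤ Real.log (x : ℝ) - Real.log 2 := by
    have h1 : Tendsto (fun x : ℕ => Real.log (x : ℝ) - Real.log 2) atTop atTop :=
      tendsto_atTop_add_const_right _ _ tlog
    exact h1.eventually_ge_atTop _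
  have E5 := window hc (e := 2 * e / (ν + 1)) (by positivity)
  have E6 : ∀ᶠ x : ℕ in atTop, (lam + 1) * (2 / e) * Real.log x ^ (2 : ℝ) ≤ (x : ℝ) ^ (1 : ℝ) :=
    logpow 2 1 _ one_pos
  have E7 : ∀ᶠ x : ℕ in atTop, (2 * K * 2 ^ (B + 2 * ν) / e) *
      Real.log x ^ ((c + A) * (B + 2 * ν : ℕ)) ≤ (x : ℝ) ^ (1 / 2 : ℝ) := logpow _ _ _ (by norm_num)
  filter_upwards [E0, E5, E6, E7, eventually_ge_atTop 2] with x hx0 hx5 hx6 hx7 hx2
  intro g H hg hpat r hr hrp b
  have hkν : H.card ≤ ν := hpat.2.2.2.2.1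
  have hkν' : (H.card : ℝ) ≤ ν := by exact_mod_cast hkν
  have hk0 : (0 : ℝ) ≤ H.card := Nat.cast_nonneg _
  have hxpos : (0 : ℝ) < x := by
    have : 0 < x := by omega
    exact_mod_cast this
  have hlog2 : 0 < Real.log 2 := Real.log_pos (by norm_num)
  have h5η : 0 < (2 * ν + 5) / η := by positivity
  have hL2 : 2 ≤ Real.log (x : ℝ) - Real.log 2 := by linarith
  have hL1 : 1 ≤ Real.log (x : ℝ) := by linarith
  have hl2 : Real.log ((x : ℝ) / 2) = Real.log (x : ℝ) - Real.log 2 :=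
    Real.log_div hxpos.ne' (by norm_num)
  -- comparison of the levels
  have hy5 : 2 * ν + 5 ≤ yy η x := by
    apply Nat.le_floor
    have h1 : η * ((2 * ν + 5) / η) = 2 * ν + 5 := by field_simp
    have h2 : η * ((2 * ν + 5) / η) ≤ η * Real.log x := mul_le_mul_of_nonneg_left (by linarith) hη.le
    push_cast
    linarith
  have hy4 : 2 * H.card ≤ yy η x := by omega
  have hy1 : yy η x ≤ w1 c x := by
    apply Nat.floor_le_floor
    rw [hl2]
    have h1 : (Real.log (x : ℝ) - Real.log 2) ^ (1 : ℝ) ≤ (Real.log (x : ℝ) - Real.log 2) ^ c :=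
      Real.rpow_le_rpow_of_exponent_le (by linarith) hc.le
    rw [Real.rpow_one] at h1
    have h3 : Real.log 2 ≤ 1 := by
      have := Real.log_two_lt_d9
      linarith
    nlinarith
  have h12 : w1 c x ≤ w2 c x := by
    apply Nat.floor_le_floor
    rw [hl2]
    exact Real.rpow_le_rpow (by linarith) (by linarith) (by linarith)
  have h2D : w2 c x ≤ D0 c A x := by
    apply Nat.floor_le_floor
    exact Real.rpow_le_rpow_of_exponent_le hL1 (by linarith)
  have hyD : yy η x ≤ D0 c A x := hy1.trans (h12.trans h2D)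
  have hQ0 : 0 < PP η x := primorial_pos _
  have hQ0' : (0 : ℝ) < PP η x := by exact_mod_cast hQ0
  have hQx := PP_le hη hη4 (x := x) (by omega)
  -- the window
  have hwin : 2 * (H.card : ℝ) * ((w2 c x : ℝ) - w1 c x) ≤ e * w1 c x := by
    have h1 : (0 : ℝ) ≤ (w2 c x : ℝ) - w1 c x := by
      have : (w1 c x : ℝ) ≤ w2 c x := by exact_mod_cast h12
      linarith
    have hw0 : (0 : ℝ) ≤ w1 c x := Nat.cast_nonneg _
    have h2 : 2 * (H.card : ℝ) * ((w2 c x : ℝ) - w1 c x) ≤ 2 * (ν : ℝ) * ((w2 c x : ℝ) - w1 c x) :=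
      mul_le_mul_of_nonneg_right (by linarith) h1
    have h3 : (ν : ℝ) / 2 * (4 * ((w2 c x : ℝ) - w1 c x)) ≤ (ν : ℝ) / 2 * (2 * e / (ν + 1) * w1 c x) :=
      mul_le_mul_of_nonneg_left hx5 (by positivity)
    have h4 : (ν : ℝ) / 2 * (2 * e / (ν + 1) * w1 c x) = (ν : ℝ) / (ν + 1) * (e * w1 c x) := by
      field_simp
    have h5 : (ν : ℝ) / (ν + 1) ≤ 1 := by
      rw [div_le_one (by linarith)]
      linarith
    have h6 : (ν : ℝ) / (ν + 1) * (e * w1 c x) ≤ 1 * (e * w1 c x) :=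
      mul_le_mul_of_nonneg_right h5 (by positivity)
    linarith
  -- the interval
  have hg1 : (g : ℝ) + 1 ≤ e * (x / 2) := by
    rw [Real.rpow_one] at hx6
    have h1 : Real.log (x : ℝ) ^ (2 : ℝ) = Real.log (x : ℝ) ^ 2 := by
      rw [← Real.rpow_natCast]
      norm_num
    rw [h1] at hx6
    have h2 : 1 ≤ Real.log (x : ℝ) ^ 2 := by nlinarith
    have h3 : (g : ℝ) + 1 ≤ (lam + 1) * Real.log (x : ℝ) ^ 2 := by nlinarith
    have h4 : (lam + 1) * (2 / e) * Real.log x ^ 2 = 2 / e * ((lam + 1) * Real.log (x : ℝ) ^ 2) := by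
      ring
    rw [h4] at hx6
    have h5 : e / 2 * (2 / e * ((lam + 1) * Real.log (x : ℝ) ^ 2)) =
        (lam + 1) * Real.log (x : ℝ) ^ 2 := by
      field_simp
    have h6 : e / 2 * (2 / e * ((lam + 1) * Real.log (x : ℝ) ^ 2)) ≤ e / 2 * x :=
      mul_le_mul_of_nonneg_left hx6 (by positivity)
    linarith
  have hg2 : 2 * (g + 1) ≤ x := by
    have h1 : (2 : ℝ) * (g + 1) ≤ x := by nlinarith
    exact_mod_cast h1
  obtain ⟨Y, hY⟩ : ∃ Y, Y = x - g - 1 - x / 2 := ⟨_, rfl⟩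
  have hkY : x / 2 + Y = x - g - 1 := by omega
  have hYx : (1 - e) * ((x : ℝ) / 2) ≤ Y := by
    have h1 : 2 * Y + 2 * g + 2 ≥ x := by omega
    have h2 : (x : ℝ) ≤ 2 * Y + 2 * g + 2 := by exact_mod_cast h1
    linarith
  -- the sieve
  have hap := hB (D0 c A x) (PP η x) r (Om (yy η x) (w1 c x) (w2 c x) H b) hQ0 hr (by
    intro p _ hp
    refine ⟨Om_sub _ _ _ _ _ _, (Om_card_double _ _ _ _ _ _).trans (by omega), fun hd => ?_⟩
    apply Om_small
    exact hp.dvd_primorial_iff.mp hd) (x / 2) Y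
  have hcount : (((Ioc (x / 2) (x / 2 + Y)).filter (fun n => n % PP η x = r ∧
      ∀ p ≤ D0 c A x, p.Prime → n % p ∉ Om (yy η x) (w1 c x) (w2 c x) H b p)).card : ℝ) ≤
      (((Ioc (x / 2) (x - g - 1)).filter (fun v => v % PP η x = r ∧
        ∀ h ∈ H, St (w1 c x) (w2 c x) (D0 c A x) b (v + h))).card : ℝ) := by
    have h1 : (Ioc (x / 2) (x / 2 + Y)).filter (fun n => n % PP η x = r ∧
      ∀ p ≤ D0 c A x, p.Prime → n % p ∉ Om (yy η x) (w1 c x) (w2 c x) H b p) ⊆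
      (Ioc (x / 2) (x - g - 1)).filter (fun v => v % PP η x = r ∧
        ∀ h ∈ H, St (w1 c x) (w2 c x) (D0 c A x) b (v + h)) := by
      intro v hv
      obtain ⟨h1, h2, h3⟩ := Finset.mem_filter.mp hv
      rw [hkY] at h1
      refine Finset.mem_filter.mpr ⟨h1, h2, ?_⟩
      exact surv hy1 (fun p hp hpy => hp.dvd_primorial_iff.mpr hpy) hrp h2 h3
    exact_mod_cast Finset.card_le_card h1
  have hprod := prod_ge (T := D0 c A x) H b hy4 (by omega) hy1 h12 hwin
  obtain ⟨Pi0, hPi⟩ : ∃ Pi0 : ℝ, Pi0 = ∏ p ∈ (range (D0 c A x + 1)).filter Nat.Prime,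
      (1 - ((Om (yy η x) (w1 c x) (w2 c x) H b p).card : ℝ) / p) := ⟨_, rfl⟩
  rw [← hPi] at hprod hap
  have hlow := (abs_le.mp hap).1
  have hpr0 := pr_nonneg (T := D0 c A x) hy4
  have hprge := pr_ge hkν hy4 hyD
  -- the error term
  have herr : K * ((D0 c A x : ℝ) + 1) ^ B ≤
      e * ((x : ℝ) / (2 * PP η x)) * pr (H.card : ℝ) (yy η x) (D0 c A x) := by
    have hD1 : (D0 c A x : ℝ) + 1 ≤ 2 * Real.log (x : ℝ) ^ (c + A) := by
      have h1 : (D0 c A x : ℝ) ≤ Real.log (x : ℝ) ^ (c + A) :=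
        Nat.floor_le (Real.rpow_nonneg (by linarith) _)
      have h2 : 1 ≤ Real.log (x : ℝ) ^ (c + A) := Real.one_le_rpow hL1 (by linarith)
      linarith
    have hD0 : (0 : ℝ) < (D0 c A x : ℝ) + 1 := by positivity
    have h1 : ((D0 c A x : ℝ) + 1) ^ (B + 2 * ν) ≤
        2 ^ (B + 2 * ν) * Real.log x ^ ((c + A) * (B + 2 * ν : ℕ)) := by
      calc ((D0 c A x : ℝ) + 1) ^ (B + 2 * ν) ≤ (2 * Real.log (x : ℝ) ^ (c + A)) ^ (B + 2 * ν) :=
            pow_le_pow_left₀ hD0.le hD1 _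
        _ = 2 ^ (B + 2 * ν) * Real.log x ^ ((c + A) * (B + 2 * ν : ℕ)) := by
            rw [mul_pow, Real.rpow_mul (by linarith), Real.rpow_natCast]
    have h2 : K * ((D0 c A x : ℝ) + 1) ^ (B + 2 * ν) ≤ e * ((x : ℝ) ^ (1 / 2 : ℝ) / 2) := by
      have h3 : K * ((D0 c A x : ℝ) + 1) ^ (B + 2 * ν) ≤
          e / 2 * ((2 * K * 2 ^ (B + 2 * ν) / e) * Real.log x ^ ((c + A) * (B + 2 * ν : ℕ))) := by
        calc K * ((D0 c A x : ℝ) + 1) ^ (B + 2 * ν) ≤
            K * (2 ^ (B + 2 * ν) * Real.log x ^ ((c + A) * (B + 2 * ν : ℕ))) :=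
              mul_le_mul_of_nonneg_left h1 hK.le
          _ = e / 2 * ((2 * K * 2 ^ (B + 2 * ν) / e) *
              Real.log x ^ ((c + A) * (B + 2 * ν : ℕ))) := by
              field_simp
      refine h3.trans ((mul_le_mul_of_nonneg_left hx7 (by positivity)).trans (le_of_eq ?_))
      ring
    -- `x = x^(1/2) x^(1/2)`
    have hsq : (x : ℝ) ^ (1 / 2 : ℝ) * (x : ℝ) ^ (1 / 2 : ℝ) = x := by
      rw [← Real.rpow_add hxpos]
      norm_num
    have hsx : 0 < (x : ℝ) ^ (1 / 2 : ℝ) := Real.rpow_pos_of_pos hxpos _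
    have h4 : (x : ℝ) ^ (1 / 2 : ℝ) / 2 ≤ (x : ℝ) / (2 * PP η x) := by
      rw [div_le_div_iff₀ (by norm_num) (by positivity)]
      nlinarith [mul_le_mul_of_nonneg_left hQx hsx.le]
    calc K * ((D0 c A x : ℝ) + 1) ^ B
        = K * ((D0 c A x : ℝ) + 1) ^ (B + 2 * ν) / ((D0 c A x : ℝ) + 1) ^ (2 * ν) := by
          rw [pow_add]
          field_simp
      _ ≤ e * ((x : ℝ) ^ (1 / 2 : ℝ) / 2) / ((D0 c A x : ℝ) + 1) ^ (2 * ν) :=
          div_le_div_of_nonneg_right h2 (by positivity)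
      _ = e * ((x : ℝ) ^ (1 / 2 : ℝ) / 2) * (1 / ((D0 c A x : ℝ) + 1) ^ (2 * ν)) := by ring
      _ ≤ e * ((x : ℝ) / (2 * PP η x)) * pr (H.card : ℝ) (yy η x) (D0 c A x) := by
          apply mul_le_mul _ hprge (by positivity) (by positivity)
          exact mul_le_mul_of_nonneg_left h4 he0.le
  -- the main term
  have hmain : (1 - e) * ((x : ℝ) / (2 * PP η x)) *
      (pr (H.card : ℝ) (yy η x) (D0 c A x) * (1 - e)) ≤ ((Y : ℝ) / PP η x) * Pi0 := by
    have h1 : (1 - e) * ((x : ℝ) / (2 * PP η x)) ≤ (Y : ℝ) / PP η x := by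
      rw [le_div_iff₀ hQ0']
      have h2 : (1 - e) * ((x : ℝ) / (2 * PP η x)) * PP η x = (1 - e) * ((x : ℝ) / 2) := by
        field_simp
      rw [h2]
      exact hYx
    apply mul_le_mul h1 hprod
    · exact mul_nonneg hpr0 (by linarith)
    · positivity
  have hMP : 0 ≤ ((x : ℝ) / (2 * PP η x)) * pr (H.card : ℝ) (yy η x) (D0 c A x) :=
    mul_nonneg (by positivity) hpr0
  obtain ⟨M, hM⟩ : ∃ M, M = ((x : ℝ) / (2 * PP η x)) * pr (H.card : ℝ) (yy η x) (D0 c A x) :=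
    ⟨_, rfl⟩
  have e1 : (1 - ε) * ((x : ℝ) / (2 * PP η x)) * pr (H.card : ℝ) (yy η x) (D0 c A x) =
      (1 - ε) * M := by
    rw [hM]
    ring
  have e2 : (1 - e) * ((x : ℝ) / (2 * PP η x)) *
      (pr (H.card : ℝ) (yy η x) (D0 c A x) * (1 - e)) = (1 - e) ^ 2 * M := by
    rw [hM]
    ring
  have e3 : e * ((x : ℝ) / (2 * PP η x)) * pr (H.card : ℝ) (yy η x) (D0 c A x) = e * M := by
    rw [hM]
    ring
  rw [e2] at hmain
  rw [e3] at herr
  rw [← hM] at hMP
  rw [e1]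
  refine le_trans ?_ hcount
  have h1 : (1 - e) * ((1 - e) ^ 2 * M) ≤ (1 - e) * ((Y : ℝ) / PP η x * Pi0) :=
    mul_le_mul_of_nonneg_left hmain (by linarith)
  have h2 : (1 - 3 * e) * M ≤ (1 - e) * ((1 - e) ^ 2 * M) := by
    have h3 : 1 - 3 * e ≤ (1 - e) ^ 3 := by nlinarith [sq_nonneg e, mul_nonneg he0.le (sq_nonneg e)]
    nlinarith [mul_le_mul_of_nonneg_right h3 hMP]
  have h3 : (1 - ε) * M ≤ (1 - 4 * e) * M := mul_le_mul_of_nonneg_right (by linarith) hMP
  linarith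

end Pool.Agent.H559.EH
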