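import Pool.Agent.H559.EH.Stm
import Pool.Agent.H559.EG.Det3

set_option autoImplicit false

/-! # The upper bound for a finite set of shifts (`S_det3`) -/

open Finset MeasureTheory ProbabilityTheory Filter Topology
open Pool.Agent.T2H32.BF (Model V V_pos V_anti V_ratio mertens pnt cnt Surv)
open Pool.Agent.H559.BS (TT)
open Pool.Agent.H559.IX (R0 Lim)
open Pool.Agent.H559.EG (yy PP w1 w2 St Wk pr)

namespace Pool.Agent.H559.EH

namespace Det3

open Pool.Agent.H559.EG.Det3 (card_shift disj dvd_primorial tlog ev_y ev_w PP_le hh_lt)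

/-- the classes -/
def Cls (S : Finset ℕ) (p h : ℕ) : Finset ℕ :=
  S.biUnion (fun a => (range p).filter (fun u => (u + a) % p = h))

theorem Cls_card_le (S : Finset ℕ) (p h : ℕ) (hp : 0 < p) (hh : h < p) :
    (Cls S p h).card ≤ S.card := by
  unfold Cls
  refine Finset.card_biUnion_le.trans ?_
  rw [Finset.sum_congr rfl fun a _ => card_shift p h a hp hh]
  simp

theorem Cls_card (S : Finset ℕ) (p h : ℕ) (hp : 0 < p) (hh : h < p)
    (hd : ∀ a ∈ S, ∀ a' ∈ S, a < a' → ¬ p ∣ a' - a) : (Cls S p h).card = S.card := by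
  unfold Cls
  rw [Finset.card_biUnion]
  · rw [Finset.sum_congr rfl fun a _ => card_shift p h a hp hh]
    simp
  · intro a ha a' ha' hne
    rcases lt_or_gt_of_ne hne with h1 | h1
    · exact disj p h a a' h1.le (hd a ha a' ha' h1)
    · exact (disj p h a' a h1.le (hd a' ha' a ha h1)).symm

/-- the product of the differences -/
def NN (S : Finset ℕ) : ℕ := ∏ q ∈ (S ×ˢ S).filter (fun q => q.1 < q.2), (q.2 - q.1)

theorem NN_ne (S : Finset ℕ) : NN S ≠ 0 := by
  unfold NN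
  rw [Finset.prod_ne_zero_iff]
  intro q hq
  rw [Finset.mem_filter] at hq
  omega

theorem NN_le (S : Finset ℕ) (g G ν : ℕ) (hG : 1 ≤ G) (hgG : g ≤ G) (hS : ∀ h ∈ S, h ≤ g)
    (hc : S.card ≤ ν) : NN S ≤ G ^ (ν ^ 2) := by
  unfold NN
  have h1 : ∏ q ∈ (S ×ˢ S).filter (fun q => q.1 < q.2), (q.2 - q.1) ≤
      ∏ _q ∈ (S ×ˢ S).filter (fun q => q.1 < q.2), G := by
    apply Finset.prod_le_prod'
    intro q hq
    rw [Finset.mem_filter, Finset.mem_product] at hq
    have := hS q.2 hq.1.2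
    omega
  refine h1.trans ?_
  rw [Finset.prod_const]
  apply Nat.pow_le_pow_right hG
  refine (Finset.card_filter_le _ _).trans ?_
  rw [Finset.card_product, sq]
  exact Nat.mul_le_mul hc hc

theorem NN_dvd (S : Finset ℕ) {p a a' : ℕ} (ha : a ∈ S) (ha' : a' ∈ S) (h : a < a')
    (hd : p ∣ a' - a) : p ∣ NN S := by
  unfold NN
  refine dvd_trans hd ?_
  exact Finset.dvd_prod_of_mem (fun q : ℕ × ℕ => q.2 - q.1)
    (a := (a, a')) (by rw [Finset.mem_filter, Finset.mem_product]; exact ⟨⟨ha, ha'⟩, h⟩)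

open Classical in
/-- the classes for the sieve -/
noncomputable def Om (S : Finset ℕ) (y w₁ w₂ : ℕ) (b : ℕ → ℕ) (p : ℕ) : Finset ℕ :=
  if p ≤ y ∨ (w₁ < p ∧ p ≤ w₂) then ∅ else Cls S p (if p ≤ w₁ then 0 else b p)

theorem Om_sub (S : Finset ℕ) (y w₁ w₂ : ℕ) (b : ℕ → ℕ) (p : ℕ) : Om S y w₁ w₂ b p ⊆ range p := by
  unfold Om
  by_cases h : p ≤ y ∨ (w₁ < p ∧ p ≤ w₂)
  · rw [if_pos h]
    exact Finset.empty_subset _
  · rw [if_neg h]
    unfold Cls
    rw [Finset.biUnion_subset]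
    intro a _
    exact Finset.filter_subset _ _

theorem Om_card_le {S : Finset ℕ} {y w₁ w₂ : ℕ} {b : ℕ → ℕ} (hb : ∀ p, p.Prime → b p < p) {p : ℕ}
    (hp : p.Prime) : (Om S y w₁ w₂ b p).card ≤ S.card := by
  unfold Om
  by_cases h : p ≤ y ∨ (w₁ < p ∧ p ≤ w₂)
  · rw [if_pos h]
    simp
  · rw [if_neg h]
    exact Cls_card_le _ _ _ hp.pos (hh_lt hb hp)

theorem Om_card {S : Finset ℕ} {y w₁ w₂ : ℕ} {b : ℕ → ℕ} (hb : ∀ p, p.Prime → b p < p) {p : ℕ}
    (hp : p.Prime) (h : ¬ (p ≤ y ∨ (w₁ < p ∧ p ≤ w₂))) (h1 : ¬ p ∣ NN S) :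
    (Om S y w₁ w₂ b p).card = S.card := by
  unfold Om
  rw [if_neg h]
  exact Cls_card _ _ _ hp.pos (hh_lt hb hp) fun a ha a' ha' haa hd => h1 (NN_dvd S ha ha' haa hd)

theorem Om_not {S : Finset ℕ} {y w₁ w₂ D : ℕ} {b : ℕ → ℕ} {v : ℕ}
    (h0 : ∀ a ∈ S, Wk w₁ w₂ D b (v + a)) {p : ℕ} (hpD : p ≤ D) (hp : p.Prime) :
    v % p ∉ Om S y w₁ w₂ b p := by
  unfold Om
  by_cases h : p ≤ y ∨ (w₁ < p ∧ p ≤ w₂)
  · rw [if_pos h]
    exact Finset.notMem_empty _
  · rw [if_neg h]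
    intro hv
    unfold Cls at hv
    rw [Finset.mem_biUnion] at hv
    obtain ⟨a, ha, hv⟩ := hv
    rw [Finset.mem_filter] at hv
    obtain ⟨-, hv⟩ := hv
    rw [Nat.mod_add_mod] at hv
    have a0 := h0 a ha p hpD hp
    by_cases hw : p ≤ w₁
    · rw [if_pos hw] at hv
      exact a0.1 hw hv
    · rw [if_neg hw] at hv
      have hw2 : w₂ < p := by
        by_contra hc
        exact h (Or.inr ⟨not_le.1 hw, not_lt.1 hc⟩)
      exact a0.2 hw2 hv

/-! ### the product -/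

/-- the large primes dividing `N` -/
theorem bad_card {y D N M : ℕ} (hN : N ≠ 0) (hNy : N < y ^ M) (hy : 1 ≤ y) :
    (((Ioc y D).filter Nat.Prime).filter (fun p => p ∣ N)).card ≤ M := by
  set s := ((Ioc y D).filter Nat.Prime).filter (fun p => p ∣ N) with hs
  by_contra hc
  push Not at hc
  have h1 : ∏ p ∈ s, p ∣ N := by
    apply Finset.prod_primes_dvd
    · intro p hp
      rw [hs, Finset.mem_filter, Finset.mem_filter] at hp
      exact hp.1.2.prime
    · intro p hp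
      rw [hs, Finset.mem_filter] at hp
      exact hp.2
  have h2 : ∏ p ∈ s, p ≤ N := Nat.le_of_dvd (Nat.pos_of_ne_zero hN) h1
  have h3 : y ^ s.card ≤ ∏ p ∈ s, p := by
    rw [← Finset.prod_const]
    apply Finset.prod_le_prod'
    intro p hp
    rw [hs, Finset.mem_filter, Finset.mem_filter, Finset.mem_Ioc] at hp
    exact hp.1.1.1.le
  have h4 : y ^ M ≤ y ^ s.card := Nat.pow_le_pow_right hy (by omega)
  omega

theorem fac_le {k p : ℝ} (hk : 0 ≤ k) (h0 : 0 < p) (hp : 2 * k ≤ p) {e : ℝ}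
    (he : 2 * k / p ≤ e) : 1 ≤ (1 - k / p) * Real.exp e := by
  have h1 : 1 + 2 * k / p ≤ Real.exp e := by
    have := Real.add_one_le_exp e
    linarith
  have h2 : 0 ≤ 1 - k / p := by
    rw [sub_nonneg, div_le_one h0]
    linarith
  have h3 : 1 ≤ (1 - k / p) * (1 + 2 * k / p) := by
    have e1 : (1 - k / p) * (1 + 2 * k / p) = 1 + (k * (p - 2 * k)) / p ^ 2 := by
      field_simp
      ring
    rw [e1]
    have : 0 ≤ (k * (p - 2 * k)) / p ^ 2 :=
      div_nonneg (mul_nonneg hk (by linarith)) (by positivity)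
    linarith
  exact h3.trans (mul_le_mul_of_nonneg_left h1 h2)

open Classical in
theorem prod_bound {k y w₁ w₂ D N M : ℕ} (hy1 : 1 ≤ y) (hy : 2 * k ≤ y) (hw1 : 0 < w₁)
    (hw : w₁ ≤ w₂) (hN : N ≠ 0)
    (hNy : N < y ^ M) (n : ℕ → ℕ) (hn0 : ∀ p, p.Prime → n p ≤ p)
    (hn : ∀ p, p.Prime → ¬ (p ≤ y ∨ (w₁ < p ∧ p ≤ w₂)) → ¬ p ∣ N → n p = k) :
    ∏ p ∈ (range (D + 1)).filter Nat.Prime, (1 - (n p : ℝ) / p) ≤
      pr k y D * Real.exp (2 * k * M / y + 2 * k * ((w₂ : ℝ) - w₁) / w₁) := by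
  have hyR : (2 * k : ℝ) ≤ y := by exact_mod_cast hy
  have hy1R : (1 : ℝ) ≤ y := by exact_mod_cast hy1
  have hk0 : (0 : ℝ) ≤ k := Nat.cast_nonneg k
  have hnn : ∀ p, p.Prime → 0 ≤ 1 - (n p : ℝ) / p := by
    intro p hp
    have h0 : (0 : ℝ) < p := by exact_mod_cast hp.pos
    rw [sub_nonneg, div_le_one h0]
    exact_mod_cast hn0 p hp
  have hle1 : ∀ p : ℕ, 1 - (n p : ℝ) / p ≤ 1 := by
    intro p
    have : 0 ≤ (n p : ℝ) / p := by positivity
    linarith
  have hsub : (Ioc y D).filter Nat.Prime ⊆ (range (D + 1)).filter Nat.Prime := by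
    intro p hp
    rw [Finset.mem_filter, Finset.mem_Ioc] at hp
    rw [Finset.mem_filter, Finset.mem_range]
    exact ⟨by omega, hp.2⟩
  have h1 : ∏ p ∈ (range (D + 1)).filter Nat.Prime, (1 - (n p : ℝ) / p) ≤
      ∏ p ∈ (Ioc y D).filter Nat.Prime, (1 - (n p : ℝ) / p) := by
    rw [← Finset.prod_sdiff hsub]
    have a1 : ∏ p ∈ (range (D + 1)).filter Nat.Prime \ (Ioc y D).filter Nat.Prime,
        (1 - (n p : ℝ) / p) ≤ 1 := by
      apply Finset.prod_le_one
      · intro p hp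
        rw [Finset.mem_sdiff, Finset.mem_filter] at hp
        exact hnn p hp.1.2
      · intro p _
        exact hle1 p
    have a2 : 0 ≤ ∏ p ∈ (Ioc y D).filter Nat.Prime, (1 - (n p : ℝ) / p) := by
      apply Finset.prod_nonneg
      intro p hp
      rw [Finset.mem_filter] at hp
      exact hnn p hp.2
    calc _ ≤ 1 * ∏ p ∈ (Ioc y D).filter Nat.Prime, (1 - (n p : ℝ) / p) :=
          mul_le_mul_of_nonneg_right a1 a2
      _ = _ := one_mul _
  refine h1.trans ?_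
  set e : ℕ → ℝ := fun p => (if w₁ < p ∧ p ≤ w₂ then 2 * k / (p : ℝ) else 0) +
    (if p ∣ N then 2 * k / (p : ℝ) else 0) with he
  have hefac : ∀ p ∈ (Ioc y D).filter Nat.Prime, 1 - (n p : ℝ) / p ≤
      (1 - k / (p : ℝ)) * Real.exp (e p) := by
    intro p hp
    rw [Finset.mem_filter, Finset.mem_Ioc] at hp
    obtain ⟨⟨h2, h3⟩, h4⟩ := hp
    have hyp : (y : ℝ) ≤ p := by exact_mod_cast h2.le
    have hp6 : (2 * k : ℝ) ≤ p := by linarith
    have hp0 : (0 : ℝ) < p := by linarith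
    have hpos : 0 ≤ 2 * k / (p : ℝ) := by positivity
    by_cases hmid : w₁ < p ∧ p ≤ w₂
    · refine (hle1 p).trans (fac_le hk0 hp0 hp6 ?_)
      rw [he]
      simp only [if_pos hmid]
      split_ifs <;> linarith
    · by_cases hbad : p ∣ N
      · refine (hle1 p).trans (fac_le hk0 hp0 hp6 ?_)
        rw [he]
        simp only [if_neg hmid, if_pos hbad]
        linarith
      · have h5 : n p = k := hn p h4 (fun h => h.elim (fun h => absurd h (not_le.2 h2)) hmid) hbad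
        have h6 : e p = 0 := by
          rw [he]
          simp only [if_neg hmid, if_neg hbad, add_zero]
        rw [h5, h6, Real.exp_zero, mul_one]
  have h2 : ∏ p ∈ (Ioc y D).filter Nat.Prime, (1 - (n p : ℝ) / p) ≤
      ∏ p ∈ (Ioc y D).filter Nat.Prime, ((1 - k / (p : ℝ)) * Real.exp (e p)) := by
    apply Finset.prod_le_prod
    · intro p hp
      rw [Finset.mem_filter] at hp
      exact hnn p hp.2
    · exact hefac
  refine h2.trans ?_
  rw [Finset.prod_mul_distrib, ← Real.exp_sum]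
  have hpr : pr k y D = ∏ p ∈ (Ioc y D).filter Nat.Prime, (1 - k / (p : ℝ)) := rfl
  have hpr0 : 0 ≤ pr k y D := by
    rw [hpr]
    apply Finset.prod_nonneg
    intro p hp
    rw [Finset.mem_filter, Finset.mem_Ioc] at hp
    have hyp : (y : ℝ) ≤ p := by exact_mod_cast hp.1.1.le
    rw [sub_nonneg, div_le_one (by linarith)]
    linarith
  rw [← hpr]
  refine mul_le_mul_of_nonneg_left (Real.exp_le_exp.2 ?_) hpr0
  have hw1R : (0 : ℝ) < w₁ := by exact_mod_cast hw1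
  have s1 : ∑ p ∈ (Ioc y D).filter Nat.Prime, (if w₁ < p ∧ p ≤ w₂ then 2 * k / (p : ℝ) else 0) ≤
      2 * k * ((w₂ : ℝ) - w₁) / w₁ := by
    rw [← Finset.sum_filter]
    have b1 : ∀ p ∈ ((Ioc y D).filter Nat.Prime).filter (fun p => w₁ < p ∧ p ≤ w₂),
        2 * k / (p : ℝ) ≤ 2 * k / w₁ := by
      intro p hp
      rw [Finset.mem_filter] at hp
      apply div_le_div_of_nonneg_left (by positivity) hw1R
      exact_mod_cast hp.2.1.le
    have b2 : ((Ioc y D).filter Nat.Prime).filter (fun p => w₁ < p ∧ p ≤ w₂) ⊆ Ioc w₁ w₂ := by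
      intro p hp
      rw [Finset.mem_filter] at hp
      rw [Finset.mem_Ioc]
      exact hp.2
    have b3 := Finset.card_le_card b2
    rw [Nat.card_Ioc] at b3
    have b4 : ((((Ioc y D).filter Nat.Prime).filter (fun p => w₁ < p ∧ p ≤ w₂)).card : ℝ) ≤
        (w₂ : ℝ) - w₁ := by
      rw [← Nat.cast_sub hw]
      exact_mod_cast b3
    refine (Finset.sum_le_card_nsmul _ _ _ b1).trans ?_
    rw [nsmul_eq_mul]
    calc _ ≤ ((w₂ : ℝ) - w₁) * (2 * k / w₁) := mul_le_mul_of_nonneg_right b4 (by positivity)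
      _ = _ := by ring
  have s2 : ∑ p ∈ (Ioc y D).filter Nat.Prime, (if p ∣ N then 2 * k / (p : ℝ) else 0) ≤
      2 * k * M / y := by
    rw [← Finset.sum_filter]
    have b1 : ∀ p ∈ ((Ioc y D).filter Nat.Prime).filter (fun p => p ∣ N),
        2 * k / (p : ℝ) ≤ 2 * k / y := by
      intro p hp
      rw [Finset.mem_filter, Finset.mem_filter, Finset.mem_Ioc] at hp
      apply div_le_div_of_nonneg_left (by positivity) (by linarith)
      exact_mod_cast hp.1.1.1.le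
    refine (Finset.sum_le_card_nsmul _ _ _ b1).trans ?_
    rw [nsmul_eq_mul]
    have b4 : ((((Ioc y D).filter Nat.Prime).filter (fun p => p ∣ N)).card : ℝ) ≤ M := by
      exact_mod_cast bad_card (D := D) hN hNy hy1
    calc _ ≤ (M : ℝ) * (2 * k / y) := mul_le_mul_of_nonneg_right b4 (by positivity)
      _ = _ := by ring
  rw [he, Finset.sum_add_distrib]
  linarith

theorem pow_bound {k ν : ℕ} (hk : k ≤ ν) {t : ℝ} (ht0 : 0 ≤ t) (ht1 : t ≤ 1)
    (ht : 2 * (k : ℝ) * t ≤ 1) : (1 - t) ^ (2 * ν) ≤ 1 - k * t := by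
  have h1 : (1 - t) ^ (2 * ν) ≤ (1 - t) ^ (2 * k) :=
    pow_le_pow_of_le_one (by linarith) (by linarith) (by omega)
  refine h1.trans ?_
  have h2 : 1 + ((2 * k : ℕ) : ℝ) * t ≤ (1 + t) ^ (2 * k) :=
    one_add_mul_le_pow (by linarith) _
  push_cast at h2
  have h3 : (1 - t) ^ (2 * k) * (1 + t) ^ (2 * k) ≤ 1 := by
    rw [← mul_pow]
    apply pow_le_one₀
    · nlinarith
    · nlinarith
  have h4 : 0 ≤ (1 - t) ^ (2 * k) := pow_nonneg (by linarith) _
  have h5 : (1 - t) ^ (2 * k) * (1 + 2 * (k : ℝ) * t) ≤ 1 :=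
    (mul_le_mul_of_nonneg_left h2 h4).trans h3
  have hkt : 0 ≤ (k : ℝ) * t := by positivity
  have h6 : 1 ≤ (1 - k * t) * (1 + 2 * (k : ℝ) * t) := by
    nlinarith
  have h7 : 0 < 1 + 2 * (k : ℝ) * t := by nlinarith
  exact le_of_mul_le_mul_right (h5.trans h6) h7

/-- lower bound for `pr k y D` -/
theorem pr_lower {k ν y : ℕ} (hk : k ≤ ν) (hy1 : 1 ≤ y) (hy : 2 * k ≤ y) :
    ∀ D : ℕ, 1 ≤ D → 1 / (D : ℝ) ^ (2 * ν) ≤ pr k y D := by
  intro D hD
  induction D, hD using Nat.le_induction with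
  | base =>
    unfold pr
    rw [Finset.Ioc_eq_empty (by omega)]
    simp
  | succ D hD ih =>
    have hD0 : (0 : ℝ) < D := by exact_mod_cast hD
    by_cases hyD : D + 1 ≤ y
    · unfold pr
      rw [Finset.Ioc_eq_empty (by omega)]
      simp only [Finset.filter_empty, Finset.prod_empty]
      rw [div_le_one (by positivity)]
      push_cast
      exact one_le_pow₀ (by linarith)
    · have hins : Ioc y (D + 1) = insert (D + 1) (Ioc y D) := by
        ext z
        rw [Finset.mem_insert, Finset.mem_Ioc, Finset.mem_Ioc]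
        omega
      have hstep : pr k y D * (1 - 1 / ((D : ℝ) + 1)) ^ (2 * ν) ≤ pr k y (D + 1) := by
        have hp0 : 0 ≤ pr k y D := le_trans (by positivity) ih
        have ht0 : 0 ≤ 1 - 1 / ((D : ℝ) + 1) := by
          rw [sub_nonneg, div_le_one (by linarith)]
          linarith
        have ht1 : 1 - 1 / ((D : ℝ) + 1) ≤ 1 := by
          have : 0 ≤ 1 / ((D : ℝ) + 1) := by positivity
          linarith
        unfold pr
        rw [hins, Finset.filter_insert]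
        by_cases hpr : (D + 1).Prime
        · rw [if_pos hpr, Finset.prod_insert (by
            rw [Finset.mem_filter, Finset.mem_Ioc]; omega), mul_comm]
          refine mul_le_mul_of_nonneg_right ?_ hp0
          set t : ℝ := 1 / ((D : ℝ) + 1) with ht
          have hkD : 2 * (k : ℝ) ≤ D + 1 := by
            have : 2 * k ≤ D + 1 := by omega
            exact_mod_cast this
          have h6 : 2 * (k : ℝ) * t ≤ 1 := by
            rw [ht, mul_one_div, div_le_one (by linarith)]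
            exact hkD
          have ht0' : 0 ≤ t := by positivity
          have e1 : 1 - (k : ℝ) / ((D + 1 : ℕ) : ℝ) = 1 - k * t := by
            rw [ht]; push_cast; ring
          rw [e1]
          exact pow_bound hk ht0' (by linarith) h6
        · rw [if_neg hpr]
          exact mul_le_of_le_one_right hp0 (pow_le_one₀ ht0 ht1)
      refine le_trans ?_ hstep
      have e2 : 1 - 1 / ((D : ℝ) + 1) = D / (D + 1) := by field_simp; ring
      rw [e2]
      push_cast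
      calc 1 / ((D : ℝ) + 1) ^ (2 * ν) = 1 / (D : ℝ) ^ (2 * ν) * (D / (D + 1)) ^ (2 * ν) := by
            rw [div_pow]
            field_simp
        _ ≤ pr k y D * (D / (D + 1)) ^ (2 * ν) := mul_le_mul_of_nonneg_right ih (by positivity)

/-! ### asymptotics -/

theorem ev_err (A L : ℕ) (c η K e : ℝ) (hc : 1 < c) (hη4 : η ≤ 1 / 4) (hK : 0 < K) (he : 0 < e)
    (B : ℕ) :
    ∀ᶠ x : ℕ in atTop, 1 ≤ D0 c A x ∧
      K * ((D0 c A x : ℝ) + 1) ^ B ≤ e * ((x : ℝ) / (2 * PP η x)) * (1 / (D0 c A x : ℝ) ^ L) := by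
  have hA0 : (0 : ℝ) ≤ A := Nat.cast_nonneg A
  set r : ℝ := (c + A) * ((B + L : ℕ) : ℝ) with hr
  set C : ℝ := e / (2 * K * 2 ^ (B + L)) with hC
  have hC0 : 0 < C := by positivity
  have h1 := ((isLittleO_log_rpow_rpow_atTop r (by norm_num : (0 : ℝ) < 1 / 2)).def hC0)
  have h2 := tendsto_natCast_atTop_atTop.eventually h1
  filter_upwards [h2, tlog.eventually_ge_atTop 1, eventually_ge_atTop 1] with x h3 h4 h5
  have hx1 : (1 : ℝ) ≤ x := by exact_mod_cast h5
  have hl0 : (0 : ℝ) < Real.log x := by linarith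
  set ℓ := Real.log (x : ℝ) with hℓ
  have h6 : (1 : ℝ) ≤ ℓ ^ (c + A) := Real.one_le_rpow h4 (by linarith)
  have hD1 : 1 ≤ D0 c A x := by
    unfold D0
    rw [Nat.one_le_floor_iff]
    exact h6
  refine ⟨hD1, ?_⟩
  have hDle : (D0 c A x : ℝ) ≤ ℓ ^ (c + A) := Nat.floor_le (by linarith)
  have hDR : (1 : ℝ) ≤ D0 c A x := by exact_mod_cast hD1
  have hQ := PP_le η hη4 h5
  have hQ0 : (0 : ℝ) < PP η x := by exact_mod_cast primorial_pos _
  rw [Real.norm_eq_abs, Real.norm_eq_abs, abs_of_nonneg (Real.rpow_nonneg hl0.le _),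
    abs_of_nonneg (Real.rpow_nonneg (by linarith) _)] at h3
  have h7 : ((D0 c A x : ℝ) + 1) ^ (B + L) ≤ 2 ^ (B + L) * ℓ ^ r := by
    have h8 : (D0 c A x : ℝ) + 1 ≤ 2 * ℓ ^ (c + A) := by linarith
    calc ((D0 c A x : ℝ) + 1) ^ (B + L) ≤ (2 * ℓ ^ (c + A)) ^ (B + L) :=
          pow_le_pow_left₀ (by linarith) h8 _
      _ = 2 ^ (B + L) * ℓ ^ r := by
          rw [mul_pow, hr, Real.rpow_mul hl0.le, Real.rpow_natCast]
  have h9 : (x : ℝ) ^ (1 / 2 : ℝ) * (x : ℝ) ^ (1 / 2 : ℝ) = x := by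
    rw [← Real.rpow_add (by linarith)]
    norm_num
  set s := (x : ℝ) ^ (1 / 2 : ℝ) with hs
  have hs0 : 0 < s := Real.rpow_pos_of_pos (by linarith) _
  have h10 : 2 * K * (2 ^ (B + L) * ℓ ^ r) ≤ e * s := by
    have : 2 * K * (2 ^ (B + L) * (C * s)) = e * s := by
      rw [hC]; field_simp
    rw [← this]
    have hp : (0 : ℝ) < 2 ^ (B + L) := by positivity
    exact mul_le_mul_of_nonneg_left (mul_le_mul_of_nonneg_left h3 hp.le) (by linarith)
  have hD4 : (0 : ℝ) < (D0 c A x : ℝ) ^ L := by positivity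
  have h11 : K * ((D0 c A x : ℝ) + 1) ^ B * (D0 c A x : ℝ) ^ L * (2 * PP η x) ≤ e * x := by
    have a1 : (D0 c A x : ℝ) ^ L ≤ ((D0 c A x : ℝ) + 1) ^ L :=
      pow_le_pow_left₀ (by linarith) (by linarith) _
    have a2 : 0 ≤ ((D0 c A x : ℝ) + 1) ^ B := by positivity
    calc K * ((D0 c A x : ℝ) + 1) ^ B * (D0 c A x : ℝ) ^ L * (2 * PP η x)
        = 2 * K * (((D0 c A x : ℝ) + 1) ^ B * (D0 c A x : ℝ) ^ L) * PP η x := by ring
      _ ≤ 2 * K * (((D0 c A x : ℝ) + 1) ^ B * ((D0 c A x : ℝ) + 1) ^ L) * s := by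
          apply mul_le_mul _ hQ hQ0.le (by positivity)
          exact mul_le_mul_of_nonneg_left (mul_le_mul_of_nonneg_left a1 a2) (by linarith)
      _ = 2 * K * ((D0 c A x : ℝ) + 1) ^ (B + L) * s := by rw [pow_add]
      _ ≤ 2 * K * (2 ^ (B + L) * ℓ ^ r) * s :=
          mul_le_mul_of_nonneg_right (mul_le_mul_of_nonneg_left h7 (by linarith)) hs0.le
      _ ≤ e * s * s := mul_le_mul_of_nonneg_right h10 hs0.le
      _ = e * x := by rw [mul_assoc, h9]
  have h12 : e * ((x : ℝ) / (2 * PP η x)) * (1 / (D0 c A x : ℝ) ^ L) =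
      e * x / ((D0 c A x : ℝ) ^ L * (2 * PP η x)) := by
    field_simp
  rw [h12, le_div_iff₀ (by positivity)]
  calc _ = K * ((D0 c A x : ℝ) + 1) ^ B * (D0 c A x : ℝ) ^ L * (2 * PP η x) := by ring
    _ ≤ _ := h11

end Det3

open Det3 in
open Pool.Agent.H559.EG.Det3 (dvd_primorial tlog ev_y ev_w) in
theorem t_det3 (h : Pool.Agent.H559.EG.S_ap) : S_det3 := by
  intro ν A c η ε lam hc hη hη4 hε hlam
  set e : ℝ := min ε 1 / 4 with he
  have hm0 : 0 < min ε 1 := lt_min hε one_pos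
  have he0 : 0 < e := by rw [he]; positivity
  have he1 : 4 * e ≤ ε := by rw [he]; linarith [min_le_left ε 1]
  have he2 : e ≤ 1 / 4 := by rw [he]; linarith [min_le_right ε 1]
  obtain ⟨B, C, hC, hap⟩ := h ν e he0
  set δ : ℝ := Real.log (1 + e) / 2 with hδ
  have hδ0 : 0 < δ := by
    rw [hδ]
    have := Real.log_pos (by linarith : (1 : ℝ) < 1 + e)
    linarith
  have hexp : Real.exp (δ + δ) = 1 + e := by
    have : δ + δ = Real.log (1 + e) := by rw [hδ]; ring
    rw [this, Real.exp_log (by linarith)]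
  obtain ⟨M, hM⟩ : ∃ M : ℕ, M = 2 * ν ^ 2 + 1 := ⟨_, rfl⟩
  obtain ⟨lm, hlm⟩ : ∃ lm : ℝ, lm = max lam 1 := ⟨_, rfl⟩
  have hlm1 : 1 ≤ lm := by rw [hlm]; exact le_max_right _ _
  have hlml : lam ≤ lm := by rw [hlm]; exact le_max_left _ _
  have hν0 : (0 : ℝ) ≤ ν := Nat.cast_nonneg ν
  have hδν : 0 < δ / ((ν : ℝ) + 1) := by positivity
  filter_upwards [ev_y η hη (max (2 * ν + 1) (2 * ν * M / δ)), ev_w c hc (δ / ((ν : ℝ) + 1)) hδν,
    ev_err A (2 * ν) c η C e hc hη4 hC he0 B,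
    tlog.eventually_gt_atTop (lm ^ (ν ^ 2) * (2 / η) ^ M), tlog.eventually_ge_atTop 1]
    with x h1 h2 h3 h4 h5
  intro g hg S hSg hSν r hr b hb
  obtain ⟨hy1, hy2⟩ := h1
  obtain ⟨hw1, hw2, hw3⟩ := h2
  obtain ⟨hD1, herr⟩ := h3
  have hy6R : (2 * ν + 1 : ℝ) ≤ yy η x := (le_max_left _ _).trans hy1
  have hy6 : 2 * ν + 1 ≤ yy η x := by exact_mod_cast hy6R
  have hyk : 2 * S.card ≤ yy η x := by omega
  have hy1' : 1 ≤ yy η x := by omega
  have hkν : (S.card : ℝ) ≤ ν := by exact_mod_cast hSν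
  have hk0 : (0 : ℝ) ≤ S.card := Nat.cast_nonneg _
  have hy42 : 2 * S.card * M / (yy η x : ℝ) ≤ δ := by
    have a1 : 2 * ν * M / δ ≤ (yy η x : ℝ) := (le_max_right _ _).trans hy1
    rw [div_le_iff₀ (by linarith)]
    rw [div_le_iff₀ hδ0] at a1
    have a2 : 2 * (S.card : ℝ) * M ≤ 2 * ν * M := by
      have hM0 : (0 : ℝ) ≤ M := Nat.cast_nonneg _
      nlinarith
    linarith
  have hQ0 : 0 < PP η x := primorial_pos _
  have hQ0R : (0 : ℝ) < PP η x := by exact_mod_cast hQ0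
  have hw1R : (0 : ℝ) < w1 c x := by exact_mod_cast hw1
  have hww : 2 * (S.card : ℝ) * ((w2 c x : ℝ) - w1 c x) / w1 c x ≤ δ := by
    have a0 : (w1 c x : ℝ) ≤ w2 c x := by exact_mod_cast hw2
    obtain ⟨W, hW⟩ : ∃ W : ℝ, W = ((w2 c x : ℝ) - w1 c x) / w1 c x := ⟨_, rfl⟩
    have hW0 : 0 ≤ W := by
      rw [hW]
      exact div_nonneg (by linarith) hw1R.le
    have a1 : 6 * W ≤ δ / ((ν : ℝ) + 1) := by
      rw [hW]
      refine le_trans (le_of_eq ?_) hw3
      ring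
    rw [le_div_iff₀ (by positivity)] at a1
    have a2 : 2 * (S.card : ℝ) * ((w2 c x : ℝ) - w1 c x) / w1 c x = 2 * S.card * W := by
      rw [hW]
      ring
    rw [a2]
    nlinarith
  -- the number `N`
  have hN0 : NN S ≠ 0 := NN_ne S
  have hNy : NN S < yy η x ^ M := by
    have a1 : NN S ≤ (max g 1) ^ (ν ^ 2) :=
      NN_le S g (max g 1) ν (le_max_right _ _) (le_max_left _ _) hSg hSν
    have hl2 : (1 : ℝ) ≤ Real.log x ^ 2 := one_le_pow₀ h5
    have a2 : ((max g 1 : ℕ) : ℝ) ≤ lm * Real.log x ^ 2 := by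
      rw [Nat.cast_max]
      apply max_le
      · refine hg.trans (mul_le_mul_of_nonneg_right hlml (by positivity))
      · push_cast
        nlinarith
    have b1 : (((max g 1 : ℕ) : ℝ)) ^ (ν ^ 2) ≤ (lm * Real.log x ^ 2) ^ (ν ^ 2) :=
      pow_le_pow_left₀ (Nat.cast_nonneg _) a2 _
    have b2 : (η / 2 * Real.log x) ^ M ≤ (yy η x : ℝ) ^ M :=
      pow_le_pow_left₀ (by positivity) hy2 _
    have b3 : (lm * Real.log x ^ 2) ^ (ν ^ 2) < (η / 2 * Real.log x) ^ M := by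
      have b4 : (lm * Real.log x ^ 2) ^ (ν ^ 2) = lm ^ (ν ^ 2) * Real.log x ^ (2 * ν ^ 2) := by
        rw [mul_pow, ← pow_mul]
      have b5 : (η / 2 * Real.log x) ^ M = (η / 2) ^ M * Real.log x * Real.log x ^ (2 * ν ^ 2) := by
        have b5' : Real.log x ^ M = Real.log x * Real.log x ^ (2 * ν ^ 2) := by
          rw [hM, pow_succ]
          ring
        rw [mul_pow, b5']
        ring
      rw [b4, b5]
      apply mul_lt_mul_of_pos_right _ (by positivity)
      have b6 : (η / 2) ^ M * (lm ^ (ν ^ 2) * (2 / η) ^ M) < (η / 2) ^ M * Real.log x :=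
        mul_lt_mul_of_pos_left h4 (by positivity)
      have b7 : (η / 2) ^ M * (lm ^ (ν ^ 2) * (2 / η) ^ M) = lm ^ (ν ^ 2) := by
        have b8 : (η / 2) ^ M * (2 / η) ^ M = 1 := by
          rw [← mul_pow]
          have : η / 2 * (2 / η) = 1 := by field_simp
          rw [this, one_pow]
        calc (η / 2) ^ M * (lm ^ (ν ^ 2) * (2 / η) ^ M)
            = lm ^ (ν ^ 2) * ((η / 2) ^ M * (2 / η) ^ M) := by ring
          _ = lm ^ (ν ^ 2) := by rw [b8, mul_one]
      rw [b7] at b6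
      exact b6
    have a3 : (max g 1) ^ (ν ^ 2) < yy η x ^ M := by
      have : (((max g 1 : ℕ) : ℝ)) ^ (ν ^ 2) < (yy η x : ℝ) ^ M := by linarith
      exact_mod_cast this
    omega
  -- the sieve
  have hsv := hap (D0 c A x) (PP η x) r (Om S (yy η x) (w1 c x) (w2 c x) b) hQ0 hr (by
    intro p _ hp
    refine ⟨Om_sub _ _ _ _ _ _, (Om_card_le hb hp).trans hSν, fun hpQ => ?_⟩
    have := dvd_primorial hp hpQ
    unfold Om
    rw [if_pos (Or.inl this)]) (x / 2) (x - g - 1 - x / 2)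
  set N₀ : ℝ := (((Ioc (x / 2) (x / 2 + (x - g - 1 - x / 2))).filter (fun n => n % PP η x = r ∧
    ∀ p ≤ D0 c A x, p.Prime → n % p ∉ Om S (yy η x) (w1 c x) (w2 c x) b p)).card : ℝ) with hN₀
  set Pi : ℝ := ∏ p ∈ (range (D0 c A x + 1)).filter Nat.Prime,
    (1 - ((Om S (yy η x) (w1 c x) (w2 c x) b p).card : ℝ) / p) with hPi
  refine le_trans (b := N₀) ?_ ?_
  · rw [hN₀]
    refine Nat.cast_le.2 (Finset.card_le_card ?_)
    intro v hv
    have hv := (@Finset.mem_filter _ _ (_) _ _).1 hv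
    rw [Finset.mem_Ioc] at hv
    rw [Finset.mem_filter, Finset.mem_Ioc]
    refine ⟨⟨hv.1.1, by omega⟩, hv.2.1, fun p hpD hp => ?_⟩
    exact Om_not hv.2.2 hpD hp
  -- the product
  have hpl : 1 / (D0 c A x : ℝ) ^ (2 * ν) ≤ pr S.card (yy η x) (D0 c A x) :=
    pr_lower hSν hy1' hyk (D0 c A x) hD1
  have hpr0 : 0 ≤ pr S.card (yy η x) (D0 c A x) := le_trans (by positivity) hpl
  have hPi1 : Pi ≤ pr S.card (yy η x) (D0 c A x) * (1 + e) := by
    have a1 := prod_bound (D := D0 c A x) hy1' hyk hw1 hw2 hN0 hNy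
      (fun p => (Om S (yy η x) (w1 c x) (w2 c x) b p).card)
      (fun p _ => by
        have := Finset.card_le_card (Om_sub S (yy η x) (w1 c x) (w2 c x) b p)
        rwa [Finset.card_range] at this)
      (fun p hp h6 h7 => Om_card hb hp h6 h7)
    refine a1.trans ?_
    refine mul_le_mul_of_nonneg_left ?_ hpr0
    rw [← hexp]
    exact Real.exp_le_exp.2 (add_le_add hy42 hww)
  have hPi0 : 0 ≤ Pi := by
    rw [hPi]
    apply Finset.prod_nonneg
    intro p hp
    rw [Finset.mem_filter] at hp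
    have hp0 : (0 : ℝ) < p := by exact_mod_cast hp.2.pos
    have := Finset.card_le_card (Om_sub S (yy η x) (w1 c x) (w2 c x) b p)
    rw [Finset.card_range] at this
    rw [sub_nonneg, div_le_one hp0]
    exact_mod_cast this
  set X : ℝ := (x : ℝ) / (2 * PP η x) with hX
  have hX0 : 0 ≤ X := by rw [hX]; positivity
  have hlen : (((x - g - 1 - x / 2 : ℕ) : ℝ) / (PP η x : ℝ)) ≤ X := by
    have a1 : 2 * (x - g - 1 - x / 2) ≤ x := by omega
    have a2 : 2 * (((x - g - 1 - x / 2 : ℕ) : ℝ)) ≤ x := by exact_mod_cast a1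
    rw [hX, div_le_div_iff₀ hQ0R (by positivity)]
    nlinarith
  have hMM : ((x - g - 1 - x / 2 : ℕ) : ℝ) / (PP η x : ℝ) * Pi ≤
      X * (pr S.card (yy η x) (D0 c A x) * (1 + e)) :=
    mul_le_mul hlen hPi1 hPi0 hX0
  have hM0 : 0 ≤ ((x - g - 1 - x / 2 : ℕ) : ℝ) / (PP η x : ℝ) * Pi := by positivity
  have hE : C * ((D0 c A x : ℝ) + 1) ^ B ≤ e * X * pr S.card (yy η x) (D0 c A x) := by
    refine herr.trans ?_
    exact mul_le_mul_of_nonneg_left hpl (by positivity)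
  have hfin := (abs_le.1 hsv).2
  set P := pr S.card (yy η x) (D0 c A x) with hP
  set Mn := ((x - g - 1 - x / 2 : ℕ) : ℝ) / (PP η x : ℝ) * Pi with hMn
  have hXP : 0 ≤ X * P := mul_nonneg hX0 hpr0
  have h6 : N₀ ≤ (1 + e) * Mn + e * X * P := by linarith
  have h7 : (1 + e) * Mn ≤ (1 + e) * (X * (P * (1 + e))) :=
    mul_le_mul_of_nonneg_left hMM (by linarith)
  have h8 : (1 + e) * (X * (P * (1 + e))) + e * X * P = (1 + 3 * e + e * e) * (X * P) := by ring
  have h9 : (1 + 3 * e + e * e) * (X * P) ≤ (1 + ε) * (X * P) := by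
    refine mul_le_mul_of_nonneg_right ?_ hXP
    nlinarith
  calc N₀ ≤ (1 + e) * (X * (P * (1 + e))) + e * X * P := by linarith
    _ ≤ (1 + ε) * (X * P) := by rw [h8]; exact h9
    _ = (1 + ε) * X * P := by ring

end Pool.Agent.H559.EH
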