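import Pool.Agent.H559.EH.Stm

set_option autoImplicit false

/-! # H559-EH-MAIN (helper784 for helper559): the almost sure statement for patterns from `S_prob`

Adaptation of `EG/Main.lean` (helper388). -/

open Finset MeasureTheory ProbabilityTheory Filter Topology
open Pool.Agent.T2H32.BF (Model V V_pos V_anti V_ratio mertens pnt cnt Surv)
open Pool.Agent.H559.BS (TT)
open Pool.Agent.H559.IX (R0 Lim)
open Pool.Agent.H559.EG (yy PP w1 w2 St Wk pr)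

namespace Pool.Agent.H559.EH

namespace Main

/-- the exceptional event for `X = 2 ^ j` -/
def Ex {Ω : Type} (a : ℕ → Ω → ℕ) (z : ℕ → ℕ) (c : ℝ) (ν : ℕ) (lam κ : ℝ) (j : ℕ) : Set Ω :=
  {ω | ∃ (g : ℕ) (H : Finset ℕ), Pat ν g H ∧ (g : ℝ) ≤ lam * Real.log ((2 ^ j : ℕ) : ℝ) ^ 2 ∧
    (pats (R0 z c (fun q => a q ω)) (2 ^ j) g H : ℝ) < ((2 ^ j : ℕ) : ℝ) ^ κ}

theorem log_two_pow (j : ℕ) : Real.log ((2 ^ j : ℕ) : ℝ) = j * Real.log 2 := by
  push_cast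
  rw [Real.log_pow]

theorem num {lam C L m : ℝ} (ν : ℕ) (hlam : 0 < lam) (hC : 0 ≤ C) (hm : 1 ≤ m) (hL : m / 2 ≤ L) :
    (ν + 1) * (lam * L ^ 2 + 1) ^ (ν + 1) * (C / L ^ (2 * ν + 4)) ≤
      4 * (ν + 1) * (lam + 4) ^ (ν + 1) * C / m ^ 2 := by
  have hL0 : 1 / 2 ≤ L := by linarith
  have hLp : 0 < L := by linarith
  have hmp : 0 < m := by linarith
  have h1 : m ^ 2 ≤ 4 * L ^ 2 := by nlinarith
  have h2 : lam * L ^ 2 + 1 ≤ (lam + 4) * L ^ 2 := by nlinarith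
  have h3 : (lam * L ^ 2 + 1) ^ (ν + 1) ≤ (lam + 4) ^ (ν + 1) * L ^ (2 * ν + 2) := by
    calc (lam * L ^ 2 + 1) ^ (ν + 1) ≤ ((lam + 4) * L ^ 2) ^ (ν + 1) :=
          pow_le_pow_left₀ (by positivity) h2 _
      _ = (lam + 4) ^ (ν + 1) * L ^ (2 * ν + 2) := by
          rw [mul_pow, ← pow_mul, show 2 * (ν + 1) = 2 * ν + 2 by ring]
  have h4 : (ν + 1) * (lam * L ^ 2 + 1) ^ (ν + 1) * (C / L ^ (2 * ν + 4)) ≤
      (ν + 1) * ((lam + 4) ^ (ν + 1) * L ^ (2 * ν + 2)) * (C / L ^ (2 * ν + 4)) := by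
    apply mul_le_mul_of_nonneg_right _ (by positivity)
    exact mul_le_mul_of_nonneg_left h3 (by positivity)
  have h5 : (ν + 1) * ((lam + 4) ^ (ν + 1) * L ^ (2 * ν + 2)) * (C / L ^ (2 * ν + 4)) =
      (ν + 1) * (lam + 4) ^ (ν + 1) * C / L ^ 2 := by
    have h6 : L ^ (2 * ν + 4) = L ^ (2 * ν + 2) * L ^ 2 := by
      rw [← pow_add]
    rw [h6]
    field_simp
  refine h4.trans (h5.le.trans ?_)
  rw [div_le_div_iff₀ (by positivity) (by positivity)]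
  have h7 : 0 ≤ (ν + 1 : ℝ) * (lam + 4) ^ (ν + 1) * C := by positivity
  have h8 := mul_le_mul_of_nonneg_left h1 h7
  linarith

/-- the number of the subsets with at most `ν` elements of a set of `n ≥ 1` elements -/
theorem card_small (ν n : ℕ) (hn : 1 ≤ n) :
    ((range n).powerset.filter (fun H => H.card ≤ ν)).card ≤ (ν + 1) * n ^ ν := by
  classical
  have h1 : (range n).powerset.filter (fun H => H.card ≤ ν) ⊆
      (range (ν + 1)).biUnion (fun k => powersetCard k (range n)) := by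
    intro H hH
    rw [mem_filter, mem_powerset] at hH
    rw [mem_biUnion]
    exact ⟨H.card, mem_range.2 (Nat.lt_succ_of_le hH.2), mem_powersetCard.2 ⟨hH.1, rfl⟩⟩
  refine (card_le_card h1).trans (card_biUnion_le.trans ?_)
  have h2 : ∀ k ∈ range (ν + 1), (powersetCard k (range n)).card ≤ n ^ ν := by
    intro k hk
    rw [card_powersetCard, card_range]
    exact (Nat.choose_le_pow n k).trans
      (Nat.pow_le_pow_right hn (Nat.le_of_lt_succ (mem_range.1 hk)))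
  refine (sum_le_sum h2).trans (le_of_eq ?_)
  rw [sum_const, card_range, smul_eq_mul]

theorem Ex_le {Ω : Type} [MeasurableSpace Ω] {P : Measure Ω} [IsProbabilityMeasure P]
    (a : ℕ → Ω → ℕ) (z : ℕ → ℕ) (c : ℝ) (ν : ℕ) (lam κ C : ℝ) (hlam : 0 < lam) (hC : 0 ≤ C) {j : ℕ}
    (hj : 1 ≤ j)
    (h : ∀ (g : ℕ) (H : Finset ℕ), Pat ν g H → (g : ℝ) ≤ lam * Real.log ((2 ^ j : ℕ) : ℝ) ^ 2 →
      P.real {ω | (pats (R0 z c (fun q => a q ω)) (2 ^ j) g H : ℝ) < ((2 ^ j : ℕ) : ℝ) ^ κ} ≤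
        C / Real.log ((2 ^ j : ℕ) : ℝ) ^ (2 * ν + 4)) :
    P (Ex a z c ν lam κ j) ≤
      ENNReal.ofReal (4 * (ν + 1) * (lam + 4) ^ (ν + 1) * C / (j : ℝ) ^ 2) := by
  classical
  obtain ⟨L, hL⟩ : ∃ L : ℝ, L = Real.log ((2 ^ j : ℕ) : ℝ) := ⟨_, rfl⟩
  rw [← hL] at h
  have hLj : L = j * Real.log 2 := hL.trans (log_two_pow j)
  have hj1 : (1 : ℝ) ≤ j := by exact_mod_cast hj
  have hl2 : (1 / 2 : ℝ) ≤ Real.log 2 := by linarith [Real.log_two_gt_d9]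
  have hLm : (j : ℝ) / 2 ≤ L := by
    rw [hLj]
    nlinarith
  have hLp : 0 < L := by linarith
  obtain ⟨n, hn⟩ : ∃ n : ℕ, n = ⌊lam * L ^ 2⌋₊ + 1 := ⟨_, rfl⟩
  obtain ⟨G, hG⟩ : ∃ G : Finset (ℕ × Finset ℕ), G =
      ((range n) ×ˢ ((range n).powerset.filter (fun H => H.card ≤ ν))).filter
        (fun p => Pat ν p.1 p.2) := ⟨_, rfl⟩
  have hsub : Ex a z c ν lam κ j ⊆ ⋃ p ∈ G,
      {ω | (pats (R0 z c (fun q => a q ω)) (2 ^ j) p.1 p.2 : ℝ) < ((2 ^ j : ℕ) : ℝ) ^ κ} := by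
    rintro ω ⟨g, H, hg1, hg3, hg4⟩
    rw [← hL] at hg3
    rw [Set.mem_iUnion₂]
    refine ⟨(g, H), ?_, hg4⟩
    have h1 : g ≤ ⌊lam * L ^ 2⌋₊ := Nat.le_floor hg3
    rw [hG, mem_filter, mem_product, mem_filter, mem_powerset, mem_range]
    refine ⟨⟨by omega, fun m hm => ?_, hg1.2.2.2.2.1⟩, hg1⟩
    have h2 := hg1.2.2.2.1 m hm
    rw [mem_range]
    omega
  refine (measure_mono hsub).trans ((measure_biUnion_finset_le _ _).trans ?_)
  have hterm : ∀ p ∈ G,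
      P {ω | (pats (R0 z c (fun q => a q ω)) (2 ^ j) p.1 p.2 : ℝ) < ((2 ^ j : ℕ) : ℝ) ^ κ} ≤
        ENNReal.ofReal (C / L ^ (2 * ν + 4)) := by
    intro p hp
    rw [hG, mem_filter, mem_product, mem_range] at hp
    have hgl : (p.1 : ℝ) ≤ lam * L ^ 2 := by
      have h1 : p.1 ≤ ⌊lam * L ^ 2⌋₊ := by omega
      exact (Nat.le_floor_iff (by positivity)).1 h1
    have h2 := h p.1 p.2 hp.2 hgl
    have h3 := ENNReal.ofReal_le_ofReal h2
    rw [ofReal_measureReal] at h3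
    exact h3
  refine (Finset.sum_le_sum hterm).trans ?_
  rw [Finset.sum_const, nsmul_eq_mul, ← ENNReal.ofReal_natCast, ← ENNReal.ofReal_mul (by positivity)]
  apply ENNReal.ofReal_le_ofReal
  refine le_trans ?_ (num ν hlam hC hj1 hLm)
  apply mul_le_mul_of_nonneg_right _ (by positivity)
  have h4 : G.card ≤ n * ((ν + 1) * n ^ ν) := by
    rw [hG]
    refine (Finset.card_filter_le _ _).trans ?_
    rw [card_product, card_range]
    exact Nat.mul_le_mul_left _ (card_small ν n (by omega))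
  have h5 : ((⌊lam * L ^ 2⌋₊ : ℕ) : ℝ) ≤ lam * L ^ 2 := Nat.floor_le (by positivity)
  have h6 : (n : ℝ) ≤ lam * L ^ 2 + 1 := by
    rw [hn]
    push_cast
    linarith
  have h7 : (G.card : ℝ) ≤ (ν + 1) * (n : ℝ) ^ (ν + 1) := by
    have h8 : (G.card : ℝ) ≤ ((n * ((ν + 1) * n ^ ν) : ℕ) : ℝ) := by exact_mod_cast h4
    refine h8.trans (le_of_eq ?_)
    push_cast
    ring
  refine h7.trans ?_
  apply mul_le_mul_of_nonneg_left _ (by positivity)
  exact pow_le_pow_left₀ (Nat.cast_nonneg _) h6 _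

theorem bc (h : S_prob) {c : ℝ} (hc : 1 < c) {z : ℕ → ℕ} (hz : Lim z) (ν : ℕ) {lam κ : ℝ}
    (hlam : 0 < lam) (hκ : 0 < κ) (hlk : κ < 1 - lam * Real.exp Real.eulerMascheroniConstant / 2)
    {Ω : Type} [MeasurableSpace Ω] {P : Measure Ω} {a : ℕ → Ω → ℕ} (hM : Model P a) :
    ∀ᵐ ω ∂P, ∀ᶠ j : ℕ in atTop, ω ∉ Ex a z c ν lam κ j := by
  have hP : IsProbabilityMeasure P := hM.independent.isProbabilityMeasure
  obtain ⟨C, hC⟩ := h ν (2 * ν + 4) c hc z hz lam κ hlam hκ hlk Ω P a hM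
  obtain ⟨x0, hx0⟩ := eventually_atTop.1 hC
  have hs : ∑' j : ℕ, P (Ex a z c ν lam κ (j + (x0 + 1))) ≠ ⊤ := by
    have h1 : ∀ j : ℕ, P (Ex a z c ν lam κ (j + (x0 + 1))) ≤
        ENNReal.ofReal (4 * (ν + 1) * (lam + 4) ^ (ν + 1) * max C 0 /
          ((j + (x0 + 1) : ℕ) : ℝ) ^ 2) := by
      intro j
      refine Ex_le a z c ν lam κ (max C 0) hlam (le_max_right _ _) (by omega) ?_
      intro g H hg1 hg3
      have h2 : x0 ≤ 2 ^ (j + (x0 + 1)) := by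
        have := (j + (x0 + 1)).lt_two_pow_self
        omega
      refine (hx0 _ h2 g H hg1 hg3).trans ?_
      apply div_le_div_of_nonneg_right (le_max_left _ _)
      apply pow_nonneg
      exact Real.log_natCast_nonneg _
    have h3 : Summable (fun j : ℕ => 4 * (ν + 1) * (lam + 4) ^ (ν + 1) * max C 0 /
        ((j + (x0 + 1) : ℕ) : ℝ) ^ 2) := by
      have h4 : Summable (fun j : ℕ => 4 * (ν + 1) * (lam + 4) ^ (ν + 1) * max C 0 *
          (1 / (j : ℝ) ^ 2)) :=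
        (Real.summable_one_div_nat_pow.2 one_lt_two).mul_left _
      have h5 := (summable_nat_add_iff (x0 + 1)).2 h4
      refine h5.congr fun j => ?_
      rw [mul_one_div]
    exact ne_top_of_le_ne_top h3.tsum_ofReal_ne_top (ENNReal.tsum_le_tsum h1)
  filter_upwards [ae_eventually_notMem hs] with ω hω
  obtain ⟨j1, hj1⟩ := eventually_atTop.1 hω
  refine eventually_atTop.2 ⟨j1 + (x0 + 1), fun j hj => ?_⟩
  have h6 := hj1 (j - (x0 + 1)) (by omega)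
  rwa [Nat.sub_add_cancel (by omega)] at h6

/-- the patterns below `X` contain the patterns in `(2 ^ (j - 1), 2 ^ j)` -/
theorem pats_le (R : Set ℕ) {x X : ℕ} (hx : x ≤ X) (g : ℕ) (H : Finset ℕ) :
    pats R x g H ≤ {v : ℕ | v + g ≤ X ∧ (∀ h ∈ H, v + h ∈ R) ∧
      ∀ n, v < n → n < v + g → n - v ∉ H → n ∉ R}.ncard := by
  classical
  unfold pats
  rw [← Set.ncard_coe_finset]
  apply Set.ncard_le_ncard
  · intro v hv
    rw [Finset.mem_coe, Finset.mem_filter, Finset.mem_Ioc] at hv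
    obtain ⟨⟨h1, h2⟩, h3, h5⟩ := hv
    refine ⟨by omega, h3, fun n hn1 hn2 => h5 n (Finset.mem_Ioo.2 ⟨hn1, hn2⟩)⟩
  · apply (Set.finite_Iic X).subset
    rintro v ⟨h3, -⟩
    rw [Set.mem_Iic]
    omega

theorem det (R : Set ℕ) (ν : ℕ) {lam κ l k : ℝ} (hlam : 0 < lam) (hl : lam < l) (hκ : 0 < κ)
    (hk : κ < k)
    (h : ∀ᶠ j : ℕ in atTop, ∀ (g : ℕ) (H : Finset ℕ), Pat ν g H →
      (g : ℝ) ≤ l * Real.log ((2 ^ j : ℕ) : ℝ) ^ 2 →
      ((2 ^ j : ℕ) : ℝ) ^ k ≤ (pats R (2 ^ j) g H : ℝ)) :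
    ∀ᶠ X : ℕ in atTop, ∀ (g : ℕ) (H : Finset ℕ), Pat ν g H → (g : ℝ) ≤ lam * Real.log X ^ 2 →
      (X : ℝ) ^ κ ≤ ({v : ℕ | v + g ≤ X ∧ (∀ h ∈ H, v + h ∈ R) ∧
        ∀ n, v < n → n < v + g → n - v ∉ H → n ∉ R}.ncard : ℝ) := by
  obtain ⟨j0, hj0⟩ := eventually_atTop.1 h
  obtain ⟨j1, hj1⟩ := exists_nat_ge (κ / (k - κ))
  obtain ⟨j2, hj2⟩ := exists_nat_ge (3 * lam / (l - lam))
  refine eventually_atTop.2 ⟨2 ^ (j0 + j1 + j2 + 1), fun X hX g H hg1 hg3 => ?_⟩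
  have hX0 : X ≠ 0 := by
    have : 0 < 2 ^ (j0 + j1 + j2 + 1) := by positivity
    omega
  set j := Nat.log 2 X with hj
  have hjN : j0 + j1 + j2 + 1 ≤ j := Nat.le_log_of_pow_le one_lt_two hX
  have hjX : 2 ^ j ≤ X := Nat.pow_log_le_self 2 hX0
  have hXj : X < 2 ^ (j + 1) := Nat.lt_pow_succ_log_self one_lt_two X
  have hjr : (1 : ℝ) ≤ j := by exact_mod_cast (by omega : 1 ≤ j)
  have hj1' : (j1 : ℝ) ≤ j := by exact_mod_cast (by omega : j1 ≤ j)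
  have hj2' : (j2 : ℝ) ≤ j := by exact_mod_cast (by omega : j2 ≤ j)
  have hkk : 0 < k - κ := by linarith
  have hll : 0 < l - lam := by linarith
  have e1 : κ ≤ j * (k - κ) := by
    have := hj1.trans hj1'
    rwa [div_le_iff₀ hkk] at this
  have e2 : 3 * lam ≤ j * (l - lam) := by
    have := hj2.trans hj2'
    rwa [div_le_iff₀ hll] at this
  have e3 : lam * ((j : ℝ) + 1) ^ 2 ≤ l * (j : ℝ) ^ 2 := by
    have h1 : 3 * lam * j ≤ j * (l - lam) * j := mul_le_mul_of_nonneg_right e2 (by linarith)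
    nlinarith
  have hl2 : 0 < Real.log 2 := Real.log_pos one_lt_two
  have hXr : (0 : ℝ) < X := by exact_mod_cast Nat.pos_of_ne_zero hX0
  have hXle : (X : ℝ) ≤ (2 : ℝ) ^ (j + 1) := by exact_mod_cast hXj.le
  have hlX : Real.log X ≤ (j + 1) * Real.log 2 := by
    have h1 := Real.log_le_log hXr hXle
    rw [Real.log_pow] at h1
    push_cast at h1
    exact h1
  have hlX0 : 0 ≤ Real.log X := Real.log_natCast_nonneg X
  have e4 : (g : ℝ) ≤ l * Real.log ((2 ^ j : ℕ) : ℝ) ^ 2 := by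
    rw [log_two_pow]
    calc (g : ℝ) ≤ lam * Real.log X ^ 2 := hg3
      _ ≤ lam * ((j + 1) * Real.log 2) ^ 2 := by
          apply mul_le_mul_of_nonneg_left _ hlam.le
          exact pow_le_pow_left₀ hlX0 hlX 2
      _ = (lam * ((j : ℝ) + 1) ^ 2) * Real.log 2 ^ 2 := by ring
      _ ≤ (l * (j : ℝ) ^ 2) * Real.log 2 ^ 2 := mul_le_mul_of_nonneg_right e3 (by positivity)
      _ = l * (j * Real.log 2) ^ 2 := by ring
  have e5 : (X : ℝ) ^ κ ≤ ((2 ^ j : ℕ) : ℝ) ^ k := by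
    push_cast
    calc (X : ℝ) ^ κ ≤ ((2 : ℝ) ^ (j + 1)) ^ κ := Real.rpow_le_rpow hXr.le hXle hκ.le
      _ = (2 : ℝ) ^ (((j + 1 : ℕ) : ℝ) * κ) := by
          rw [← Real.rpow_natCast, ← Real.rpow_mul (by norm_num)]
      _ ≤ (2 : ℝ) ^ ((j : ℝ) * k) := by
          apply Real.rpow_le_rpow_of_exponent_le (by norm_num)
          push_cast
          linarith
      _ = ((2 : ℝ) ^ j) ^ k := by
          rw [← Real.rpow_natCast, ← Real.rpow_mul (by norm_num)]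
  refine e5.trans ((hj0 j (by omega) g H hg1 e4).trans ?_)
  exact_mod_cast pats_le R hjX g H

end Main

open Main in
/-- **S_main from S_prob.** -/
theorem t_main (h : S_prob) : S_main := by
  intro c hc z hz Ω _ P a hM
  have hae : ∀ᵐ ω ∂P, ∀ q : ℕ × ℚ × ℚ, 0 < (q.2.1 : ℝ) → 0 < (q.2.2 : ℝ) →
      (q.2.2 : ℝ) < 1 - q.2.1 * Real.exp Real.eulerMascheroniConstant / 2 →
      ∀ᶠ j : ℕ in atTop, ω ∉ Ex a z c q.1 q.2.1 q.2.2 j := by
    rw [ae_all_iff]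
    intro q
    by_cases hq : 0 < (q.2.1 : ℝ) ∧ 0 < (q.2.2 : ℝ) ∧
      (q.2.2 : ℝ) < 1 - q.2.1 * Real.exp Real.eulerMascheroniConstant / 2
    · filter_upwards [bc h hc hz q.1 hq.1 hq.2.1 hq.2.2 hM] with ω hω _ _ _
      exact hω
    · exact Eventually.of_forall fun ω h1 h2 h3 => absurd ⟨h1, h2, h3⟩ hq
  filter_upwards [hae] with ω hω ν lam κ hκ hlk
  by_cases hlam : lam ≤ 0
  · refine Eventually.of_forall fun X g H hg1 hg3 => ?_
    exfalso
    have h1 : (1 : ℝ) ≤ g := by exact_mod_cast hg1.1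
    have h2 : lam * Real.log X ^ 2 ≤ 0 := mul_nonpos_of_nonpos_of_nonneg hlam (by positivity)
    linarith
  · rw [not_le] at hlam
    have hE : 0 < Real.exp Real.eulerMascheroniConstant := Real.exp_pos _
    obtain ⟨l, hl1, hl2⟩ := exists_rat_btwn
      (show lam < 2 * (1 - κ) / Real.exp Real.eulerMascheroniConstant by
        rw [lt_div_iff₀ hE]
        linarith)
    rw [lt_div_iff₀ hE] at hl2
    obtain ⟨k, hk1, hk2⟩ := exists_rat_btwn
      (show κ < 1 - l * Real.exp Real.eulerMascheroniConstant / 2 by linarith)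
    have h1 := hω (ν, l, k) (hlam.trans hl1) (hκ.trans hk1) hk2
    refine det _ ν hlam hl1 hκ hk1 (h1.mono fun j hj g H hg1 hg3 => ?_)
    by_contra hc'
    rw [not_le] at hc'
    exact hj ⟨g, H, hg1, hg3, hc'⟩

end Pool.Agent.H559.EH
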