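import Pool.Agent.H559.EH.Stm
import Pool.Agent.H559.EG.Mem

set_option autoImplicit false

/-! # Exact patterns of consecutive random primes: membership in the random primes (deterministic) -/

open Finset MeasureTheory ProbabilityTheory Filter Topology
open Pool.Agent.H559.IX (R0 Lim)
open Pool.Agent.H559.EG (w1 w2 St Wk)

namespace Pool.Agent.H559.EH

theorem t_mem : S_mem := by
  classical
  intro c hc z hz x T hx hTz hwT b v g H hv hg hHg hS B hB hF hlast
  have hmono := hz.1
  refine ⟨fun h hh => ?_, ?_⟩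
  · have hhg := hHg h hh
    refine EG.Mem.mem_R0 hc hmono hx (by omega) (by omega) hwT (hS h hh) (fun p h1 h2 h3 => ?_)
      (fun p h1 h2 h3 => ?_)
    · exact hF.2 p (Finset.mem_filter.2 ⟨Finset.mem_Ioc.2 ⟨h1, h2⟩, h3⟩) h hh
    · exact hlast p (Finset.mem_filter.2 ⟨Finset.mem_Ioc.2 ⟨h1, h2⟩, h3⟩) h hh
  · intro n hn hnH hR
    have hn' := Finset.mem_Ioo.1 hn
    have hn1 : x / 2 < n := by omega
    have hn2 : n ≤ x := by omega
    obtain ⟨h0, hl, hr⟩ := EG.Mem.logs hc hx hn1 hn2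
    have hw2 : ∀ p : ℕ, w2 c x < p → ¬ (p : ℝ) ≤ Real.log (n : ℝ) ^ c := by
      intro p hp hle
      have h3 := (Nat.floor_lt (h0.trans (hl.trans hr))).1 hp
      linarith
    by_cases hW : Wk (w1 c x) (w2 c x) T b n
    · obtain ⟨p, hp, hpn⟩ := hF.1 n (hB n hn hnH hW)
      obtain ⟨hpI, hpp⟩ := Finset.mem_filter.1 hp
      have hpI' := Finset.mem_Ioc.1 hpI
      have h4 := hR.2 p (hpI'.2.trans (hmono hn1.le)) hpp
      rw [if_neg (hw2 p (lt_of_le_of_lt hwT hpI'.1))] at h4
      exact h4 hpn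
    · apply hW
      intro p hpT hpp
      have hpz : p ≤ z n := (hpT.trans hTz.le).trans (hmono hn1.le)
      have h4 := hR.2 p hpz hpp
      refine ⟨fun h5 => ?_, fun h5 => ?_⟩
      · have h6 : (p : ℝ) ≤ Real.log (n : ℝ) ^ c :=
          ((Nat.le_floor_iff h0).1 h5).trans hl
        rw [if_pos h6] at h4
        exact h4
      · rw [if_neg (hw2 p h5)] at h4
        exact h4

end Pool.Agent.H559.EH
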