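import Pool.Agent.H559.EH.Stm

set_option autoImplicit false

/-! # The strong patterns at level `T` (helper947, after helper152) -/

open Finset MeasureTheory ProbabilityTheory Filter Topology
open Pool.Agent.T2H32.BF (Model V V_pos V_anti V_ratio mertens pnt cnt Surv)
open Pool.Agent.H559.BS (TT)
open Pool.Agent.H559.EG (yy PP w1 w2 St Wk pr)

namespace Pool.Agent.H559.EH

namespace N1

theorem pr_split (k : ℝ) {a b c : ℕ} (h1 : a ≤ b) (h2 : b ≤ c) : pr k a b * pr k b c = pr k a c := by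
  unfold pr
  rw [prod_filter, prod_filter, prod_filter]
  exact prod_Ioc_consecutive _ h1 h2

theorem prk_pos {k a b : ℕ} (ha : k ≤ a) : 0 < pr (k : ℝ) a b := by
  unfold pr
  refine prod_pos fun p hp => ?_
  have h1 : a < p := (mem_Ioc.1 (mem_filter.1 hp).1).1
  have h2 : (k : ℝ) < p := by exact_mod_cast (show k < p by omega)
  have h0 : (0 : ℝ) < p := lt_of_le_of_lt (Nat.cast_nonneg k) h2
  have h3 : (k : ℝ) / (p : ℝ) < 1 := by rwa [div_lt_one h0]
  linarith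

theorem V_le_one (n : ℕ) : V n ≤ 1 := by
  have h := V_anti (Nat.zero_le n)
  have h0 : V 0 = 1 := by
    unfold V
    have e : (range (0 + 1)).filter Nat.Prime = ∅ := by
      rw [filter_eq_empty_iff]
      intro p hp
      have h1 : p = 0 := by
        rw [mem_range] at hp
        omega
      rw [h1]
      exact Nat.not_prime_zero
    rw [e, prod_empty]
  rw [h0] at h
  exact h

theorem one_sub_pow_le (k : ℕ) (u : ℝ) (hu0 : 0 ≤ u) (hu1 : u ≤ 1) (hu : (k : ℝ) * u ≤ 1 / 2) :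
    (1 - u) ^ (2 * k) ≤ 1 - k * u := by
  have h1 : (1 - u) ^ (2 * k) ≤ Real.exp (-(2 * (k * u))) := by
    have h2 : 1 - u ≤ Real.exp (-u) := by
      have := Real.add_one_le_exp (-u)
      linarith
    calc (1 - u) ^ (2 * k) ≤ (Real.exp (-u)) ^ (2 * k) :=
          pow_le_pow_left₀ (by linarith) h2 _
      _ = Real.exp (-(2 * (k * u))) := by
          rw [← Real.exp_nat_mul]
          congr 1
          push_cast
          ring
  refine h1.trans ?_
  obtain ⟨t, ht⟩ : ∃ t : ℝ, t = k * u := ⟨_, rfl⟩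
  rw [← ht] at hu ⊢
  have ht0 : 0 ≤ t := by rw [ht]; positivity
  rw [Real.exp_neg]
  have h2 : 1 + 2 * t + (2 * t) ^ 2 / 2 ≤ Real.exp (2 * t) :=
    Real.quadratic_le_exp_of_nonneg (by linarith)
  have h3 : 0 < 1 - t := by linarith
  rw [inv_le_comm₀ (Real.exp_pos _) h3]
  refine le_trans ?_ h2
  rw [inv_le_iff_one_le_mul₀ h3]
  nlinarith [mul_nonneg ht0 ht0, mul_nonneg ht0 (sub_nonneg.2 hu)]

theorem prk_ge {k a b : ℕ} (hk : 2 * k ≤ a) (hab : a ≤ b) :
    V b ^ (2 * k) ≤ pr (k : ℝ) a b := by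
  have h1 : V b ≤ ∏ p ∈ (Ioc a b).filter Nat.Prime, (1 - 1 / (p : ℝ)) := by
    rw [← V_ratio a b hab, le_div_iff₀ (V_pos a)]
    have e1 := V_le_one a
    have e2 := V_pos b
    nlinarith
  have h2 : (∏ p ∈ (Ioc a b).filter Nat.Prime, (1 - 1 / (p : ℝ))) ^ (2 * k) ≤ pr (k : ℝ) a b := by
    unfold pr
    rw [← prod_pow]
    refine prod_le_prod (fun p hp => ?_) (fun p hp => ?_)
    · have h1 : a < p := (mem_Ioc.1 (mem_filter.1 hp).1).1
      have h2 : (1 : ℝ) ≤ p := by exact_mod_cast (show 1 ≤ p by omega)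
      have h3 : 1 / (p : ℝ) ≤ 1 := by
        rw [div_le_one (by linarith)]
        exact h2
      exact pow_nonneg (by linarith) _
    · have h1 : a < p := (mem_Ioc.1 (mem_filter.1 hp).1).1
      have h2 : (1 : ℝ) ≤ p := by exact_mod_cast (show 1 ≤ p by omega)
      have h3 : 1 / (p : ℝ) ≤ 1 := by
        rw [div_le_one (by linarith)]
        exact h2
      have h4 : 0 ≤ 1 / (p : ℝ) := by positivity
      have h5 : (k : ℝ) / (p : ℝ) = k * (1 / (p : ℝ)) := by ring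
      have h6 : (k : ℝ) * (1 / (p : ℝ)) ≤ 1 / 2 := by
        rw [← h5, div_le_div_iff₀ (by linarith) (by norm_num)]
        have : (k : ℝ) * 2 ≤ p := by exact_mod_cast (show k * 2 ≤ p by omega)
        linarith
      rw [h5]
      exact one_sub_pow_le k _ h4 h3 h6
  exact (pow_le_pow_left₀ (V_pos b).le h1 _).trans h2

theorem prim_low (n m : ℕ) (hm : 0 < m) (h : 8 * m ≤ n) : 8 * m ^ 3 < primorial n := by
  obtain ⟨p1, hp1, h1, h1'⟩ := Nat.exists_prime_lt_and_le_two_mul m hm.ne'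
  obtain ⟨p2, hp2, h2, h2'⟩ := Nat.exists_prime_lt_and_le_two_mul (2 * m) (by omega)
  obtain ⟨p3, hp3, h3, h3'⟩ := Nat.exists_prime_lt_and_le_two_mul (4 * m) (by omega)
  have hsub : ({p1, p2, p3} : Finset ℕ) ⊆ (range (n + 1)).filter Nat.Prime := by
    intro p hp
    rw [mem_insert, mem_insert, mem_singleton] at hp
    rw [mem_filter, mem_range]
    rcases hp with rfl | rfl | rfl
    · exact ⟨by omega, hp1⟩
    · exact ⟨by omega, hp2⟩
    · exact ⟨by omega, hp3⟩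
  have hprod : ∏ p ∈ ({p1, p2, p3} : Finset ℕ), p = p1 * (p2 * p3) := by
    rw [prod_insert, prod_insert, prod_singleton]
    · rw [mem_singleton]
      omega
    · rw [mem_insert, mem_singleton]
      omega
  have hle : ∏ p ∈ ({p1, p2, p3} : Finset ℕ), p ≤ primorial n := by
    unfold primorial
    exact prod_le_prod_of_subset_of_one_le' hsub fun p hp _ => (mem_filter.1 hp).2.one_le
  rw [hprod] at hle
  have e2 : (2 * m) * (4 * m) < p2 * p3 := Nat.mul_lt_mul'' h2 h3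
  have e1 : m * ((2 * m) * (4 * m)) < p1 * (p2 * p3) := Nat.mul_lt_mul'' h1 e2
  have e3 : m * ((2 * m) * (4 * m)) = 8 * m ^ 3 := by ring
  omega

theorem log_top : Tendsto (fun n : ℕ => Real.log n) atTop atTop :=
  Real.tendsto_log_atTop.comp tendsto_natCast_atTop_atTop

/-- the levels -/
theorem levels (ν A : ℕ) (c lam δ η : ℝ) (hc : 1 < c) (hδ : 0 < δ) (hη : 0 < η) (hη1 : η ≤ 1) :
    ∀ᶠ x : ℕ in atTop, w1 c x ≤ D0 c (A + 6) x ∧ w2 c x ≤ D0 c (A + 6) x ∧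
      yy η x ≤ D0 c (A + 6) x ∧ D0 c (A + 6) x ≤ TT δ x ∧
      100 ≤ D0 c (A + 6) x ∧ Real.log x ^ (A + 6) ≤ D0 c (A + 6) x ∧
      4 * (ν : ℝ) ^ 2 * Real.log x ≤ D0 c (A + 6) x ∧
      lam * Real.log x ^ 2 < D0 c (A + 6) x ∧ 2 * ν + 2 ≤ yy η x := by
  obtain ⟨k, hk⟩ := exists_nat_ge (c + ((A + 6 : ℕ) : ℝ))
  filter_upwards [log_top.eventually_ge_atTop (max 3 (max (lam + 1) (max ((2 * ν + 2) / η)
    (4 * (ν : ℝ) ^ 2)))),
    Pool.Agent.H559.BS.log_pow_le k δ 1 hδ, eventually_ge_atTop 2] with x h1 h2 hx2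
  obtain ⟨L, hL⟩ : ∃ L : ℝ, L = Real.log x := ⟨_, rfl⟩
  rw [← hL] at h1
  have hL3 : 3 ≤ L := (le_max_left _ _).trans h1
  have hLl : lam + 1 ≤ L := ((le_max_left _ _).trans (le_max_right _ _)).trans h1
  have hLη : (2 * ν + 2) / η ≤ L :=
    (((le_max_left _ _).trans (le_max_right _ _)).trans (le_max_right _ _)).trans h1
  have hLν : 4 * (ν : ℝ) ^ 2 ≤ L :=
    (((le_max_right _ _).trans (le_max_right _ _)).trans (le_max_right _ _)).trans h1
  have hL1 : (1 : ℝ) ≤ L := by linarith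
  have hL0 : (0 : ℝ) < L := by linarith
  have hbig : L ^ (A + 7) ≤ L ^ (c + ((A + 6 : ℕ) : ℝ)) := by
    have e1 : L ^ (((A + 7 : ℕ) : ℝ)) ≤ L ^ (c + ((A + 6 : ℕ) : ℝ)) := by
      refine Real.rpow_le_rpow_of_exponent_le hL1 ?_
      push_cast
      linarith
    rw [Real.rpow_natCast] at e1
    exact e1
  have hD : (D0 c (A + 6) x : ℝ) = (⌊L ^ (c + ((A + 6 : ℕ) : ℝ))⌋₊ : ℝ) := by
    unfold D0
    rw [hL]
  have hA1 : (1 : ℝ) ≤ L ^ A := one_le_pow₀ hL1
  have hDlow : L ^ (A + 6) ≤ D0 c (A + 6) x := by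
    have e1 := Nat.lt_floor_add_one (L ^ (c + ((A + 6 : ℕ) : ℝ)))
    rw [hD]
    have e3 : 1 ≤ L ^ (A + 6) := one_le_pow₀ hL1
    have e4 : L ^ (A + 7) = L * L ^ (A + 6) := by ring
    nlinarith
  have e6 : L ^ (A + 6) = L ^ A * (L ^ 4 * L ^ 2) := by ring
  have e5 : (81 : ℝ) ≤ L ^ 4 := by
    have := pow_le_pow_left₀ (by norm_num : (0 : ℝ) ≤ 3) hL3 4
    norm_num at this
    exact this
  have e7 : (9 : ℝ) ≤ L ^ 2 := by
    have := pow_le_pow_left₀ (by norm_num : (0 : ℝ) ≤ 3) hL3 2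
    norm_num at this
    exact this
  have e42 : L ^ 4 * L ^ 2 ≤ L ^ (A + 6) := by
    rw [e6]
    have : 0 ≤ L ^ 4 * L ^ 2 := by positivity
    nlinarith
  have e8 : (729 : ℝ) ≤ L ^ 4 * L ^ 2 := by nlinarith
  have e9 : L ≤ L ^ 2 := by nlinarith
  rw [← hL]
  refine ⟨?_, ?_, ?_, ?_, ?_, hDlow, ?_, ?_, ?_⟩
  · unfold w1 D0
    refine Nat.floor_mono ?_
    rw [← hL]
    have hxr : (2 : ℝ) ≤ x := by exact_mod_cast hx2
    have f1 : 0 ≤ Real.log ((x : ℝ) / 2) := Real.log_nonneg (by linarith)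
    have f2 : Real.log ((x : ℝ) / 2) ≤ L := by
      rw [hL]
      exact Real.log_le_log (by linarith) (by linarith)
    refine (Real.rpow_le_rpow f1 f2 (by linarith)).trans
      (Real.rpow_le_rpow_of_exponent_le hL1 ?_)
    have : (0 : ℝ) ≤ ((A + 6 : ℕ) : ℝ) := Nat.cast_nonneg _
    linarith
  · unfold w2 D0
    refine Nat.floor_mono ?_
    rw [← hL]
    refine Real.rpow_le_rpow_of_exponent_le hL1 ?_
    have : (0 : ℝ) ≤ ((A + 6 : ℕ) : ℝ) := Nat.cast_nonneg _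
    linarith
  · unfold yy D0
    refine Nat.floor_mono ?_
    rw [← hL]
    have f1 : η * L ≤ L := by nlinarith
    have f2 : L ^ (A + 7) = L * L ^ (A + 6) := by ring
    have f3 : 1 ≤ L ^ (A + 6) := one_le_pow₀ hL1
    nlinarith
  · unfold D0 TT
    refine Nat.floor_mono ?_
    rw [← hL]
    rw [one_mul, ← hL] at h2
    have f1 : L ^ (c + ((A + 6 : ℕ) : ℝ)) ≤ L ^ (k : ℝ) := Real.rpow_le_rpow_of_exponent_le hL1 hk
    rw [Real.rpow_natCast] at f1
    linarith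
  · have f1 : (100 : ℝ) ≤ D0 c (A + 6) x := by linarith
    exact_mod_cast f1
  · have f1 : 4 * (ν : ℝ) ^ 2 * L ≤ L * L := mul_le_mul_of_nonneg_right hLν hL0.le
    have f2 : L * L ≤ L ^ 4 * L ^ 2 := by
      have : L * L = L ^ 2 := by ring
      rw [this]
      nlinarith
    linarith
  · have f1 : lam < L ^ 4 := by
      have : L ≤ L ^ 4 := by
        have := pow_le_pow_right₀ hL1 (show 1 ≤ 4 by norm_num)
        rwa [pow_one] at this
      linarith
    have f2 : lam * L ^ 2 < L ^ 4 * L ^ 2 := mul_lt_mul_of_pos_right f1 (by positivity)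
    linarith
  · unfold yy
    rw [← hL]
    refine Nat.le_floor ?_
    rw [div_le_iff₀ hη] at hLη
    push_cast
    linarith

theorem prim_big (lam η : ℝ) (hη : 0 < η) : ∀ᶠ x : ℕ in atTop, lam * Real.log x ^ 2 < PP η x := by
  filter_upwards [log_top.eventually_ge_atTop (max (18 / η) (max 1 (512 * lam / η ^ 3 + 1)))] with x h1
  obtain ⟨L, hL⟩ : ∃ L : ℝ, L = Real.log x := ⟨_, rfl⟩
  rw [← hL] at h1 ⊢
  have g1 : 18 / η ≤ L := (le_max_left _ _).trans h1
  have g2 : 1 ≤ L := ((le_max_left _ _).trans (le_max_right _ _)).trans h1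
  have g3 : 512 * lam / η ^ 3 + 1 ≤ L := ((le_max_right _ _).trans (le_max_right _ _)).trans h1
  rw [div_le_iff₀ hη] at g1
  have hy : η * L - 1 < yy η x := by
    have := Nat.lt_floor_add_one (η * L)
    unfold yy
    rw [← hL]
    linarith
  obtain ⟨m, hm⟩ : ∃ m : ℕ, m = yy η x / 8 := ⟨_, rfl⟩
  have h8 : 8 * m ≤ yy η x := by omega
  have h8' : yy η x < 8 * m + 8 := by omega
  have h8r : (yy η x : ℝ) < 8 * m + 8 := by exact_mod_cast h8'
  have hm1 : η * L / 16 ≤ m := by linarith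
  have hm0 : 0 < m := by
    have : (0 : ℝ) < m := by linarith
    exact_mod_cast this
  have h2 := prim_low (yy η x) m hm0 h8
  have h3 : (8 * (m : ℝ) ^ 3) < PP η x := by
    unfold PP
    exact_mod_cast h2
  have h4 : (η * L / 16) ^ 3 ≤ (m : ℝ) ^ 3 := pow_le_pow_left₀ (by positivity) hm1 3
  have h5 : lam * L ^ 2 ≤ 8 * (η * L / 16) ^ 3 := by
    have h6 : 8 * (η * L / 16) ^ 3 = (η ^ 3 * L / 512) * L ^ 2 := by ring
    rw [h6]
    refine mul_le_mul_of_nonneg_right ?_ (by positivity)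
    have h7 : 512 * lam / η ^ 3 ≤ L := by linarith
    rw [div_le_iff₀ (by positivity)] at h7
    linarith
  linarith

theorem main_big (ν A : ℕ) (δ η : ℝ) (hδ : 0 < δ) (hη : 0 < η) (hη4 : η ≤ 1 / 4) :
    ∀ᶠ x : ℕ in atTop, ∀ k ≤ ν, ∀ y : ℕ, y = yy η x → 2 * ν + 2 ≤ y → y ≤ TT δ x →
      Real.log x ^ A ≤ ((x : ℝ) / (2 * PP η x)) * pr (k : ℝ) y (TT δ x) := by
  have hg := Pool.Agent.H559.BS.g_pos
  obtain ⟨G, hG⟩ : ∃ G : ℝ, G = Pool.Agent.H559.BS.g / (2 * δ) := ⟨_, rfl⟩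
  have hG0 : 0 < G := by
    rw [hG]
    positivity
  filter_upwards [Pool.Agent.H559.BS.V_TT δ hδ, log_top.eventually_ge_atTop 1,
    Pool.Agent.H559.BS.log_pow_le (A + 2 * ν) (1 / 2) (2 / G ^ (2 * ν)) (by norm_num),
    eventually_ge_atTop 1] with x h1 h2 h3 hx1 k hk y hy hy2 hyT
  have hx0 : (0 : ℝ) < x := by exact_mod_cast hx1
  obtain ⟨L, hL⟩ : ∃ L : ℝ, L = Real.log x := ⟨_, rfl⟩
  rw [← hL] at h1 h2 h3 ⊢
  rw [← hG] at h1
  have hL0 : 0 < L := by linarith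
  have hV : G / L ≤ V (TT δ x) := by
    rw [div_le_iff₀ hL0]
    exact h1.2
  have hpr : (G / L) ^ (2 * ν) ≤ pr (k : ℝ) y (TT δ x) := by
    refine (pow_le_pow_left₀ (by positivity) hV _).trans ?_
    refine le_trans ?_ (prk_ge (k := k) (a := y) (by omega) hyT)
    exact pow_le_pow_of_le_one (V_pos _).le (V_le_one _) (by omega)
  have hP0 : (0 : ℝ) < PP η x := by
    unfold PP
    exact_mod_cast primorial_pos _
  have hPle : (PP η x : ℝ) ≤ (x : ℝ) ^ (1 / 2 : ℝ) := by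
    have e1 : (PP η x : ℝ) ≤ 4 ^ (yy η x) := by
      unfold PP
      exact_mod_cast primorial_le_four_pow _
    have e2 : (4 : ℝ) ^ (yy η x) = Real.exp (yy η x * Real.log 4) := by
      rw [mul_comm, Real.exp_mul, Real.exp_log (by norm_num), Real.rpow_natCast]
    have e3 : (yy η x : ℝ) ≤ η * L := by
      unfold yy
      rw [← hL]
      exact Nat.floor_le (by positivity)
    have e4 : Real.log 4 ≤ 2 := by
      have : (4 : ℝ) = 2 ^ 2 := by norm_num
      rw [this, Real.log_pow]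
      have := Real.log_two_lt_d9
      push_cast
      linarith
    have e5 : (0 : ℝ) ≤ Real.log 4 := Real.log_nonneg (by norm_num)
    rw [e2] at e1
    refine e1.trans ?_
    rw [Real.rpow_def_of_pos hx0, ← hL]
    apply Real.exp_le_exp.2
    have e6 : (yy η x : ℝ) * Real.log 4 ≤ η * L * 2 :=
      mul_le_mul e3 e4 e5 (by positivity)
    nlinarith
  have hs0 : (0 : ℝ) < (x : ℝ) ^ (1 / 2 : ℝ) := by positivity
  have hsq : (x : ℝ) ^ (1 / 2 : ℝ) * (x : ℝ) ^ (1 / 2 : ℝ) = x := by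
    rw [← Real.rpow_add hx0]
    norm_num
  have h4 : (x : ℝ) ^ (1 / 2 : ℝ) / 2 ≤ (x : ℝ) / (2 * PP η x) := by
    rw [div_le_div_iff₀ (by norm_num) (by positivity)]
    nlinarith
  calc L ^ A = (2 / G ^ (2 * ν) * L ^ (A + 2 * ν)) / 2 * (G / L) ^ (2 * ν) := by
        rw [div_pow, pow_add]
        have e1 : G ^ (2 * ν) ≠ 0 := pow_ne_zero _ hG0.ne'
        have e2 : L ^ (2 * ν) ≠ 0 := pow_ne_zero _ hL0.ne'
        field_simp
    _ ≤ (x : ℝ) ^ (1 / 2 : ℝ) / 2 * (G / L) ^ (2 * ν) := by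
        refine mul_le_mul_of_nonneg_right ?_ (by positivity)
        linarith
    _ ≤ ((x : ℝ) / (2 * PP η x)) * pr (k : ℝ) y (TT δ x) :=
        mul_le_mul h4 hpr (by positivity) (by positivity)

/-! ### the sieve -/

theorem St_congr {u1 u2 T : ℕ} {b b' : ℕ → ℕ} (h : ∀ p ≤ T, p.Prime → b p = b' p) (v : ℕ) :
    St u1 u2 T b v ↔ St u1 u2 T b' v := by
  constructor
  · intro hs p hp hpp
    obtain ⟨h1, h2⟩ := hs p hp hpp
    exact ⟨h1, fun h3 => by rw [← h p hp hpp]; exact h2 h3⟩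
  · intro hs p hp hpp
    obtain ⟨h1, h2⟩ := hs p hp hpp
    exact ⟨h1, fun h3 => by rw [h p hp hpp]; exact h2 h3⟩

theorem St_split {u1 u2 D T : ℕ} {b : ℕ → ℕ} (h1 : u1 ≤ D) (h2 : u2 ≤ D) (hDT : D ≤ T) (v : ℕ) :
    St u1 u2 T b v ↔ St u1 u2 D b v ∧ ∀ p ∈ (Ioc D T).filter Nat.Prime, v % p ≠ b p := by
  constructor
  · intro hs
    refine ⟨fun p hp hpp => hs p (hp.trans hDT) hpp, fun p hp => ?_⟩
    rw [mem_filter, mem_Ioc] at hp
    exact (hs p hp.1.2 hp.2).2 (by omega)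
  · rintro ⟨hs, ht⟩ p hp hpp
    rcases Nat.lt_or_ge D p with h3 | h3
    · exact ⟨fun h4 => by omega, fun _ => ht p (mem_filter.2 ⟨mem_Ioc.2 ⟨h3, hp⟩, hpp⟩)⟩
    · exact hs p h3 hpp

/-- the translate of `H` -/
noncomputable def sh (H : Finset ℕ) (v : ℕ) : Finset ℕ := H.image (fun h => v + h)

theorem mem_sh {H : Finset ℕ} {v n : ℕ} : n ∈ sh H v ↔ ∃ h ∈ H, v + h = n := by
  unfold sh
  rw [mem_image]

theorem card_sh (H : Finset ℕ) (v : ℕ) : (sh H v).card = H.card := by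
  unfold sh
  exact card_image_of_injective _ fun a b h => Nat.add_left_cancel h

open Classical in
/-- the patterns -/
noncomputable def NN (u1 u2 T Q x g r : ℕ) (H : Finset ℕ) (b : ℕ → ℕ) : Finset ℕ :=
  (Ioc (x / 2) (x - g - 1)).filter (fun v => v % Q = r ∧ ∀ h ∈ H, St u1 u2 T b (v + h))

open Classical in
theorem mem_NN {u1 u2 T Q x g r : ℕ} {H : Finset ℕ} {b : ℕ → ℕ} {v : ℕ} :
    v ∈ NN u1 u2 T Q x g r H b ↔
      v ∈ Ioc (x / 2) (x - g - 1) ∧ v % Q = r ∧ ∀ h ∈ H, St u1 u2 T b (v + h) := by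
  unfold NN
  rw [mem_filter]

theorem NN_congr {u1 u2 T Q x g r : ℕ} {H : Finset ℕ} {b b' : ℕ → ℕ}
    (h : ∀ p ≤ T, p.Prime → b p = b' p) :
    NN u1 u2 T Q x g r H b = NN u1 u2 T Q x g r H b' := by
  ext v
  rw [mem_NN, mem_NN]
  refine and_congr_right fun _ => and_congr_right fun _ => ?_
  exact forall_congr' fun s => imp_congr_right fun _ => St_congr h (v + s)

theorem NN_cnt {Ω : Type} (a : ℕ → Ω → ℕ) {u1 u2 D T Q x g r : ℕ} (H : Finset ℕ) (α : ℕ → ℕ)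
    (ω : Ω) (h1 : u1 ≤ D) (h2 : u2 ≤ D) (hDT : D ≤ T) :
    ((NN u1 u2 T Q x g r H (fun i => if i ∈ range (D + 1) then α i else a i ω)).card : ℝ) =
      cnt (NN u1 u2 D Q x g r H α)
        (fun v => Surv a ((Ioc D T).filter Nat.Prime) (sh H v)) ω := by
  classical
  have e : NN u1 u2 T Q x g r H (fun i => if i ∈ range (D + 1) then α i else a i ω) =
      (NN u1 u2 D Q x g r H α).filter (fun v => ω ∈ Surv a ((Ioc D T).filter Nat.Prime)
        (sh H v)) := by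
    ext v
    have hb : ∀ p ≤ D, p.Prime → (fun i => if i ∈ range (D + 1) then α i else a i ω) p = α p := by
      intro p hp _
      show (if p ∈ range (D + 1) then α p else a p ω) = α p
      rw [if_pos (mem_range.2 (by omega))]
    have hb2 : ∀ p ∈ (Ioc D T).filter Nat.Prime,
        (fun i => if i ∈ range (D + 1) then α i else a i ω) p = a p ω := by
      intro p hp
      rw [mem_filter, mem_Ioc] at hp
      show (if p ∈ range (D + 1) then α p else a p ω) = a p ω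
      rw [if_neg (by rw [mem_range]; omega)]
    rw [mem_filter, mem_NN, mem_NN]
    have hS : ω ∈ Surv a ((Ioc D T).filter Nat.Prime) (sh H v) ↔
        ∀ p ∈ (Ioc D T).filter Nat.Prime, ∀ h ∈ H, (v + h) % p ≠ a p ω := by
      unfold Surv
      rw [Set.mem_ofPred_eq]
      constructor
      · intro h p hp s hs
        exact h p hp (v + s) (mem_sh.2 ⟨s, hs, rfl⟩)
      · intro h p hp u hu
        obtain ⟨s, hs, rfl⟩ := mem_sh.1 hu
        exact h p hp s hs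
    rw [hS]
    constructor
    · rintro ⟨g1, g2, g3⟩
      refine ⟨⟨g1, g2, fun s hs => ?_⟩, fun p hp s hs => ?_⟩
      · have g4 := ((St_split h1 h2 hDT (v + s)).1 (g3 s hs)).1
        exact (St_congr hb (v + s)).1 g4
      · have g4 := ((St_split h1 h2 hDT (v + s)).1 (g3 s hs)).2 p hp
        exact (hb2 p hp) ▸ g4
    · rintro ⟨⟨g1, g2, g3⟩, g4⟩
      refine ⟨g1, g2, fun s hs => (St_split h1 h2 hDT (v + s)).2 ⟨(St_congr hb (v + s)).2 (g3 s hs),
        fun p hp => ?_⟩⟩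
      have := hb2 p hp
      intro hc
      exact g4 p hp s hs (hc.trans this)
  rw [e, card_filter]
  unfold cnt
  push_cast
  refine sum_congr rfl fun v _ => ?_
  rw [Set.indicator_apply]

end N1

open N1 in
theorem t_N1 (h1 : S_det1) (h2 : S_sec) : S_N1 := by
  intro ν A c lam δ η θ hc hlam hδ hδ4 hη hη4 hθ hθ2 Ω _ P a hM
  refine ⟨4 / θ ^ 2 * (2 + 4 * (ν : ℝ) ^ 2), ?_⟩
  filter_upwards [h1 ν (A + 6) c η (θ / 2) lam hc hη hη4 (by positivity) hlam,
    levels ν A c lam δ η hc hδ hη (by linarith), prim_big lam η hη, main_big ν A δ η hδ hη hη4,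
    N1.log_top.eventually_ge_atTop 3, eventually_ge_atTop 1] with x hdet hlev hprim hmain hL3 hx1
  intro g H hPat hglam r hr hcop
  obtain ⟨hg1, hH0, hHg, hHle, hHc, hAdm⟩ := hPat
  obtain ⟨hw1, hw2, hyD, hDT, hD100, hD6, hD40, hDlam, hy2⟩ := hlev
  obtain ⟨D, hD⟩ : ∃ D : ℕ, D = D0 c (A + 6) x := ⟨_, rfl⟩
  obtain ⟨T, hT⟩ : ∃ T : ℕ, T = TT δ x := ⟨_, rfl⟩
  obtain ⟨Q, hQ⟩ : ∃ Q : ℕ, Q = PP η x := ⟨_, rfl⟩
  obtain ⟨y, hy⟩ : ∃ y : ℕ, y = yy η x := ⟨_, rfl⟩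
  obtain ⟨u1, hu1⟩ : ∃ u1 : ℕ, u1 = w1 c x := ⟨_, rfl⟩
  obtain ⟨u2, hu2⟩ : ∃ u2 : ℕ, u2 = w2 c x := ⟨_, rfl⟩
  obtain ⟨L, hL⟩ : ∃ L : ℝ, L = Real.log x := ⟨_, rfl⟩
  obtain ⟨k, hk⟩ : ∃ k : ℕ, k = H.card := ⟨_, rfl⟩
  rw [← hD] at hw1 hw2 hyD hDT hD100 hD6 hD40 hDlam
  rw [← hu1] at hw1
  rw [← hu2] at hw2
  rw [← hy] at hyD hy2
  rw [← hT] at hDT
  rw [← hL] at hglam hprim hL3 hD6 hD40 hDlam
  rw [← hQ] at hprim
  rw [← hk] at hHc
  have hX0 := hmain k hHc y hy hy2 (by rw [← hT]; omega)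
  rw [← hQ, ← hT, ← hL] at hX0
  have hdet' := hdet g H (by rw [← hL]; exact hglam) ⟨hg1, hH0, hHg, hHle, by rw [← hk]; exact hHc,
    hAdm⟩ r hr hcop
  rw [← hQ, ← hy, ← hD, ← hu1, ← hu2, ← hk] at hdet'
  rw [← hQ, ← hy, ← hT, ← hu1, ← hu2, ← hL, ← hk]
  obtain ⟨B, hB⟩ : ∃ B : Finset ℕ, B = (Ioc D T).filter Nat.Prime := ⟨_, rfl⟩
  obtain ⟨X0, hX0e⟩ : ∃ X0 : ℝ, X0 = ((x : ℝ) / (2 * Q)) * pr (k : ℝ) y T := ⟨_, rfl⟩
  rw [← hX0e] at hX0
  have hL0 : 0 < L := by linarith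
  have hLA : 0 < L ^ A := by positivity
  have hX0p : 0 < X0 := by linarith
  have hgD : g < D := by
    have : (g : ℝ) < D := lt_of_le_of_lt hglam hDlam
    exact_mod_cast this
  have hgQ : g < Q := by
    have : (g : ℝ) < Q := lt_of_le_of_lt hglam hprim
    exact_mod_cast this
  have hkν : (k : ℝ) ≤ ν := by exact_mod_cast hHc
  have hk2 : (k : ℝ) ^ 2 ≤ (ν : ℝ) ^ 2 := pow_le_pow_left₀ (Nat.cast_nonneg k) hkν 2
  have key : ∀ α : ℕ → ℕ, P.real {ω | ((NN u1 u2 T Q x g r H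
      (fun i => if i ∈ range (D + 1) then α i else a i ω)).card : ℝ) <
      (1 - θ) * ((x : ℝ) / (2 * Q)) * pr (k : ℝ) y T} ≤
      4 / θ ^ 2 * (2 + 4 * (ν : ℝ) ^ 2) / L ^ A := by
    intro α
    obtain ⟨I, hI⟩ : ∃ I : Finset ℕ, I = NN u1 u2 D Q x g r H α := ⟨_, rfl⟩
    have hd : (1 - θ / 2) * ((x : ℝ) / (2 * Q)) * pr (k : ℝ) y D ≤ (I.card : ℝ) := by
      rw [hI]
      exact hdet' α
    have hDTpos : 0 < pr (k : ℝ) D T := prk_pos (by omega)
    obtain ⟨μ, hμ⟩ : ∃ μ : ℝ, μ = I.card * pr (k : ℝ) D T := ⟨_, rfl⟩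
    have hμ1 : (1 - θ / 2) * X0 ≤ μ := by
      rw [hμ, hX0e]
      have e1 := mul_le_mul_of_nonneg_right hd hDTpos.le
      have e2 : (1 - θ / 2) * ((x : ℝ) / (2 * Q)) * pr (k : ℝ) y D * pr (k : ℝ) D T =
          (1 - θ / 2) * (((x : ℝ) / (2 * Q)) * pr (k : ℝ) y T) := by
        rw [← pr_split (k : ℝ) hyD hDT]
        ring
      linarith
    have hμ2 : 3 / 4 * X0 ≤ μ := by
      have : 3 / 4 * X0 ≤ (1 - θ / 2) * X0 := mul_le_mul_of_nonneg_right (by linarith) hX0p.le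
      linarith
    have hμ0 : 0 < μ := by
      have : 0 < 3 / 4 * X0 := by positivity
      linarith
    have hIv : ∀ v ∈ I, v + g ≤ x ∧ v % Q = r := by
      intro v hv
      rw [hI, mem_NN, mem_Ioc] at hv
      exact ⟨by omega, hv.2.1⟩
    have hsec := h2 Ω P a hM I (fun v => sh H v) k x D B (by omega) hD100 hx1
      (by
        rw [← hL]
        refine le_trans ?_ hD40
        gcongr) (fun p hp => by
        rw [hB, mem_filter, mem_Ioc] at hp
        exact ⟨hp.2, hp.1.1⟩) (fun v hv => by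
        obtain ⟨f1, f2⟩ := hIv v hv
        refine ⟨(card_sh H v).trans hk.symm, fun n hn => ?_, fun p hp n hn n' hn' hne => ?_⟩
        · obtain ⟨s, hs, rfl⟩ := mem_sh.1 hn
          have := hHle s hs
          omega
        · rw [hB, mem_filter, mem_Ioc] at hp
          obtain ⟨s, hs, rfl⟩ := mem_sh.1 hn
          obtain ⟨s', hs', rfl⟩ := mem_sh.1 hn'
          intro he
          have h3 : s ≡ s' [MOD p] := Nat.ModEq.add_left_cancel' v he
          have k1 := hHle s hs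
          have k2 := hHle s' hs'
          have h4 : s % p = s' % p := h3
          rw [Nat.mod_eq_of_lt (by omega), Nat.mod_eq_of_lt (by omega)] at h4
          exact hne (by rw [h4])) (fun v hv w hw hvw => by
        obtain ⟨f1, f2⟩ := hIv v hv
        obtain ⟨k1, k2⟩ := hIv w hw
        have hno : ∀ s t d : ℕ, s % Q = r → t % Q = r → s = t + d → d ≤ g → d = 0 := by
          intro s t d hs ht hst hdg
          have h3 : t + d ≡ t + 0 [MOD Q] := by
            rw [add_zero, ← hst]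
            exact hs.trans ht.symm
          have h4 : d ≡ 0 [MOD Q] := Nat.ModEq.add_left_cancel' t h3
          have h6 : Q ∣ d := (Nat.modEq_zero_iff_dvd).1 h4
          rcases Nat.eq_zero_or_pos d with h7 | h7
          · exact h7
          · have h8 := Nat.le_of_dvd h7 h6
            omega
        rw [disjoint_left]
        intro n hn hn'
        obtain ⟨s, hs, hsn⟩ := mem_sh.1 hn
        obtain ⟨s', hs', hsn'⟩ := mem_sh.1 hn'
        have j1 := hHle s hs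
        have j2 := hHle s' hs'
        rcases Nat.le_total v w with hle | hle
        · have := hno w v (w - v) k2 f2 (by omega) (by omega)
          exact hvw (by omega)
        · have := hno v w (v - w) f2 k2 (by omega) (by omega)
          exact hvw (by omega)) (θ / 2 * μ) (by positivity)
    have hprod : ∏ p ∈ B, (1 - (k : ℝ) / p) = pr (k : ℝ) D T := by
      rw [hB]
      rfl
    rw [hprod, ← hμ, ← hL] at hsec
    have hsub : {ω | ((NN u1 u2 T Q x g r H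
        (fun i => if i ∈ range (D + 1) then α i else a i ω)).card : ℝ) <
        (1 - θ) * ((x : ℝ) / (2 * Q)) * pr (k : ℝ) y T} ⊆
        {ω | θ / 2 * μ ≤ |cnt I (fun i => Surv a B (sh H i)) ω - μ|} := by
      intro ω hω
      rw [Set.mem_ofPred_eq] at hω ⊢
      rw [NN_cnt a H α ω hw1 hw2 hDT, ← hI, ← hB] at hω
      have e1 : (1 - θ) * ((x : ℝ) / (2 * Q)) * pr (k : ℝ) y T = (1 - θ) * X0 := by
        rw [hX0e]
        ring
      rw [e1] at hω
      have e2 : (1 - θ) * X0 ≤ (1 - θ / 2) * μ := by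
        have e3 : (1 - θ) ≤ (1 - θ / 2) * (1 - θ / 2) := by nlinarith [sq_nonneg θ]
        have e4 : (1 - θ) * X0 ≤ (1 - θ / 2) * (1 - θ / 2) * X0 :=
          mul_le_mul_of_nonneg_right e3 hX0p.le
        have e5 : (1 - θ / 2) * ((1 - θ / 2) * X0) ≤ (1 - θ / 2) * μ :=
          mul_le_mul_of_nonneg_left hμ1 (by linarith)
        linarith
      rw [abs_sub_comm]
      refine le_trans ?_ (le_abs_self _)
      linarith
    have hpm := Pool.Agent.T2H32.BF.prob hM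
    refine (measureReal_mono hsub (measure_ne_top P _)).trans (hsec.trans ?_)
    have hDp : (0 : ℝ) < D := by
      have : (0 : ℝ) < L ^ (A + 6) := by positivity
      linarith
    have hκ : 4 * (k : ℝ) ^ 2 * L / D ≤ 4 * (ν : ℝ) ^ 2 / L ^ A := by
      rw [div_le_div_iff₀ hDp hLA]
      have e1 : L * L ^ A ≤ D := by
        refine le_trans ?_ hD6
        have e2 : L ^ (A + 6) = L * L ^ A * L ^ 5 := by ring
        have e3 : 1 ≤ L ^ 5 := one_le_pow₀ (by linarith)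
        have e4 : 0 ≤ L * L ^ A := by positivity
        rw [e2]
        nlinarith
      calc 4 * (k : ℝ) ^ 2 * L * L ^ A = 4 * (k : ℝ) ^ 2 * (L * L ^ A) := by ring
        _ ≤ 4 * (ν : ℝ) ^ 2 * D := by gcongr
    have e0 : ∀ κ : ℝ, (μ + κ * μ ^ 2) / (θ / 2 * μ) ^ 2 = 4 / θ ^ 2 * (1 / μ + κ) := by
      intro κ
      field_simp
      ring
    rw [e0]
    have e2 : 1 / μ ≤ 2 / L ^ A := by
      rw [div_le_div_iff₀ hμ0 hLA]
      linarith
    have e3 : 1 / μ + 4 * (k : ℝ) ^ 2 * L / D ≤ (2 + 4 * (ν : ℝ) ^ 2) / L ^ A := by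
      have : (2 + 4 * (ν : ℝ) ^ 2) / L ^ A = 2 / L ^ A + 4 * (ν : ℝ) ^ 2 / L ^ A := by ring
      linarith
    calc 4 / θ ^ 2 * (1 / μ + 4 * (k : ℝ) ^ 2 * L / D) ≤
          4 / θ ^ 2 * ((2 + 4 * (ν : ℝ) ^ 2) / L ^ A) :=
          mul_le_mul_of_nonneg_left e3 (by positivity)
      _ = 4 / θ ^ 2 * (2 + 4 * (ν : ℝ) ^ 2) / L ^ A := by ring
  refine Pool.Agent.T2H32.BF.cond hM (range (D + 1)) B ?_
    (fun b => ((NN u1 u2 T Q x g r H b).card : ℝ) < (1 - θ) * ((x : ℝ) / (2 * Q)) * pr (k : ℝ) y T)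
    ?_ _ (by positivity) key
  · rw [disjoint_left]
    intro p hp hp'
    rw [hB, mem_filter, mem_Ioc] at hp'
    rw [mem_range] at hp
    omega
  · intro b b' hbb
    have e : NN u1 u2 T Q x g r H b = NN u1 u2 T Q x g r H b' := by
      refine NN_congr fun p hp hpp => hbb p ?_
      rw [mem_union, mem_range, hB, mem_filter, mem_Ioc]
      rcases Nat.lt_or_ge D p with h3 | h3
      · exact Or.inr ⟨⟨h3, hp⟩, hpp⟩
      · exact Or.inl (by omega)
    show ((NN u1 u2 T Q x g r H b).card : ℝ) < _ ↔ ((NN u1 u2 T Q x g r H b').card : ℝ) < _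
    rw [e]

end Pool.Agent.H559.EH
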