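import Pool.Agent.H559.EH.Stm
import Pool.Agent.H559.EG.N3

set_option autoImplicit false

/-! # The weak patterns at level `x^δ`: numerical lemmas and the conditioning argument

Adaptation of `Pool/Agent/H559/EG/N3.lean` to general patterns `K`. -/

open Finset MeasureTheory ProbabilityTheory Filter Topology
open Pool.Agent.T2H32.BF (Model V V_pos V_anti V_ratio mertens pnt cnt Surv)
open Pool.Agent.H559.BS (TT)
open Pool.Agent.H559.IX (R0 Lim)
open Pool.Agent.H559.EG (yy PP w1 w2 St Wk pr)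

namespace Pool.Agent.H559.EH.N3

open Pool.Agent.H559.EG.N3 (yy_top PP_big pr_mul PP_pos PP_le Wk_iff Wk_congr cnt_eq mod_ne same_mod)

theorem D0_ge (c : ℝ) (A : ℕ) (hc : 1 < c) : ∀ᶠ x : ℕ in atTop,
    Real.log x ^ (A + 1) / 2 ≤ (D0 c A x : ℝ) := by
  have h1 : Tendsto (fun x : ℕ => Real.log x) atTop atTop := Pool.Agent.H559.BS.log_top
  filter_upwards [h1.eventually_ge_atTop 2] with x hx
  have h2 : Real.log x ^ (A + 1) ≤ Real.log x ^ (c + A) := by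
    rw [← Real.rpow_natCast]
    refine Real.rpow_le_rpow_of_exponent_le (by linarith) ?_
    push_cast
    linarith
  have h3 : Real.log x ^ (c + A) < (D0 c A x : ℝ) + 1 := Nat.lt_floor_add_one _
  have h4 : (2 : ℝ) ≤ Real.log x ^ (A + 1) := by
    calc (2 : ℝ) ≤ Real.log x := hx
      _ = Real.log x ^ 1 := (pow_one _).symm
      _ ≤ Real.log x ^ (A + 1) := pow_le_pow_right₀ (by linarith) (by omega)
  linarith

theorem D0_TT (c δ : ℝ) (A : ℕ) (hδ : 0 < δ) : ∀ᶠ x : ℕ in atTop, D0 c A x ≤ TT δ x := by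
  have h1 : Tendsto (fun x : ℕ => Real.log x) atTop atTop := Pool.Agent.H559.BS.log_top
  filter_upwards [h1.eventually_ge_atTop 1, Pool.Agent.H559.BS.log_pow_le ⌈c + A⌉₊ δ 1 hδ] with x hx h2
  unfold D0 TT
  refine Nat.floor_le_floor ?_
  rw [one_mul] at h2
  refine le_trans ?_ h2
  rw [← Real.rpow_natCast]
  exact Real.rpow_le_rpow_of_exponent_le hx (Nat.le_ceil _)

theorem small_D0 (c η : ℝ) (A : ℕ) (hc : 1 < c) (hη : η ≤ 1 / 4) : ∀ᶠ x : ℕ in atTop,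
    yy η x ≤ D0 c A x ∧ w2 c x ≤ D0 c A x ∧ w1 c x ≤ D0 c A x := by
  have h1 : Tendsto (fun x : ℕ => Real.log x) atTop atTop := Pool.Agent.H559.BS.log_top
  have hA : (0 : ℝ) ≤ A := Nat.cast_nonneg A
  filter_upwards [h1.eventually_ge_atTop 1, eventually_ge_atTop 2] with x hx hx2
  have hw2 : w2 c x ≤ D0 c A x := by
    unfold w2 D0
    exact Nat.floor_le_floor (Real.rpow_le_rpow_of_exponent_le hx (by linarith))
  refine ⟨?_, hw2, ?_⟩
  · unfold yy D0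
    refine Nat.floor_le_floor ?_
    calc η * Real.log x ≤ 1 * Real.log x := by
          gcongr
          linarith
      _ = Real.log x ^ (1 : ℝ) := by rw [one_mul, Real.rpow_one]
      _ ≤ _ := Real.rpow_le_rpow_of_exponent_le hx (by linarith)
  · refine le_trans ?_ hw2
    unfold w1 w2
    refine Nat.floor_le_floor ?_
    have h3 : (2 : ℝ) ≤ x := by exact_mod_cast hx2
    refine Real.rpow_le_rpow (Real.log_nonneg (by linarith)) ?_ (by linarith)
    exact Real.log_le_log (by positivity) (by linarith)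

/-- `1 - k u ≥ (1 - u)^(2 k)` for `0 ≤ u ≤ 1`, `k u ≤ 1/2` -/
theorem pow_two_k (k : ℕ) (u : ℝ) (h0 : 0 ≤ u) (h1 : u ≤ 1) (h2 : k * u ≤ 1 / 2) :
    (1 - u) ^ (2 * k) ≤ 1 - k * u := by
  have h3 : 1 - u ≤ Real.exp (-u) := by
    have := Real.add_one_le_exp (-u)
    linarith
  have h4 : (1 - u) ^ (2 * k) ≤ Real.exp (-u) ^ (2 * k) := pow_le_pow_left₀ (by linarith) h3 _
  have h5 : Real.exp (-u) ^ (2 * k) = Real.exp (-(2 * (k * u))) := by
    rw [← Real.exp_nat_mul]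
    congr 1
    push_cast
    ring
  rw [h5] at h4
  refine h4.trans ?_
  obtain ⟨t, ht⟩ : ∃ t, t = (k : ℝ) * u := ⟨_, rfl⟩
  have ht0 : 0 ≤ t := by rw [ht]; positivity
  rw [← ht] at h2 ⊢
  rw [Real.exp_neg, inv_le_comm₀ (Real.exp_pos _) (by linarith)]
  have h6 := Real.add_one_le_exp (2 * t)
  refine le_trans ?_ h6
  rw [inv_le_comm₀ (by linarith) (by linarith)]
  rw [inv_le_iff_one_le_mul₀ (by linarith)]
  nlinarith

theorem pr_pos (k a b : ℕ) (ha : 2 * k ≤ a) : 0 < pr k a b := by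
  unfold pr
  refine prod_pos fun p hp => ?_
  have h0 := (mem_Ioc.1 (mem_filter.1 hp).1).1
  have h1 : (2 : ℝ) * k < p := by exact_mod_cast (by omega : 2 * k < p)
  have hp0 : (0 : ℝ) < p := by
    have : (0 : ℝ) ≤ k := Nat.cast_nonneg k
    linarith
  have h2 : (k : ℝ) / p < 1 := by
    rw [div_lt_one hp0]
    have : (0 : ℝ) ≤ k := Nat.cast_nonneg k
    linarith
  linarith

theorem V_le_one (b : ℕ) : V b ≤ 1 := by
  unfold V
  refine prod_le_one (fun p hp => ?_) (fun p hp => ?_)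
  · have h1 : (2 : ℝ) ≤ p := by exact_mod_cast (mem_filter.1 hp).2.two_le
    have h2 : 1 / (p : ℝ) ≤ 1 / 2 := by gcongr
    linarith
  · have h3 : 0 ≤ 1 / (p : ℝ) := by positivity
    linarith

theorem pr_ge (k ν a b : ℕ) (hk : k ≤ ν) (ha : 2 * ν ≤ a) : V b ^ (2 * ν) ≤ pr k a b := by
  have hsub : (Ioc a b).filter Nat.Prime ⊆ (range (b + 1)).filter Nat.Prime := by
    intro p hp
    rw [mem_filter, mem_Ioc] at hp
    rw [mem_filter, mem_range]
    exact ⟨by omega, hp.2⟩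
  have hf : ∀ p : ℕ, p.Prime → 0 < 1 - 1 / (p : ℝ) ∧ 1 - 1 / (p : ℝ) ≤ 1 := by
    intro p hp
    have h1 : (2 : ℝ) ≤ p := by exact_mod_cast hp.two_le
    have h2 : 1 / (p : ℝ) ≤ 1 / 2 := by gcongr
    have h3 : 0 ≤ 1 / (p : ℝ) := by positivity
    constructor <;> linarith
  have h1 : V b ≤ ∏ p ∈ (Ioc a b).filter Nat.Prime, (1 - 1 / (p : ℝ)) := by
    unfold V
    rw [← prod_sdiff hsub]
    have h2 : ∏ p ∈ ((range (b + 1)).filter Nat.Prime) \ ((Ioc a b).filter Nat.Prime), (1 - 1 / (p : ℝ)) ≤ 1 := by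
      refine prod_le_one (fun p hp => (hf p (mem_filter.1 (mem_sdiff.1 hp).1).2).1.le)
        (fun p hp => (hf p (mem_filter.1 (mem_sdiff.1 hp).1).2).2)
    have h3 : 0 ≤ ∏ p ∈ (Ioc a b).filter Nat.Prime, (1 - 1 / (p : ℝ)) :=
      prod_nonneg fun p hp => (hf p (mem_filter.1 hp).2).1.le
    calc _ ≤ 1 * ∏ p ∈ (Ioc a b).filter Nat.Prime, (1 - 1 / (p : ℝ)) := by gcongr
      _ = _ := one_mul _
  have hV := V_pos b
  calc V b ^ (2 * ν) ≤ V b ^ (2 * k) :=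
        pow_le_pow_of_le_one hV.le (V_le_one b) (by omega)
    _ ≤ (∏ p ∈ (Ioc a b).filter Nat.Prime, (1 - 1 / (p : ℝ))) ^ (2 * k) :=
        pow_le_pow_left₀ hV.le h1 _
    _ = ∏ p ∈ (Ioc a b).filter Nat.Prime, (1 - 1 / (p : ℝ)) ^ (2 * k) := by rw [prod_pow]
    _ ≤ pr k a b := by
        unfold pr
        refine prod_le_prod (fun p hp => ?_) (fun p hp => ?_)
        · have := (hf p (mem_filter.1 hp).2).1
          positivity
        · have h0 := (mem_Ioc.1 (mem_filter.1 hp).1).1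
          have h4 : (2 : ℝ) * k ≤ p := by exact_mod_cast (by omega : 2 * k ≤ p)
          have hp0 : (0 : ℝ) < p := by exact_mod_cast (mem_filter.1 hp).2.pos
          have h5 := pow_two_k k (1 / (p : ℝ)) (by positivity) (by
            have := (hf p (mem_filter.1 hp).2).1
            linarith) (by
            rw [mul_one_div, div_le_iff₀ hp0]
            linarith)
          have h6 : (k : ℝ) * (1 / (p : ℝ)) = k / p := by ring
          rw [h6] at h5
          exact h5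

theorem main_ge (ν A : ℕ) (δ η : ℝ) (hδ : 0 < δ) (hη : 0 < η) (hη4 : η ≤ 1 / 4) : ∀ᶠ x : ℕ in atTop,
    ∀ k ≤ ν, Real.log x ^ A ≤ (x : ℝ) / (2 * PP η x) * pr (k : ℕ) (yy η x) (TT δ x) := by
  have hl : Tendsto (fun x : ℕ => Real.log x) atTop atTop := Pool.Agent.H559.BS.log_top
  have hg := Pool.Agent.H559.BS.g_pos
  obtain ⟨κ, hκ⟩ : ∃ κ : ℝ, κ = Pool.Agent.H559.BS.g / (2 * δ) := ⟨_, rfl⟩
  have hκ0 : 0 < κ := by rw [hκ]; positivity
  filter_upwards [Pool.Agent.H559.BS.V_TT δ hδ, (yy_top η hη).eventually_ge_atTop (2 * ν),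
    hl.eventually_ge_atTop 1, eventually_ge_atTop 1,
    Pool.Agent.H559.BS.log_pow_le (A + 2 * ν) (1 / 2) (2 / κ ^ (2 * ν)) (by norm_num)] with x h1 h2 h3 h4 h5
  intro k hk
  have hx : (1 : ℝ) ≤ x := by exact_mod_cast h4
  have hP0 : (0 : ℝ) < PP η x := by exact_mod_cast PP_pos η x
  have h6 := PP_le η hη4 x h4
  have h7 : (x : ℝ) ^ (1 / 2 : ℝ) * (x : ℝ) ^ (1 / 2 : ℝ) = x := by
    rw [← Real.rpow_add (by linarith)]
    norm_num
  have hs : 0 < (x : ℝ) ^ (1 / 2 : ℝ) := by positivity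
  have h8 : (x : ℝ) ^ (1 / 2 : ℝ) / 2 ≤ (x : ℝ) / (2 * PP η x) := by
    rw [div_le_div_iff₀ (by norm_num) (by positivity)]
    nlinarith
  have h9 : (κ / Real.log x) ^ (2 * ν) ≤ pr (k : ℕ) (yy η x) (TT δ x) := by
    refine le_trans ?_ (pr_ge k ν _ _ hk h2)
    have h10 : κ / Real.log x ≤ V (TT δ x) := by
      rw [div_le_iff₀ (by linarith), hκ]
      exact h1.2
    gcongr
  calc Real.log x ^ A ≤ (x : ℝ) ^ (1 / 2 : ℝ) / 2 * (κ / Real.log x) ^ (2 * ν) := by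
        have h11 : 2 / κ ^ (2 * ν) * Real.log x ^ (A + 2 * ν) ≤ (x : ℝ) ^ (1 / 2 : ℝ) := h5
        have h12 : (2 / κ ^ (2 * ν) * Real.log x ^ (A + 2 * ν)) / 2 * (κ / Real.log x) ^ (2 * ν) =
            Real.log x ^ A := by
          have h13 : Real.log x ^ (2 * ν) ≠ 0 := by positivity
          have h14 : κ ^ (2 * ν) ≠ 0 := by positivity
          rw [div_pow, pow_add]
          field_simp
        rw [← h12]
        gcongr
    _ ≤ _ := by gcongr

open Classical in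
/-- the set in question -/
noncomputable def NS (u1 u2 T Q r lo hi : ℕ) (K : Finset ℕ) (b : ℕ → ℕ) : Finset ℕ :=
  (Ioc lo hi).filter (fun v => v % Q = r ∧ ∀ h ∈ K, Wk u1 u2 T b (v + h))

theorem mem_NS (u1 u2 T Q r lo hi : ℕ) (K : Finset ℕ) (b : ℕ → ℕ) (v : ℕ) :
    v ∈ NS u1 u2 T Q r lo hi K b ↔
    v ∈ Ioc lo hi ∧ v % Q = r ∧ ∀ h ∈ K, Wk u1 u2 T b (v + h) := by
  classical
  unfold NS
  exact mem_filter

theorem NS_congr (u1 u2 T Q r lo hi : ℕ) (K : Finset ℕ) (b b' : ℕ → ℕ) (h : ∀ p ≤ T, b p = b' p) :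
    NS u1 u2 T Q r lo hi K b = NS u1 u2 T Q r lo hi K b' := by
  ext v
  rw [mem_NS, mem_NS]
  refine and_congr_right fun _ => and_congr_right fun _ => ?_
  exact ⟨fun h1 k hk => (Wk_congr u1 u2 T b b' h (v + k)).1 (h1 k hk),
    fun h1 k hk => (Wk_congr u1 u2 T b b' h (v + k)).2 (h1 k hk)⟩

variable {Ω : Type} [MeasurableSpace Ω] {P : Measure Ω} {a : ℕ → Ω → ℕ}

set_option linter.unusedVariables false in
/-- the estimate after fixing the classes of the primes `≤ D` -/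
theorem fixed (hM : Model P a) (h2 : S_sec) (x g r u1 u2 D T Q : ℕ) (K : Finset ℕ) (θ Y : ℝ)
    (hθ : 0 < θ) (hθ2 : θ ≤ 1 / 2)
    (hY : 0 < Y) (hW : 0 < pr K.card D T) (hu1 : u1 ≤ D) (hu2 : u2 ≤ D) (hDT : D ≤ T) (hD : 100 ≤ D)
    (hDk : 2 * K.card ≤ D) (hx : 1 ≤ x)
    (hlog : 4 * (K.card : ℝ) ^ 2 * Real.log x ≤ D) (hgD : g < D) (hgQ : g < Q) (hK : ∀ h ∈ K, h ≤ g)
    (α : ℕ → ℕ)
    (hcard : ((NS u1 u2 D Q r (x / 2) (x - g - 1) K α).card : ℝ) ≤ (1 + θ / 4) * Y) (N : Ω → Finset ℕ)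
    (hN : ∀ ω v, v ∈ N ω ↔ v ∈ NS u1 u2 D Q r (x / 2) (x - g - 1) K α ∧
      ∀ p ∈ (Ioc D T).filter Nat.Prime, ∀ h ∈ K, (v + h) % p ≠ a p ω) :
    P.real {ω | (1 + θ) * (Y * pr K.card D T) < ((N ω).card : ℝ)} ≤
      16 / θ ^ 2 * (1 / (Y * pr K.card D T) + 4 * (K.card : ℝ) ^ 2 * Real.log x / D) := by
  have := Pool.Agent.T2H32.BF.prob hM
  have hx1 : (1 : ℝ) ≤ x := by exact_mod_cast hx
  have hl : 0 ≤ Real.log x := Real.log_nonneg hx1
  have hD0 : (0 : ℝ) < D := by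
    have : (100 : ℝ) ≤ D := by exact_mod_cast hD
    linarith
  obtain ⟨I, hI⟩ : ∃ I, I = NS u1 u2 D Q r (x / 2) (x - g - 1) K α := ⟨_, rfl⟩
  rw [← hI] at hcard
  obtain ⟨B, hB⟩ : ∃ B, B = (Ioc D T).filter Nat.Prime := ⟨_, rfl⟩
  have hIm : ∀ v ∈ I, x / 2 < v ∧ v ≤ x - g - 1 ∧ v % Q = r := by
    intro v hv
    rw [hI, mem_NS, mem_Ioc] at hv
    exact ⟨hv.1.1, hv.1.2, hv.2.1⟩
  have hBp : ∀ p ∈ B, p.Prime ∧ D < p := by
    intro p hp
    rw [hB, mem_filter, mem_Ioc] at hp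
    exact ⟨hp.2, hp.1.1⟩
  have hprod : ∏ p ∈ B, (1 - ((K.card : ℕ) : ℝ) / (p : ℝ)) = pr K.card D T := by
    rw [hB]
    unfold pr
    rfl
  obtain ⟨Y', hY'⟩ : ∃ Y', Y' = Y * pr K.card D T := ⟨_, rfl⟩
  have hY0 : 0 < Y' := by rw [hY']; positivity
  obtain ⟨μ', hμ'⟩ : ∃ μ', μ' = (1 + θ / 4) * Y' := ⟨_, rfl⟩
  have hμ0 : 0 < μ' := by rw [hμ']; positivity
  have hμ1 : Y' ≤ μ' := by
    rw [hμ']
    nlinarith
  have hAm : ∀ v n : ℕ, n ∈ K.image (fun h => v + h) → v ≤ n ∧ n ≤ v + g := by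
    intro v n hn
    obtain ⟨h, hh, rfl⟩ := mem_image.1 hn
    have := hK h hh
    omega
  have hsec := h2 Ω P a hM I (fun v => K.image (fun h => v + h)) K.card x D B hDk hD hx hlog hBp (by
    intro v hv
    obtain ⟨h3, h4, h5⟩ := hIm v hv
    refine ⟨?_, ?_, ?_⟩
    · exact card_image_of_injective _ (fun h h' e => Nat.add_left_cancel e)
    · intro n hn
      have := hAm v n hn
      omega
    · intro p hp n hn n' hn' hne
      have hpD := (hBp p hp).2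
      have q1 := hAm v n hn
      have q2 := hAm v n' hn'
      rcases lt_or_gt_of_ne hne with h6 | h6
      · exact mod_ne p n n' h6 (by omega)
      · exact (mod_ne p n' n h6 (by omega)).symm) (by
    intro v hv w hw hne
    obtain ⟨_, _, h5⟩ := hIm v hv
    obtain ⟨_, _, h6⟩ := hIm w hw
    rw [disjoint_left]
    intro n hn hn'
    have q1 := hAm v n hn
    have q2 := hAm w n hn'
    rcases lt_or_gt_of_ne hne with h7 | h7
    · have := same_mod Q v w (h5.trans h6.symm) h7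
      omega
    · have := same_mod Q w v (h6.trans h5.symm) h7
      omega) (θ / 4 * μ') (by positivity)
  rw [hprod] at hsec
  obtain ⟨μ, hμ⟩ : ∃ μ, μ = (I.card : ℝ) * pr K.card D T := ⟨_, rfl⟩
  rw [← hμ] at hsec
  have hμm : μ ≤ μ' := by
    rw [hμ, hμ', hY', ← mul_assoc]
    gcongr
  have hμn : 0 ≤ μ := by rw [hμ]; positivity
  have hsub : {ω | (1 + θ) * (Y * pr K.card D T) < ((N ω).card : ℝ)} ⊆
      {ω | θ / 4 * μ' ≤ |cnt I (fun i => Surv a B (K.image (fun h => i + h))) ω - μ|} := by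
    intro ω hω
    have h3 : (1 + θ) * (Y * pr K.card D T) < ((N ω).card : ℝ) := hω
    have h4 : cnt I (fun i => Surv a B (K.image (fun h => i + h))) ω = ((N ω).card : ℝ) := by
      refine cnt_eq a I B (fun i => K.image (fun h => i + h)) (N ω) ω fun v => ?_
      rw [hN, ← hI, ← hB]
      refine and_congr_right fun _ => ?_
      constructor
      · intro h5 p hp u hu
        obtain ⟨h, hh, rfl⟩ := mem_image.1 hu
        exact h5 p hp h hh
      · intro h5 p hp h hh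
        exact h5 p hp (v + h) (mem_image.2 ⟨h, hh, rfl⟩)
    show θ / 4 * μ' ≤ |cnt I (fun i => Surv a B (K.image (fun h => i + h))) ω - μ|
    rw [h4]
    refine le_trans ?_ (le_abs_self _)
    rw [← hY'] at h3
    have h5 : μ' + θ / 4 * μ' ≤ (1 + θ) * Y' := by
      rw [hμ']
      have e : (1 + θ) * Y' - ((1 + θ / 4) * Y' + θ / 4 * ((1 + θ / 4) * Y')) = θ * (1 / 2 - θ / 16) * Y' := by ring
      have h6 : 0 ≤ θ * (1 / 2 - θ / 16) * Y' := mul_nonneg (mul_nonneg hθ.le (by linarith)) hY0.le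
      linarith
    linarith
  refine (measureReal_mono hsub).trans (hsec.trans ?_)
  obtain ⟨q, hq⟩ : ∃ q, q = 4 * (K.card : ℝ) ^ 2 * Real.log x / D := ⟨_, rfl⟩
  have hq0 : 0 ≤ q := by rw [hq]; positivity
  rw [← hq]
  have h7 : μ + q * μ ^ 2 ≤ μ' + q * μ' ^ 2 := by gcongr
  calc (μ + q * μ ^ 2) / (θ / 4 * μ') ^ 2
      ≤ (μ' + q * μ' ^ 2) / (θ / 4 * μ') ^ 2 := by gcongr
    _ = 16 / θ ^ 2 * (1 / μ' + q) := by
        field_simp
        ring
    _ ≤ 16 / θ ^ 2 * (1 / (Y * pr K.card D T) + q) := by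
        rw [← hY']
        gcongr

/-- the estimate with random classes -/
theorem random (hM : Model P a) (h2 : S_sec) (x g r u1 u2 D T Q : ℕ) (K : Finset ℕ) (θ Y : ℝ)
    (hθ : 0 < θ) (hθ2 : θ ≤ 1 / 2)
    (hY : 0 < Y) (hW : 0 < pr K.card D T) (hu1 : u1 ≤ D) (hu2 : u2 ≤ D) (hDT : D ≤ T) (hD : 100 ≤ D)
    (hDk : 2 * K.card ≤ D) (hx : 1 ≤ x)
    (hlog : 4 * (K.card : ℝ) ^ 2 * Real.log x ≤ D) (hgD : g < D) (hgQ : g < Q) (hK : ∀ h ∈ K, h ≤ g)
    (hdet : ∀ b : ℕ → ℕ, (∀ p, p.Prime → b p < p) →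
      ((NS u1 u2 D Q r (x / 2) (x - g - 1) K b).card : ℝ) ≤ (1 + θ / 4) * Y) :
    P.real {ω | (1 + θ) * (Y * pr K.card D T) <
      ((NS u1 u2 T Q r (x / 2) (x - g - 1) K (fun q => a q ω)).card : ℝ)} ≤
      16 / θ ^ 2 * (1 / (Y * pr K.card D T) + 4 * (K.card : ℝ) ^ 2 * Real.log x / D) := by
  have := Pool.Agent.T2H32.BF.prob hM
  have hx1 : (1 : ℝ) ≤ x := by exact_mod_cast hx
  have hl : 0 ≤ Real.log x := Real.log_nonneg hx1
  have hη : 0 ≤ 16 / θ ^ 2 * (1 / (Y * pr K.card D T) + 4 * (K.card : ℝ) ^ 2 * Real.log x / D) := by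
    positivity
  have hc := Pool.Agent.T2H32.BF.cond hM (range (D + 1)) (Ioc D T) (by
    rw [disjoint_left]
    intro i hi hi'
    rw [mem_range] at hi
    rw [mem_Ioc] at hi'
    omega) (fun b => (∀ p ≤ D, p.Prime → b p < p) ∧ (1 + θ) * (Y * pr K.card D T) <
      ((NS u1 u2 T Q r (x / 2) (x - g - 1) K b).card : ℝ)) (by
    intro b b' hbb
    have hb : ∀ i ≤ T, b i = b' i := by
      intro i hi
      refine hbb i ?_
      rw [mem_union, mem_range, mem_Ioc]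
      omega
    rw [NS_congr u1 u2 T Q r (x / 2) (x - g - 1) K b b' hb]
    refine and_congr_left fun _ => ?_
    constructor
    · intro h3 p hp hpr
      rw [← hb p (hp.trans hDT)]
      exact h3 p hp hpr
    · intro h3 p hp hpr
      rw [hb p (hp.trans hDT)]
      exact h3 p hp hpr) _ hη (by
    intro α
    by_cases hα : ∀ p ≤ D, p.Prime → α p < p
    · have h3 : {ω | (fun b : ℕ → ℕ => (∀ p ≤ D, p.Prime → b p < p) ∧ (1 + θ) * (Y * pr K.card D T) <
          ((NS u1 u2 T Q r (x / 2) (x - g - 1) K b).card : ℝ)) (fun i => if i ∈ range (D + 1) then α i else a i ω)} ⊆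
          {ω | (1 + θ) * (Y * pr K.card D T) < ((NS u1 u2 T Q r (x / 2) (x - g - 1) K
            (fun i => if i ∈ range (D + 1) then α i else a i ω)).card : ℝ)} := fun ω hω => hω.2
      refine (measureReal_mono h3).trans ?_
      refine fixed hM h2 x g r u1 u2 D T Q K θ Y hθ hθ2 hY hW hu1 hu2 hDT hD hDk hx hlog hgD hgQ hK
        (fun p => if p ≤ D then α p else 0) (hdet _ ?_) _ ?_
      · intro p hp
        by_cases hpD : p ≤ D
        · rw [if_pos hpD]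
          exact hα p hpD hp
        · rw [if_neg hpD]
          exact hp.pos
      · intro ω v
        have e : ∀ p ≤ D, (fun i => if i ∈ range (D + 1) then α i else a i ω) p =
            (fun p => if p ≤ D then α p else 0) p := by
          intro p hp
          show (if p ∈ range (D + 1) then α p else a p ω) = (if p ≤ D then α p else 0)
          rw [if_pos (mem_range.2 (by omega)), if_pos hp]
        have e2 : ∀ p ∈ (Ioc D T).filter Nat.Prime, (if p ∈ range (D + 1) then α p else a p ω) = a p ω := by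
          intro p hp
          rw [mem_filter, mem_Ioc] at hp
          rw [if_neg]
          rw [mem_range]
          omega
        rw [mem_NS, mem_NS]
        constructor
        · rintro ⟨k1, k2, k3⟩
          refine ⟨⟨k1, k2, fun h hh => ?_⟩, fun p hp h hh => ?_⟩
          · have k4 := (Wk_iff u1 u2 D T _ hDT hu1 hu2 (v + h)).1 (k3 h hh)
            exact (Wk_congr u1 u2 D _ _ e (v + h)).1 k4.1
          · have k4 := (Wk_iff u1 u2 D T _ hDT hu1 hu2 (v + h)).1 (k3 h hh)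
            have k5 := k4.2 p hp
            rw [e2 p hp] at k5
            exact k5
        · rintro ⟨⟨k1, k2, k3⟩, k9⟩
          refine ⟨k1, k2, fun h hh => ?_⟩
          refine (Wk_iff u1 u2 D T _ hDT hu1 hu2 (v + h)).2
            ⟨(Wk_congr u1 u2 D _ _ e (v + h)).2 (k3 h hh), fun p hp => ?_⟩
          rw [e2 p hp]
          exact k9 p hp h hh
    · have h3 : {ω | (fun b : ℕ → ℕ => (∀ p ≤ D, p.Prime → b p < p) ∧ (1 + θ) * (Y * pr K.card D T) <
          ((NS u1 u2 T Q r (x / 2) (x - g - 1) K b).card : ℝ))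
            (fun i => if i ∈ range (D + 1) then α i else a i ω)} = ∅ := by
        ext ω
        constructor
        · intro hω
          exfalso
          refine hα fun p hp hpr => ?_
          have h4 := hω.1 p hp hpr
          have h5 : (if p ∈ range (D + 1) then α p else a p ω) = α p := if_pos (mem_range.2 (by omega))
          have h6 : (if p ∈ range (D + 1) then α p else a p ω) < p := h4
          rw [h5] at h6
          exact h6
        · intro hω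
          exact hω.elim
      have h4 : P.real {ω | (fun b : ℕ → ℕ => (∀ p ≤ D, p.Prime → b p < p) ∧ (1 + θ) * (Y * pr K.card D T) <
          ((NS u1 u2 T Q r (x / 2) (x - g - 1) K b).card : ℝ))
            (fun i => if i ∈ range (D + 1) then α i else a i ω)} = 0 := by
        rw [h3]
        simp
      rw [h4]
      exact hη)
  refine le_trans ?_ hc
  rw [measureReal_def, measureReal_def]
  refine ENNReal.toReal_mono (measure_ne_top _ _) (measure_mono_ae ?_)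
  filter_upwards [Pool.Agent.H559.BS.ae_lt hM] with ω hω hs
  exact ⟨fun p _ hp => hω p hp, hs⟩

end Pool.Agent.H559.EH.N3

namespace Pool.Agent.H559.EH

theorem t_N3 (h1 : S_det3) (h2 : S_sec) : S_N3 := by
  intro ν A c lam δ η θ hc hlam hδ hδ4 hη hη4 hθ hθ2 Ω _ P a hM
  refine ⟨16 / θ ^ 2 * (1 + 8 * (ν : ℝ) ^ 2), ?_⟩
  have hl : Tendsto (fun x : ℕ => Real.log x) atTop atTop := Pool.Agent.H559.BS.log_top
  filter_upwards [h1 ν (A + 3) c η (θ / 4) lam hc hη hη4 (by positivity) hlam, N3.D0_ge c (A + 3) hc,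
    N3.D0_TT c δ (A + 3) hδ,
    N3.small_D0 c η (A + 3) hc hη4, Pool.Agent.H559.EG.N3.PP_big lam η hlam hη,
    N3.main_ge ν A δ η hδ hη hη4,
    (Pool.Agent.H559.EG.N3.yy_top η hη).eventually_ge_atTop (2 * ν), hl.eventually_ge_atTop 200,
    hl.eventually_gt_atTop (2 * lam), hl.eventually_ge_atTop (8 * (ν : ℝ) ^ 2),
    hl.eventually_ge_atTop (4 * (ν : ℝ)),
    eventually_ge_atTop 1] with x hdet hD hDT hsm hPP hmain hy hl2 hll hlν hlν2 hx
  intro g hg K hKne hKg hKν r hr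
  obtain ⟨hyD, hw2, hw1⟩ := hsm
  obtain ⟨ℓ, hℓ⟩ : ∃ ℓ, ℓ = Real.log x := ⟨_, rfl⟩
  rw [← hℓ] at hD hPP hmain hl2 hll hg hlν hlν2 ⊢
  have hℓ0 : 0 < ℓ := by linarith
  have hℓ1 : (1 : ℝ) ≤ ℓ := by linarith
  have hpA : (1 : ℝ) ≤ ℓ ^ A := one_le_pow₀ hℓ1
  have hpow : ℓ ^ (A + 3 + 1) = ℓ ^ A * (ℓ * ℓ * ℓ * ℓ) := by ring
  have hD3 : ℓ * ℓ * ℓ * ℓ / 2 ≤ (D0 c (A + 3) x : ℝ) := by
    refine le_trans ?_ hD
    rw [hpow]
    have : 1 * (ℓ * ℓ * ℓ * ℓ) ≤ ℓ ^ A * (ℓ * ℓ * ℓ * ℓ) :=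
      mul_le_mul_of_nonneg_right hpA (by positivity)
    linarith
  have hℓ2 : ℓ * 1 ≤ ℓ * ℓ := mul_le_mul_of_nonneg_left hℓ1 hℓ0.le
  have hℓ3 : ℓ * ℓ * 1 ≤ ℓ * ℓ * ℓ := mul_le_mul_of_nonneg_left hℓ1 (by positivity)
  have hℓ4 : ℓ * ℓ * ℓ * 1 ≤ ℓ * ℓ * ℓ * ℓ := mul_le_mul_of_nonneg_left hℓ1 (by positivity)
  have hKc : (K.card : ℝ) ≤ ν := by exact_mod_cast hKν
  have hD100 : 100 ≤ D0 c (A + 3) x := by
    have h3 : (100 : ℝ) ≤ D0 c (A + 3) x := by linarith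
    exact_mod_cast h3
  have hDk : 2 * K.card ≤ D0 c (A + 3) x := by
    have h3 : (2 : ℝ) * K.card ≤ D0 c (A + 3) x := by linarith
    exact_mod_cast h3
  have hk2 : (K.card : ℝ) ^ 2 ≤ (ν : ℝ) ^ 2 := pow_le_pow_left₀ (Nat.cast_nonneg _) hKc 2
  have hDlog : 4 * (K.card : ℝ) ^ 2 * Real.log x ≤ D0 c (A + 3) x := by
    rw [← hℓ]
    have h3 : 4 * (K.card : ℝ) ^ 2 * ℓ ≤ (ℓ / 2) * ℓ := by
      apply mul_le_mul_of_nonneg_right _ hℓ0.le
      linarith
    linarith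
  have hgD : g < D0 c (A + 3) x := by
    have h3 : (g : ℝ) < D0 c (A + 3) x := by
      refine lt_of_le_of_lt hg (lt_of_lt_of_le ?_ hD3)
      have h4 : lam * ℓ ^ 2 < (ℓ / 2) * ℓ ^ 2 := by
        apply mul_lt_mul_of_pos_right _ (by positivity)
        linarith
      have h5 : (ℓ / 2) * ℓ ^ 2 = ℓ * ℓ * ℓ / 2 := by ring
      linarith
    exact_mod_cast h3
  have hgQ : g < PP η x := by
    have h3 : (g : ℝ) < PP η x := lt_of_le_of_lt hg hPP
    exact_mod_cast h3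
  have hx0 : (0 : ℝ) < x := by exact_mod_cast (by omega : 0 < x)
  have hP0 : (0 : ℝ) < PP η x := by exact_mod_cast Pool.Agent.H559.EG.N3.PP_pos η x
  have hpr1 := N3.pr_pos K.card (yy η x) (D0 c (A + 3) x) (by omega)
  have hpr2 := N3.pr_pos K.card (D0 c (A + 3) x) (TT δ x) hDk
  have hmul := Pool.Agent.H559.EG.N3.pr_mul K.card (yy η x) (D0 c (A + 3) x) (TT δ x) hyD hDT
  have key := N3.random hM h2 x g r (w1 c x) (w2 c x) (D0 c (A + 3) x) (TT δ x) (PP η x) K θ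
    ((x : ℝ) / (2 * PP η x) * pr K.card (yy η x) (D0 c (A + 3) x)) hθ hθ2 (by positivity) hpr2 hw1 hw2
    hDT hD100 hDk hx hDlog hgD hgQ hKg (by
      intro b hb
      have h3 := hdet g (by rw [← hℓ]; exact hg) K hKg hKν r hr b hb
      refine le_trans ?_ (h3.trans (le_of_eq (by ring)))
      exact le_of_eq rfl)
  have e1 : (x : ℝ) / (2 * PP η x) * pr K.card (yy η x) (D0 c (A + 3) x) *
      pr K.card (D0 c (A + 3) x) (TT δ x) =
      (x : ℝ) / (2 * PP η x) * pr K.card (yy η x) (TT δ x) := by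
    rw [mul_assoc, hmul]
  rw [e1, ← hℓ] at key
  have e2 : (1 + θ) * ((x : ℝ) / (2 * PP η x) * pr K.card (yy η x) (TT δ x)) =
      (1 + θ) * ((x : ℝ) / (2 * PP η x)) * pr K.card (yy η x) (TT δ x) := by ring
  rw [e2] at key
  refine le_trans key ?_
  have hmK := hmain K.card hKν
  have hb1 : 1 / ((x : ℝ) / (2 * PP η x) * pr K.card (yy η x) (TT δ x)) ≤ 1 / ℓ ^ A := by gcongr
  have hb2 : 4 * (K.card : ℝ) ^ 2 * ℓ / (D0 c (A + 3) x : ℝ) ≤ 8 * (ν : ℝ) ^ 2 / ℓ ^ A := by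
    have h3 : (0 : ℝ) < D0 c (A + 3) x := by exact_mod_cast (by omega : 0 < D0 c (A + 3) x)
    rw [div_le_div_iff₀ h3 (by positivity)]
    have h4 : 4 * (K.card : ℝ) ^ 2 * ℓ * ℓ ^ A ≤ 4 * (ν : ℝ) ^ 2 * ℓ * ℓ ^ A := by gcongr
    have h5 : 4 * (ν : ℝ) ^ 2 * ℓ * ℓ ^ A ≤ 8 * (ν : ℝ) ^ 2 * (ℓ ^ (A + 3 + 1) / 2) := by
      rw [hpow]
      have h6 : 4 * (ν : ℝ) ^ 2 * ℓ * ℓ ^ A = 4 * (ν : ℝ) ^ 2 * ℓ ^ A * ℓ := by ring
      have h7 : 8 * (ν : ℝ) ^ 2 * (ℓ ^ A * (ℓ * ℓ * ℓ * ℓ) / 2) =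
          4 * (ν : ℝ) ^ 2 * ℓ ^ A * (ℓ * ℓ * ℓ * ℓ) := by ring
      rw [h6, h7]
      apply mul_le_mul_of_nonneg_left _ (by positivity)
      linarith
    have h8 : 8 * (ν : ℝ) ^ 2 * (ℓ ^ (A + 3 + 1) / 2) ≤ 8 * (ν : ℝ) ^ 2 * (D0 c (A + 3) x : ℝ) :=
      mul_le_mul_of_nonneg_left hD (by positivity)
    linarith
  calc 16 / θ ^ 2 * (1 / ((x : ℝ) / (2 * PP η x) * pr K.card (yy η x) (TT δ x)) +
        4 * (K.card : ℝ) ^ 2 * ℓ / (D0 c (A + 3) x : ℝ))
      ≤ 16 / θ ^ 2 * (1 / ℓ ^ A + 8 * (ν : ℝ) ^ 2 / ℓ ^ A) := by gcongr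
    _ = 16 / θ ^ 2 * (1 + 8 * (ν : ℝ) ^ 2) / ℓ ^ A := by ring

end Pool.Agent.H559.EH
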