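import Pool.Agent.H559.EH.Stm
import Pool.Agent.H559.EG.Pat

set_option autoImplicit false

/-! # The residue pattern of a window with few survivors, for admissible patterns -/

open Finset Filter Topology
open Pool.Agent.H559.EG (yy PP)

namespace Pool.Agent.H559.EH.Pat

/-- the class avoiding the negatives of the elements of `H` -/
theorem res (H : Finset ℕ) (p σ : ℕ) (hσ : σ < p) (hH : ∀ h ∈ H, h % p ≠ σ) :
    ∀ h ∈ H, ¬ p ∣ (p - σ) + h := by
  intro h hh hd
  apply hH h hh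
  have h1 : h + (p - σ) ≡ σ + (p - σ) [MOD p] := by
    have h2 : h + (p - σ) ≡ 0 [MOD p] := by
      rw [add_comm]
      exact Nat.modEq_zero_iff_dvd.2 hd
    have h3 : σ + (p - σ) ≡ 0 [MOD p] := by
      rw [show σ + (p - σ) = p by omega]
      exact Nat.modEq_zero_iff_dvd.2 (dvd_refl p)
    exact h2.trans h3.symm
  have h4 : h ≡ σ [MOD p] := Nat.ModEq.add_right_cancel' _ h1
  have h5 : h % p = σ % p := h4
  rw [h5, Nat.mod_eq_of_lt hσ]

/-- the missed classes -/
theorem cls (H : Finset ℕ) (hA : Adm H) : ∃ σ : ℕ → ℕ, ∀ p : ℕ, p.Prime →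
    ∀ h ∈ H, ¬ p ∣ (p - σ p) + h := by
  have h1 : ∀ p : ℕ, ∃ s : ℕ, p.Prime → s < p ∧ ∀ h ∈ H, h % p ≠ s := by
    intro p
    by_cases hp : p.Prime
    · obtain ⟨s, hs⟩ := hA p hp
      exact ⟨s, fun _ => hs⟩
    · exact ⟨0, fun h => absurd h hp⟩
  choose σ hσ using h1
  exact ⟨σ, fun p hp => res H p (σ p) (hσ p hp).1 (hσ p hp).2⟩

/-- without the condition on the window -/
theorem pat0 (y : ℕ) (H : Finset ℕ) (hA : Adm H) :
    ∃ r < primorial y, ∀ p ≤ y, p.Prime → ∀ h ∈ H, ¬ p ∣ r + h := by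
  obtain ⟨σ, hσ⟩ := cls H hA
  obtain ⟨r, hr, h⟩ := EG.Pat.crt y fun p => p - σ p
  refine ⟨r, hr, fun p hp hpp u hu h3 => hσ p hpp u hu ?_⟩
  exact (((h p hp hpp).add_right u).dvd_iff (dvd_refl p)).1 h3

/-- the pattern in terms of `s` -/
theorem pat1 (y g s : ℕ) (H : Finset ℕ) (hA : Adm H) (hs : s < g) :
    ∃ r < primorial y, (∀ p ≤ y, p.Prime → ∀ h ∈ H, ¬ p ∣ r + h) ∧
      ((Ioo 0 g).filter (fun m => m ∉ H ∧ ∀ p ≤ y, p.Prime → ¬ p ∣ r + m)).card ≤
        s + ((Icc 1 g).filter (fun n => ∀ p ≤ y, p.Prime → p ∣ n →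
          p ∈ (range (y + 1)).filter (fun p => p.Prime ∧ ∃ h ∈ H, s % p = h % p))).card := by
  obtain ⟨σ, hσ⟩ := cls H hA
  obtain ⟨r, hr, h⟩ := EG.Pat.crt y fun p => if ∃ h ∈ H, s % p = h % p then p - σ p else
    (p - 1) * s
  have key : ∀ p ≤ y, p.Prime → (¬ ∃ h ∈ H, s % p = h % p) → p ∣ r + s := by
    intro p hp hpp hn
    have h1 := h p hp hpp
    simp only [if_neg hn] at h1
    have h2 := h1.add_right s
    rw [h2.dvd_iff (dvd_refl p)]
    have h3 : (p - 1) * s + s = p * s := by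
      obtain ⟨q, rfl⟩ : ∃ q, p = q + 1 := ⟨p - 1, by have := hpp.one_lt; omega⟩
      rw [Nat.add_sub_cancel]
      ring
    rw [h3]
    exact dvd_mul_right p s
  refine ⟨r, hr, fun p hp hpp u hu => ?_, ?_⟩
  · by_cases hn : ∃ h ∈ H, s % p = h % p
    · have h1 := h p hp hpp
      simp only [if_pos hn] at h1
      intro h3
      exact hσ p hpp u hu (((h1.add_right u).dvd_iff (dvd_refl p)).1 h3)
    · have h1 := key p hp hpp hn
      intro h2
      apply hn
      refine ⟨u, hu, ?_⟩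
      have h3 : r + s ≡ r + u [MOD p] :=
        (Nat.modEq_zero_iff_dvd.2 h1).trans (Nat.modEq_zero_iff_dvd.2 h2).symm
      exact Nat.ModEq.add_left_cancel' _ h3
  · have hsub : (Ioo 0 g).filter (fun m => m ∉ H ∧ ∀ p ≤ y, p.Prime → ¬ p ∣ r + m) ⊆
        Icc 1 s ∪ ((Icc 1 g).filter (fun n => ∀ p ≤ y, p.Prime → p ∣ n →
          p ∈ (range (y + 1)).filter (fun p => p.Prime ∧ ∃ h ∈ H, s % p = h % p))).image
            (· + s) := by
      intro m hm
      rw [mem_filter, mem_Ioo] at hm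
      obtain ⟨⟨hm0, hmg⟩, -, hmp⟩ := hm
      rw [mem_union, mem_Icc, mem_image]
      by_cases hms : m ≤ s
      · exact Or.inl ⟨hm0, hms⟩
      · refine Or.inr ⟨m - s, ?_, by omega⟩
        rw [mem_filter, mem_Icc]
        refine ⟨⟨by omega, by omega⟩, fun p hp hpp hd => ?_⟩
        rw [mem_filter, mem_range]
        refine ⟨Nat.lt_succ_of_le hp, hpp, ?_⟩
        by_contra hn
        apply hmp p hp hpp
        have h1 := key p hp hpp hn
        have h2 : r + m = (r + s) + (m - s) := by omega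
        rw [h2]
        exact dvd_add h1 hd
    refine (card_le_card hsub).trans ((card_union_le _ _).trans ?_)
    refine Nat.add_le_add ?_ card_image_le
    rw [Nat.card_Icc]
    omega

/-- the product of the exceptional primes -/
theorem prodE (ν y g s : ℕ) (H : Finset ℕ) (hg : 1 ≤ g) (hHg : ∀ h ∈ H, h ≤ g) (hν : H.card ≤ ν)
    (hsH : s ∉ H) (hs : s < g) :
    ∏ p ∈ (range (y + 1)).filter (fun p => p.Prime ∧ ∃ h ∈ H, s % p = h % p), (p : ℝ) ≤
      (g : ℝ) ^ ν := by
  have h1 : ∏ p ∈ (range (y + 1)).filter (fun p => p.Prime ∧ ∃ h ∈ H, s % p = h % p), p ∣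
      ∏ h ∈ H, ((s : ℤ) - (h : ℤ)).natAbs := by
    refine Finset.prod_primes_dvd _ (fun p hp => (mem_filter.1 hp).2.1.prime) (fun p hp => ?_)
    obtain ⟨-, -, h, hh, hph⟩ := mem_filter.1 hp
    refine dvd_trans ?_ (Finset.dvd_prod_of_mem _ hh)
    have h2 : (h : ℤ) ≡ (s : ℤ) [ZMOD (p : ℤ)] := by
      have h3 : h ≡ s [MOD p] := hph.symm
      exact Int.natCast_modEq_iff.2 h3
    exact Int.natCast_dvd.1 h2.dvd
  have h2 : 0 < ∏ h ∈ H, ((s : ℤ) - (h : ℤ)).natAbs := by
    refine Finset.prod_pos fun h hh => ?_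
    have : s ≠ h := fun e => hsH (e ▸ hh)
    omega
  have h3 := Nat.le_of_dvd h2 h1
  have h4 : ∏ h ∈ H, ((s : ℤ) - (h : ℤ)).natAbs ≤ g ^ H.card := by
    refine Finset.prod_le_pow_card _ _ _ fun h hh => ?_
    have := hHg h hh
    omega
  have h5 : g ^ H.card ≤ g ^ ν := Nat.pow_le_pow_right hg hν
  rw [← Nat.cast_prod, ← Nat.cast_pow]
  exact Nat.cast_le.2 (h3.trans (h4.trans h5))

end Pool.Agent.H559.EH.Pat

namespace Pool.Agent.H559.EH

theorem t_pat (h1 : S_cho) (h2 : S_cnt) : S_pat := by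
  intro ν lam ε η hlam hε hη
  have hK : (0 : ℝ) < 2 * lam / η ^ 2 := by positivity
  have hε' : (0 : ℝ) < ε / lam / 2 := by positivity
  have hlogx : Tendsto (fun x : ℕ => Real.log x) atTop atTop :=
    Real.tendsto_log_atTop.comp tendsto_natCast_atTop_atTop
  obtain ⟨G1, hG1⟩ := eventually_atTop.1 ((h1.and (hlogx.eventually_ge_atTop 4)).and
    ((h2 ν (2 * lam / η ^ 2) (ε / lam / 2) hK hε').and (EG.Pat.small (ε / lam / 2) hε')))
  -- the lower bound for g is large
  have hlow : Tendsto (fun l : ℝ => ε * (l ^ 2 / Real.log l)) atTop atTop := by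
    apply Tendsto.const_mul_atTop hε
    have h3 : ∀ᶠ l : ℝ in atTop, l ≤ l ^ 2 / Real.log l := by
      filter_upwards [eventually_gt_atTop 1] with l hl
      rw [le_div_iff₀ (Real.log_pos hl)]
      have := Real.log_le_self (by linarith : (0 : ℝ) ≤ l)
      nlinarith
    exact tendsto_atTop_mono' _ h3 tendsto_id
  have e1 := hlogx.eventually (hlow.eventually_ge_atTop ((G1 : ℝ) + 3))
  have e2 := hlogx.eventually (EG.Pat.final lam ε hlam hε)
  have e3 := hlogx.eventually_ge_atTop (4 / η + 2)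
  filter_upwards [e1, e2, e3] with x hx1 hx2 hx3
  intro g H hH hgx
  obtain ⟨hg1, hH0, -, hHg, hHν, hA⟩ := hH
  set l : ℝ := Real.log x with hl
  have hl2 : 2 < l := by
    have : 0 < 4 / η := by positivity
    linarith
  have hl0 : 0 < l := by linarith
  have hll : 0 < Real.log l := Real.log_pos (by linarith)
  have hq : 0 < l ^ 2 / Real.log l := by positivity
  by_cases hcase : (g : ℝ) ≤ ε * (l ^ 2 / Real.log l)
  · obtain ⟨r, hr, h⟩ := Pat.pat0 (yy η x) H hA
    refine ⟨r, hr, h, ?_⟩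
    have h4 : ((Ioo 0 g).filter (fun m => m ∉ H ∧ ∀ p ≤ yy η x, p.Prime → ¬ p ∣ r + m)).card ≤
        g := by
      refine (card_filter_le _ _).trans ?_
      rw [Nat.card_Ioo]
      omega
    have h5 : (((Ioo 0 g).filter
        (fun m => m ∉ H ∧ ∀ p ≤ yy η x, p.Prime → ¬ p ∣ r + m)).card : ℝ) ≤ g := by
      exact_mod_cast h4
    have h6 : 0 ≤ lam / 2 * (l ^ 2 / Real.log l) := by positivity
    linarith
  · push Not at hcase
    have hgG : G1 + 3 ≤ g := by
      have : ((G1 + 3 : ℕ) : ℝ) ≤ g := by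
        push_cast
        linarith
      exact_mod_cast this
    obtain ⟨⟨hcho, hg4⟩, hcnt, hsmall⟩ := hG1 g (by omega)
    obtain ⟨s, hs0, hs7, hsg, hsp⟩ := hcho H hH0 hA
    have hsH : s ∉ H := by
      intro hsH
      refine hsp 2 Nat.prime_two ?_ s hsH rfl
      push_cast
      linarith
    obtain ⟨r, hr, h, hcard⟩ := Pat.pat1 (yy η x) g s H hA hsg
    refine ⟨r, hr, h, ?_⟩
    -- g ≤ K y ^ 2
    have hy : (g : ℝ) ≤ 2 * lam / η ^ 2 * ((yy η x : ℕ) : ℝ) ^ 2 := by
      have h7 : η * l - 1 ≤ ((yy η x : ℕ) : ℝ) := by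
        have := Nat.lt_floor_add_one (η * Real.log x)
        rw [← hl] at this
        unfold yy
        rw [← hl]
        linarith
      have h8 : 4 ≤ η * l := by
        have h9 : 4 / η ≤ l := by linarith
        rw [div_le_iff₀ hη] at h9
        linarith
      have h9 : (3 / 4) * (η * l) ≤ ((yy η x : ℕ) : ℝ) := by linarith
      have h10 : ((3 / 4) * (η * l)) ^ 2 ≤ ((yy η x : ℕ) : ℝ) ^ 2 :=
        pow_le_pow_left₀ (by positivity) h9 2
      calc (g : ℝ) ≤ lam * l ^ 2 := hgx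
        _ ≤ 2 * lam / η ^ 2 * ((3 / 4) * (η * l)) ^ 2 := by
            have : 2 * lam / η ^ 2 * ((3 / 4) * (η * l)) ^ 2 = (9 / 8) * (lam * l ^ 2) := by
              field_simp
              ring
            rw [this]
            have : 0 ≤ lam * l ^ 2 := by positivity
            linarith
        _ ≤ _ := mul_le_mul_of_nonneg_left h10 hK.le
    have hE := hcnt (yy η x) hy
      ((range (yy η x + 1)).filter (fun p => p.Prime ∧ ∃ h ∈ H, s % p = h % p)) (by
        intro p hp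
        rw [mem_filter] at hp
        obtain ⟨-, hpp, u, hu, hpu⟩ := hp
        refine ⟨hpp, ?_⟩
        by_contra hcon
        push Not at hcon
        exact hsp p hpp hcon u hu hpu) (Pat.prodE ν _ g s H hg1 hHg hHν hsH hsg)
    have hcard' : (((Ioo 0 g).filter
        (fun m => m ∉ H ∧ ∀ p ≤ yy η x, p.Prime → ¬ p ∣ r + m)).card : ℝ) ≤
        s + (((Icc 1 g).filter (fun n => ∀ p ≤ yy η x, p.Prime → p ∣ n →
          p ∈ (range (yy η x + 1)).filter
            (fun p => p.Prime ∧ ∃ h ∈ H, s % p = h % p))).card : ℝ) := by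
      exact_mod_cast hcard
    have hge : Real.exp 1 ≤ (g : ℝ) := by
      have h14 : Real.exp 1 < 3 := by
        have := Real.exp_one_lt_d9
        linarith
      have h15 : (3 : ℝ) ≤ g := by exact_mod_cast (by omega : 3 ≤ g)
      linarith
    have hfin := hx2 g hge hgx
    refine hcard'.trans (le_trans ?_ hfin)
    have h16 : (s : ℝ) ≤ ε / lam / 2 * g / Real.log g := hs7.trans hsmall
    calc (s : ℝ) + (((Icc 1 g).filter (fun n => ∀ p ≤ yy η x, p.Prime → p ∣ n →
          p ∈ (range (yy η x + 1)).filter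
            (fun p => p.Prime ∧ ∃ h ∈ H, s % p = h % p))).card : ℝ) ≤
        ε / lam / 2 * g / Real.log g + (1 + ε / lam / 2) * g / Real.log g := add_le_add h16 hE
      _ = (1 + ε / lam) * g / Real.log g := by ring

end Pool.Agent.H559.EH
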