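import Pool.Agent.H559.EH.Stm

set_option autoImplicit false

/-! # Exact patterns of the random sieve: assembly of the stages by conditioning (adapted from EG/Prob.lean) -/

open Finset MeasureTheory ProbabilityTheory Filter Topology
open Pool.Agent.T2H32.BF (Model)
open Pool.Agent.H559.BS (TT)
open Pool.Agent.H559.IX (R0 Lim)
open Pool.Agent.H559.EG (yy PP w1 w2 St Wk pr)

namespace Pool.Agent.H559.EH

namespace Prob

open Classical in
/-- the weak survivors between `v` and `v + g` -/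
noncomputable def BB (u1 u2 T g : ℕ) (H : Finset ℕ) (b : ℕ → ℕ) (v : ℕ) : Finset ℕ :=
  (Ioo v (v + g)).filter (fun n => n - v ∉ H ∧ Wk u1 u2 T b n)

open Classical in
/-- the candidates after the second stage -/
noncomputable def FF (u1 u2 T N1 Q x g r M : ℕ) (H : Finset ℕ) (b : ℕ → ℕ) : Finset ℕ :=
  (cand u1 u2 T Q x g r M H b).filter (fun v => Fv b ((Ioc T N1).filter Nat.Prime) (BB u1 u2 T g H b v) v H)

open Classical in
/-- the candidates after the third stage -/
noncomputable def HH (N1 N2 : ℕ) (H F : Finset ℕ) (b : ℕ → ℕ) : Finset ℕ :=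
  F.filter (fun v => ∀ p ∈ (Ioc N1 N2).filter Nat.Prime, ∀ h ∈ H, (v + h) % p ≠ b p)

theorem St_congr {u1 u2 T v : ℕ} {b b' : ℕ → ℕ} (h : ∀ i ≤ T, b i = b' i) :
    St u1 u2 T b v ↔ St u1 u2 T b' v := by
  unfold St
  constructor
  · intro H p hp hpp
    have h1 := H p hp hpp
    rw [h p hp] at h1
    exact h1
  · intro H p hp hpp
    have h1 := H p hp hpp
    rw [← h p hp] at h1
    exact h1

theorem Wk_congr {u1 u2 T v : ℕ} {b b' : ℕ → ℕ} (h : ∀ i ≤ T, b i = b' i) :
    Wk u1 u2 T b v ↔ Wk u1 u2 T b' v := by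
  unfold Wk
  constructor
  · intro H p hp hpp
    have h1 := H p hp hpp
    rw [h p hp] at h1
    exact h1
  · intro H p hp hpp
    have h1 := H p hp hpp
    rw [← h p hp] at h1
    exact h1

open Classical in
theorem BB_congr {u1 u2 T g v : ℕ} {H : Finset ℕ} {b b' : ℕ → ℕ} (h : ∀ i ≤ T, b i = b' i) :
    BB u1 u2 T g H b v = BB u1 u2 T g H b' v := by
  unfold BB
  ext n
  rw [mem_filter, mem_filter, Wk_congr h]

open Classical in
theorem mem_cand {u1 u2 T Q x g r M v : ℕ} {H : Finset ℕ} {b : ℕ → ℕ} : v ∈ cand u1 u2 T Q x g r M H b ↔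
    v ∈ Ioc (x / 2) (x - g - 1) ∧ v % Q = r ∧ (∀ h ∈ H, St u1 u2 T b (v + h)) ∧
      (BB u1 u2 T g H b v).card ≤ M := by
  unfold cand BB
  rw [mem_filter]

open Classical in
theorem cand_congr {u1 u2 T Q x g r M : ℕ} {H : Finset ℕ} {b b' : ℕ → ℕ} (h : ∀ i ≤ T, b i = b' i) :
    cand u1 u2 T Q x g r M H b = cand u1 u2 T Q x g r M H b' := by
  ext v
  have h1 : (∀ k ∈ H, St u1 u2 T b (v + k)) ↔ ∀ k ∈ H, St u1 u2 T b' (v + k) :=
    forall₂_congr fun k _ => St_congr h
  rw [mem_cand, mem_cand, h1, BB_congr h]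

theorem Fv_congr {L B : Finset ℕ} {v : ℕ} {H : Finset ℕ} {b b' : ℕ → ℕ}
    (h : ∀ i ∈ L, b i = b' i) : Fv b L B v H ↔ Fv b' L B v H := by
  have key : ∀ {b b' : ℕ → ℕ}, (∀ i ∈ L, b i = b' i) → Fv b L B v H → Fv b' L B v H := by
    intro b b' h hF
    refine ⟨fun n hn => ?_, fun p hp => ?_⟩
    · obtain ⟨p, hp, h1⟩ := hF.1 n hn
      exact ⟨p, hp, by rw [← h p hp]; exact h1⟩
    · have h1 := hF.2 p hp
      rw [h p hp] at h1
      exact h1
  exact ⟨key h, key fun i hi => (h i hi).symm⟩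

open Classical in
theorem FF_congr {u1 u2 T N1 Q x g r M : ℕ} {H : Finset ℕ} (hTN : T ≤ N1) {b b' : ℕ → ℕ}
    (h : ∀ i ≤ N1, b i = b' i) :
    FF u1 u2 T N1 Q x g r M H b = FF u1 u2 T N1 Q x g r M H b' := by
  have h' : ∀ i ≤ T, b i = b' i := fun i hi => h i (hi.trans hTN)
  have hL : ∀ i ∈ (Ioc T N1).filter Nat.Prime, b i = b' i := fun i hi =>
    h i (mem_Ioc.1 (mem_filter.1 hi).1).2
  unfold FF
  ext v
  rw [mem_filter, mem_filter, cand_congr h', BB_congr h', Fv_congr hL]

open Classical in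
theorem HH_congr {N1 N2 : ℕ} {H F : Finset ℕ} {b b' : ℕ → ℕ} (h : ∀ i ∈ Ioc N1 N2, b i = b' i) :
    HH N1 N2 H F b = HH N1 N2 H F b' := by
  unfold HH
  ext v
  rw [mem_filter, mem_filter]
  constructor
  · rintro ⟨h1, h2⟩
    refine ⟨h1, fun p hp => ?_⟩
    have h3 := h2 p hp
    rw [h p (mem_filter.1 hp).1] at h3
    exact h3
  · rintro ⟨h1, h2⟩
    refine ⟨h1, fun p hp => ?_⟩
    have h3 := h2 p hp
    rw [← h p (mem_filter.1 hp).1] at h3
    exact h3

/-- different candidates are far apart -/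
theorem cand_sep {u1 u2 T Q x g r M : ℕ} {H : Finset ℕ} {b : ℕ → ℕ} (hg : g < Q) :
    ∀ v ∈ cand u1 u2 T Q x g r M H b, ∀ w ∈ cand u1 u2 T Q x g r M H b, v < w → v + g < w := by
  intro v hv w hw hvw
  have h1 := (mem_cand.1 hv).2.1
  have h2 := (mem_cand.1 hw).2.1
  have h3 : v ≡ w [MOD Q] := h1.trans h2.symm
  have h4 : Q ∣ w - v := (Nat.modEq_iff_dvd' hvw.le).1 h3
  have h5 := Nat.le_of_dvd (by omega) h4
  omega

theorem cand_le {u1 u2 T Q x g r M : ℕ} {H : Finset ℕ} {b : ℕ → ℕ} {v : ℕ} (hv : v ∈ cand u1 u2 T Q x g r M H b) :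
    x / 2 < v ∧ v + g < x := by
  have h1 := mem_Ioc.1 (mem_cand.1 hv).1
  omega

theorem log_ev (A : ℕ) (μ : ℝ) (hμ : 0 < μ) :
    ∀ᶠ x : ℕ in atTop, (x : ℝ) ^ (-μ) ≤ 1 / Real.log x ^ A := by
  have h1 := (isLittleO_log_rpow_rpow_atTop (A : ℝ) hμ).def (show (0 : ℝ) < 1 by norm_num)
  have h2 := (tendsto_natCast_atTop_atTop (R := ℝ)).eventually h1
  filter_upwards [h2, eventually_ge_atTop 3] with x hx h3
  have hx0 : (0 : ℝ) < x := by
    have : 0 < x := by omega
    exact_mod_cast this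
  have hl : 0 < Real.log x := Real.log_pos (by
    have : 1 < x := by omega
    exact_mod_cast this)
  rw [one_mul, Real.norm_eq_abs, Real.norm_eq_abs] at hx
  have e1 : Real.log (x : ℝ) ^ (A : ℝ) = Real.log x ^ A := Real.rpow_natCast _ _
  rw [e1, abs_of_pos (pow_pos hl A), abs_of_pos (Real.rpow_pos_of_pos hx0 μ)] at hx
  rw [Real.rpow_neg hx0.le, ← one_div]
  exact one_div_le_one_div_of_le (pow_pos hl A) hx

end Prob

open Prob in
theorem t_prob (h1 : S_pat) (h2 : S_st1) (h3 : S_st2) (h4 : S_st3) (h5 : S_num) (h6 : S_mem) :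
    S_prob := by
  classical
  intro ν A c hc z hz lam κ hlam hκ hκ1 Ω _ P a hP
  have := Pool.Agent.T2H32.BF.prob hP
  obtain ⟨ε, δ, η, κ', hε, hδ, hδ8, hη, hη4, hκκ, hnum⟩ := h5 ν c hc z hz lam κ hlam hκ hκ1
  have hδ4 : δ ≤ 1 / 4 := by linarith
  have hκ' : 0 < κ' := hκ.trans hκκ
  obtain ⟨C, hst1⟩ := h2 ν A c lam ε δ η hc hlam hε hδ hδ4 hη hη4 Ω P a hP
  obtain ⟨C0, hC0⟩ : ∃ C0 : ℝ, C0 = (lam / 2 + 2 * ε) / δ := ⟨_, rfl⟩
  have hC0p : 0 < C0 := by
    rw [hC0]
    positivity
  obtain ⟨μ, hμ, hst2⟩ := h3 Ω P a hP ν δ C0 κ' hδ hδ4 hC0p hκ'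
  obtain ⟨μ', hμ', hst3⟩ := h4 z hz Ω P a hP ν κ hκ
  refine ⟨C + 2, ?_⟩
  filter_upwards [hnum, hst1, hst2, hst3, h1 ν lam ε η hlam hε hη, log_ev A μ hμ, log_ev A μ' hμ'] with
    x x1 x2 x3 x4 x5 x6 x7
  intro g H hH hgl
  obtain ⟨n1, n2, n3, n4, n5, n6, n7, n8, n9, n10⟩ := x1
  obtain ⟨r, hr, hr1, hr2⟩ := x5 g H hH hgl
  have m1 := x2 g H hH hgl r hr hr1 hr2
  obtain ⟨q1, q2, q3, q4, q5, q6⟩ := hH
  obtain ⟨T, hT⟩ : ∃ T, T = TT δ x := ⟨_, rfl⟩
  obtain ⟨N1, hN1⟩ : ∃ N, N = z (x / 2) := ⟨_, rfl⟩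
  obtain ⟨N2, hN2⟩ : ∃ N, N = z x := ⟨_, rfl⟩
  obtain ⟨Q, hQ⟩ : ∃ Q, Q = PP η x := ⟨_, rfl⟩
  obtain ⟨M, hM⟩ : ∃ M, M = ⌊(lam / 2 + 2 * ε) * Real.log x / δ⌋₊ := ⟨_, rfl⟩
  obtain ⟨u1, hu1⟩ : ∃ u, u = w1 c x := ⟨_, rfl⟩
  obtain ⟨u2, hu2⟩ : ∃ u, u = w2 c x := ⟨_, rfl⟩
  have hmem := h6 c hc z hz x T n10 (by rw [hT]; exact n1) (by rw [hT]; exact n7)
  have k2 := x3 N1
  have k3 := fun h => x4 g q1 h H q4 q5
  rw [← hT, ← hQ, ← hM, ← hu1, ← hu2] at m1
  rw [← hT] at k2
  rw [← hN1, ← hN2] at k3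
  rw [← hN1, ← hN2, ← hu1, ← hu2] at hmem
  rw [← hT, ← hN1] at n1 n3 n4
  rw [← hN1, ← hN2] at n2
  rw [← hT, ← hN1, ← hM] at n5
  rw [← hu2, ← hT] at n7
  rw [← hQ] at n9 hr
  have hlog0 : 0 ≤ Real.log x := Real.log_natCast_nonneg x
  have hx0 : (0 : ℝ) < x := by
    have : 0 < x := by omega
    exact_mod_cast this
  have hMle : (M : ℝ) ≤ C0 * Real.log x := by
    rw [hM, hC0]
    refine (Nat.floor_le (by positivity)).trans (le_of_eq ?_)
    ring
  have hgQ : g < Q := by
    have : (g : ℝ) < Q := lt_of_le_of_lt hgl n9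
    exact_mod_cast this
  have hgl3 : (g : ℝ) ≤ Real.log x ^ 3 := hgl.trans n8
  -- the three events
  have hE2 : P.real {ω | (x : ℝ) ^ (1 - 2 * η) ≤ ((cand u1 u2 T Q x g r M H (fun q => a q ω)).card : ℝ) ∧
      ((FF u1 u2 T N1 Q x g r M H (fun q => a q ω)).card : ℝ) < δ ^ ν / 4 * (x : ℝ) ^ κ'} ≤
      (x : ℝ) ^ (-μ) := by
    refine Pool.Agent.T2H32.BF.cond hP (range (T + 1)) (Ioc T N1) ?_
      (fun b => (x : ℝ) ^ (1 - 2 * η) ≤ ((cand u1 u2 T Q x g r M H b).card : ℝ) ∧
        ((FF u1 u2 T N1 Q x g r M H b).card : ℝ) < δ ^ ν / 4 * (x : ℝ) ^ κ') ?_ _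
      (Real.rpow_nonneg hx0.le _) ?_
    · rw [Finset.disjoint_left]
      intro i hi hi'
      rw [mem_range] at hi
      rw [mem_Ioc] at hi'
      omega
    · intro b b' hb
      have hb1 : ∀ i ≤ N1, b i = b' i := by
        intro i hi
        refine hb i ?_
        rw [mem_union, mem_range, mem_Ioc]
        omega
      have hb2 : ∀ i ≤ T, b i = b' i := fun i hi => hb1 i (by omega)
      rw [cand_congr hb2, FF_congr n1.le hb1]
    · intro α
      by_cases hα : (x : ℝ) ^ (1 - 2 * η) ≤ ((cand u1 u2 T Q x g r M H α).card : ℝ)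
      · refine (measureReal_mono ?_ (measure_ne_top P _)).trans (k2 n3 n4 M g hMle q1 hgl3 H q4 q5
          (cand u1 u2 T Q x g r M H α) (BB u1 u2 T g H α) ?_ (cand_sep hgQ) ?_)
        · intro ω hω
          rw [Set.mem_ofPred_eq] at hω ⊢
          have hb2 : ∀ i ≤ T, (fun i => if i ∈ range (T + 1) then α i else a i ω) i = α i := by
            intro i hi
            simp only
            rw [if_pos (mem_range.2 (by omega))]
          have hb3 : ∀ i ∈ (Ioc T N1).filter Nat.Prime,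
              (fun i => if i ∈ range (T + 1) then α i else a i ω) i = (fun q => a q ω) i := by
            intro i hi
            have := (mem_Ioc.1 (mem_filter.1 hi).1).1
            simp only
            rw [if_neg (by rw [mem_range]; omega)]
          refine lt_of_le_of_lt ?_ hω.2
          have : ((cand u1 u2 T Q x g r M H α).filter (fun v => Fv (fun q => a q ω)
              ((Ioc T N1).filter Nat.Prime) (BB u1 u2 T g H α v) v H)).card ≤
              (FF u1 u2 T N1 Q x g r M H (fun i => if i ∈ range (T + 1) then α i else a i ω)).card := by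
            refine card_le_card fun v hv => ?_
            rw [mem_filter] at hv
            unfold FF
            rw [mem_filter, cand_congr hb2, BB_congr hb2, Fv_congr hb3]
            exact hv
          exact_mod_cast this
        · intro v hv
          have hv1 := cand_le hv
          refine ⟨by omega, ?_, (mem_cand.1 hv).2.2.2, ?_⟩
          · unfold BB
            exact filter_subset _ _
          · intro h hh hmem
            unfold BB at hmem
            have h9 := (mem_filter.1 hmem).2.1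
            rw [Nat.add_sub_cancel_left] at h9
            exact h9 hh
        · refine n5.trans ?_
          refine mul_le_mul_of_nonneg_right hα (pow_nonneg ?_ _)
          linarith
      · have he : {ω | (x : ℝ) ^ (1 - 2 * η) ≤ ((cand u1 u2 T Q x g r M H
            (fun i => if i ∈ range (T + 1) then α i else a i ω)).card : ℝ) ∧
            ((FF u1 u2 T N1 Q x g r M H
            (fun i => if i ∈ range (T + 1) then α i else a i ω)).card : ℝ) <
              δ ^ ν / 4 * (x : ℝ) ^ κ'} = ∅ := by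
          rw [Set.eq_empty_iff_forall_notMem]
          intro ω hω
          rw [Set.mem_ofPred_eq] at hω
          have hb2 : ∀ i ≤ T, (fun i => if i ∈ range (T + 1) then α i else a i ω) i = α i := by
            intro i hi
            simp only
            rw [if_pos (mem_range.2 (by omega))]
          rw [cand_congr hb2] at hω
          exact hα hω.1
        rw [he, measureReal_empty]
        exact Real.rpow_nonneg hx0.le _
  have hE3 : P.real {ω | δ ^ ν / 4 * (x : ℝ) ^ κ' ≤ ((FF u1 u2 T N1 Q x g r M H (fun q => a q ω)).card : ℝ) ∧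
      ((HH N1 N2 H (FF u1 u2 T N1 Q x g r M H (fun q => a q ω)) (fun q => a q ω)).card : ℝ) <
        ((FF u1 u2 T N1 Q x g r M H (fun q => a q ω)).card : ℝ) / 4} ≤ (x : ℝ) ^ (-μ') := by
    refine Pool.Agent.T2H32.BF.cond hP (range (N1 + 1)) (Ioc N1 N2) ?_
      (fun b => δ ^ ν / 4 * (x : ℝ) ^ κ' ≤ ((FF u1 u2 T N1 Q x g r M H b).card : ℝ) ∧
        ((HH N1 N2 H (FF u1 u2 T N1 Q x g r M H b) b).card : ℝ) <
          ((FF u1 u2 T N1 Q x g r M H b).card : ℝ) / 4) ?_ _
      (Real.rpow_nonneg hx0.le _) ?_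
    · rw [Finset.disjoint_left]
      intro i hi hi'
      rw [mem_range] at hi
      rw [mem_Ioc] at hi'
      omega
    · intro b b' hb
      have hb1 : ∀ i ≤ N1, b i = b' i := by
        intro i hi
        refine hb i ?_
        rw [mem_union, mem_range]
        left
        omega
      have hb2 : ∀ i ∈ Ioc N1 N2, b i = b' i := fun i hi => hb i (mem_union.2 (Or.inr hi))
      rw [FF_congr n1.le hb1, HH_congr hb2]
    · intro α
      by_cases hα : δ ^ ν / 4 * (x : ℝ) ^ κ' ≤ ((FF u1 u2 T N1 Q x g r M H α).card : ℝ)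
      · refine (measureReal_mono ?_ (measure_ne_top P _)).trans (k3 hgl3
          (FF u1 u2 T N1 Q x g r M H α) ?_ ?_ ?_)
        · intro ω hω
          rw [Set.mem_ofPred_eq] at hω ⊢
          have hb2 : ∀ i ≤ N1, (fun i => if i ∈ range (N1 + 1) then α i else a i ω) i = α i := by
            intro i hi
            simp only
            rw [if_pos (mem_range.2 (by omega))]
          have hb3 : ∀ i ∈ Ioc N1 N2,
              (fun i => if i ∈ range (N1 + 1) then α i else a i ω) i = (fun q => a q ω) i := by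
            intro i hi
            have := (mem_Ioc.1 hi).1
            simp only
            rw [if_neg (by rw [mem_range]; omega)]
          have hω2 := hω.2
          rw [FF_congr n1.le hb2, HH_congr hb3] at hω2
          refine lt_of_le_of_lt ?_ hω2
          have : ((FF u1 u2 T N1 Q x g r M H α).filter (fun v => ∀ p ∈ (Ioc N1 N2).filter Nat.Prime,
              ∀ h ∈ H, (v + h) % p ≠ a p ω)).card ≤
              (HH N1 N2 H (FF u1 u2 T N1 Q x g r M H α) (fun q => a q ω)).card := by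
            refine card_le_card fun v hv => ?_
            rw [mem_filter] at hv
            unfold HH
            rw [mem_filter]
            exact hv
          exact_mod_cast this
        · intro v hv
          have hv1 := cand_le (mem_filter.1 hv).1
          omega
        · intro v hv w hw
          exact cand_sep hgQ v (mem_filter.1 hv).1 w (mem_filter.1 hw).1
        · refine (n6.trans ?_).trans hα
          have : 0 ≤ (x : ℝ) ^ κ' := Real.rpow_nonneg hx0.le _
          have h7 : 0 ≤ δ ^ ν * (x : ℝ) ^ κ' := by positivity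
          linarith
      · have he : {ω | δ ^ ν / 4 * (x : ℝ) ^ κ' ≤ ((FF u1 u2 T N1 Q x g r M H
            (fun i => if i ∈ range (N1 + 1) then α i else a i ω)).card : ℝ) ∧
            ((HH N1 N2 H (FF u1 u2 T N1 Q x g r M H
            (fun i => if i ∈ range (N1 + 1) then α i else a i ω))
            (fun i => if i ∈ range (N1 + 1) then α i else a i ω)).card : ℝ) <
              ((FF u1 u2 T N1 Q x g r M H
            (fun i => if i ∈ range (N1 + 1) then α i else a i ω)).card : ℝ) / 4} = ∅ := by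
          rw [Set.eq_empty_iff_forall_notMem]
          intro ω hω
          rw [Set.mem_ofPred_eq] at hω
          have hb2 : ∀ i ≤ N1, (fun i => if i ∈ range (N1 + 1) then α i else a i ω) i = α i := by
            intro i hi
            simp only
            rw [if_pos (mem_range.2 (by omega))]
          have h8 := hω.1
          rw [FF_congr n1.le hb2] at h8
          exact hα h8
        rw [he, measureReal_empty]
        exact Real.rpow_nonneg hx0.le _
  -- the union
  have hsub : {ω | (pats (R0 z c (fun q => a q ω)) x g H : ℝ) < (x : ℝ) ^ κ} ⊆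
      ({ω | ((cand u1 u2 T Q x g r M H (fun q => a q ω)).card : ℝ) < (x : ℝ) ^ (1 - 2 * η)} ∪
        {ω | (x : ℝ) ^ (1 - 2 * η) ≤ ((cand u1 u2 T Q x g r M H (fun q => a q ω)).card : ℝ) ∧
          ((FF u1 u2 T N1 Q x g r M H (fun q => a q ω)).card : ℝ) < δ ^ ν / 4 * (x : ℝ) ^ κ'}) ∪
        {ω | δ ^ ν / 4 * (x : ℝ) ^ κ' ≤ ((FF u1 u2 T N1 Q x g r M H (fun q => a q ω)).card : ℝ) ∧
          ((HH N1 N2 H (FF u1 u2 T N1 Q x g r M H (fun q => a q ω)) (fun q => a q ω)).card : ℝ) <
            ((FF u1 u2 T N1 Q x g r M H (fun q => a q ω)).card : ℝ) / 4} := by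
    intro ω hω
    rw [Set.mem_ofPred_eq] at hω
    by_contra hno
    rw [Set.mem_union, Set.mem_union, not_or, not_or, Set.mem_ofPred_eq, Set.mem_ofPred_eq,
      Set.mem_ofPred_eq, not_lt, not_and, not_and, not_lt, not_lt] at hno
    obtain ⟨⟨g1, g2⟩, g3⟩ := hno
    have g4 := g3 (g2 g1)
    have g5 := g2 g1
    have g6 : ((HH N1 N2 H (FF u1 u2 T N1 Q x g r M H (fun q => a q ω)) (fun q => a q ω)).card : ℝ) ≤
        (pats (R0 z c (fun q => a q ω)) x g H : ℝ) := by
      have : (HH N1 N2 H (FF u1 u2 T N1 Q x g r M H (fun q => a q ω)) (fun q => a q ω)).card ≤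
          pats (R0 z c (fun q => a q ω)) x g H := by
        unfold pats
        refine card_le_card fun v hv => ?_
        unfold HH at hv
        rw [mem_filter] at hv
        obtain ⟨hv1, hv2⟩ := hv
        unfold FF at hv1
        rw [mem_filter] at hv1
        obtain ⟨hv1, hv3⟩ := hv1
        have hv4 := cand_le hv1
        have hv5 := mem_cand.1 hv1
        have hm := hmem (fun q => a q ω) v g H hv4.1 hv4.2 q4 hv5.2.2.1
          (BB u1 u2 T g H (fun q => a q ω) v) (fun n hn hnH hw => by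
            unfold BB
            rw [mem_filter]
            exact ⟨hn, hnH, hw⟩) hv3 hv2
        rw [mem_filter]
        exact ⟨hv5.1, hm⟩
      exact_mod_cast this
    have g7 : (x : ℝ) ^ κ ≤ δ ^ ν / 16 * (x : ℝ) ^ κ' := n6
    linarith
  refine (measureReal_mono hsub (measure_ne_top P _)).trans ?_
  refine (measureReal_union_le _ _).trans ?_
  have hu := measureReal_union_le (μ := P)
    {ω | ((cand u1 u2 T Q x g r M H (fun q => a q ω)).card : ℝ) < (x : ℝ) ^ (1 - 2 * η)}
    {ω | (x : ℝ) ^ (1 - 2 * η) ≤ ((cand u1 u2 T Q x g r M H (fun q => a q ω)).card : ℝ) ∧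
          ((FF u1 u2 T N1 Q x g r M H (fun q => a q ω)).card : ℝ) < δ ^ ν / 4 * (x : ℝ) ^ κ'}
  have e9 : (C + 2) / Real.log x ^ A = C / Real.log x ^ A + 1 / Real.log x ^ A + 1 / Real.log x ^ A := by
    ring
  rw [e9]
  linarith

end Pool.Agent.H559.EH
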