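import Pool.Agent.H559.EH.Stm
import Pool.Agent.H559.EG.Rat

set_option autoImplicit false

/-! # EH-RAT: numerical comparison of sieve products, general patterns (helper268) -/

open Finset MeasureTheory ProbabilityTheory Filter Topology
open Pool.Agent.T2H32.BF (Model V V_pos V_anti V_ratio mertens pnt cnt Surv)
open Pool.Agent.H559.BS (TT TT_le TT_ge TT_top log_top log_TT log_pow_le)
open Pool.Agent.H559.EG (yy PP w1 w2 St Wk pr)
open Pool.Agent.H559.EG.Rat (yy_top loglog_top pr1_lim PP_le PP_pos)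

namespace Pool.Agent.H559.EH

namespace Rat

theorem big_lt {a b p m : ℕ} (ha : m ≤ a) (hp : p ∈ (Ioc a b).filter Nat.Prime) : (m : ℝ) + 1 ≤ p := by
  rw [mem_filter, mem_Ioc] at hp
  exact_mod_cast (by omega : m + 1 ≤ p)

theorem prk_pos {a k ν : ℕ} (b : ℕ) (hk : k ≤ ν) (ha : (ν + 1) ^ 2 ≤ a) : 0 < pr (k : ℝ) a b := by
  unfold pr
  refine prod_pos fun p hp => ?_
  have h1 := big_lt ha hp
  have h2 : (k : ℝ) ≤ ν := by exact_mod_cast hk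
  have hν : (0 : ℝ) ≤ ν := Nat.cast_nonneg ν
  push_cast at h1
  have h3 : (k : ℝ) < p := by nlinarith
  have hp0 : (0 : ℝ) < p := by nlinarith
  have h4 : (k : ℝ) / p < 1 := by rwa [div_lt_one hp0]
  linarith

theorem prs_le {a k ν : ℕ} (b : ℕ) (hk : k ≤ ν) (ha : (ν + 1) ^ 2 ≤ a) :
    pr ((k + 1 : ℕ) : ℝ) a b ≤ pr (k : ℝ) a b * pr 1 a b := by
  unfold pr
  rw [← prod_mul_distrib]
  refine prod_le_prod (fun p hp => ?_) fun p hp => ?_
  · have h1 := big_lt ha hp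
    have h2 : (k : ℝ) ≤ ν := by exact_mod_cast hk
    have hν : (0 : ℝ) ≤ ν := Nat.cast_nonneg ν
    push_cast at h1 ⊢
    have h3 : (k : ℝ) + 1 ≤ p := by nlinarith
    have hp0 : (0 : ℝ) < p := by nlinarith
    have h4 : ((k : ℝ) + 1) / p ≤ 1 := by rwa [div_le_one hp0]
    linarith
  · have h1 := big_lt ha hp
    have hp0 : (0 : ℝ) < p := lt_of_lt_of_le (by positivity) h1
    have h2 : (1 - (k : ℝ) / (p : ℝ)) * (1 - 1 / (p : ℝ)) =
        (1 - ((k + 1 : ℕ) : ℝ) / (p : ℝ)) + (k : ℝ) / (p : ℝ) ^ 2 := by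
      push_cast
      field_simp
      ring
    rw [h2]
    have : 0 ≤ (k : ℝ) / (p : ℝ) ^ 2 := by positivity
    linarith

theorem prk_ge {a k ν : ℕ} (b : ℕ) (hk : k ≤ ν) (ha : (ν + 1) ^ 2 ≤ a) :
    pr 1 a b ^ (k + 1) ≤ pr (k : ℝ) a b := by
  unfold pr
  rw [← prod_pow]
  refine prod_le_prod (fun p hp => ?_) fun p hp => ?_
  · have h1 := big_lt ha hp
    have hp1 : (1 : ℝ) ≤ p := le_trans (by push_cast; nlinarith [(Nat.cast_nonneg ν : (0 : ℝ) ≤ ν)]) h1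
    have h2 : 1 / (p : ℝ) ≤ 1 := by rw [div_le_one (by linarith)]; exact hp1
    have h3 : 0 ≤ 1 - 1 / (p : ℝ) := by linarith
    positivity
  · have h1 := big_lt ha hp
    have h2 : (k : ℝ) ≤ ν := by exact_mod_cast hk
    have hk0 : (0 : ℝ) ≤ k := Nat.cast_nonneg k
    push_cast at h1
    have hp0 : (0 : ℝ) < p := lt_of_lt_of_le (by positivity) h1
    have h0 : 0 < 1 / (p : ℝ) := by positivity
    have h3 : (k : ℝ) * (k + 1) ≤ p := by nlinarith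
    have h4 : (k : ℝ) / (p : ℝ) = k * (1 / (p : ℝ)) := by ring
    have h5 : (k : ℝ) * (k + 1) * (1 / (p : ℝ)) ≤ 1 := by
      rw [mul_one_div, div_le_one hp0]
      exact h3
    have h6 : 1 / (p : ℝ) ≤ 1 := by
      rw [div_le_one hp0]
      nlinarith
    rw [h4]
    obtain ⟨u, hu⟩ : ∃ u : ℝ, u = 1 / (p : ℝ) := ⟨_, rfl⟩
    rw [← hu] at h0 h5 h6 ⊢
    have h7 : 1 + ((k + 1 : ℕ) : ℝ) * u ≤ (1 + u) ^ (k + 1) := one_add_mul_le_pow (by linarith) _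
    push_cast at h7
    have h8 : (1 - u) ^ (k + 1) * (1 + u) ^ (k + 1) ≤ 1 := by
      rw [← mul_pow]
      exact pow_le_one₀ (by nlinarith) (by nlinarith)
    have h9 : 0 ≤ (1 - u) ^ (k + 1) := pow_nonneg (by linarith) _
    have h10 : (1 - u) ^ (k + 1) * (1 + (k + 1) * u) ≤ 1 := (mul_le_mul_of_nonneg_left h7 h9).trans h8
    have h11 : 1 ≤ (1 - k * u) * (1 + (k + 1) * u) := by nlinarith
    have h12 : 0 < 1 + ((k : ℝ) + 1) * u := by positivity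
    exact le_of_mul_le_mul_right (h10.trans h11) h12

end Rat

open Pool.Agent.H559.EH.Rat in
theorem t_rat : S_rat := by
  intro ν lam ε δ η hlam hε hδ hδ4 hη hη4
  have hb : 0 < lam / 2 + 2 * ε := by positivity
  obtain ⟨θ, hθ⟩ : ∃ θ : ℝ, θ = ε / (5 * (lam / 2 + 2 * ε)) := ⟨_, rfl⟩
  have hθ0 : 0 < θ := by
    rw [hθ]
    positivity
  have hθb : 5 * θ * (lam / 2 + 2 * ε) = ε := by
    rw [hθ]
    field_simp
  have hθ1 : θ ≤ 1 / 10 := by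
    rw [hθ, div_le_iff₀ (by positivity)]
    linarith
  have hkey : (1 + θ) * (1 + θ) * (lam / 2 + ε) ≤ (1 - 2 * θ) * (lam / 2 + 2 * ε) := by
    have h1 : (1 + θ) * (1 + θ) ≤ 1 + 3 * θ := by nlinarith
    have h2 : (1 + θ) * (1 + θ) * (lam / 2 + ε) ≤ (1 + 3 * θ) * (lam / 2 + ε) :=
      mul_le_mul_of_nonneg_right h1 (by positivity)
    have h3 : 0 < θ * ε := mul_pos hθ0 hε
    nlinarith
  refine ⟨θ, hθ0, by linarith, ?_⟩
  have hlim := pr1_lim δ η hδ hη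
  have h1δ : 1 / δ < (1 + θ) / δ := by
    rw [div_lt_div_iff_of_pos_right hδ]
    linarith
  have h2δ : 1 < 1 / δ := by
    rw [lt_div_iff₀ hδ]
    linarith
  filter_upwards [hlim.eventually_lt_const h1δ, hlim.eventually_const_lt h2δ,
    (yy_top η hη).eventually_ge_atTop ((ν + 1) ^ 2), loglog_top.eventually_ge_atTop 1,
    log_top.eventually_ge_atTop 1, PP_le η hη, log_pow_le (ν + 1) (6 / 10 * η) (2 / θ) (by positivity),
    eventually_ge_atTop 1] with x e1 e2 e3 e4 e5 e6 e7 e8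
  intro k hk
  have hx0 : (0 : ℝ) < x := by exact_mod_cast e8
  obtain ⟨ℓ, hℓ⟩ : ∃ ℓ : ℝ, ℓ = Real.log x := ⟨_, rfl⟩
  obtain ⟨L, hL⟩ : ∃ L : ℝ, L = Real.log ℓ := ⟨_, rfl⟩
  rw [← hℓ] at e1 e2 e4 e5 e7 ⊢
  rw [← hL] at e1 e2 e4 ⊢
  have hp2 := prk_pos (TT δ x) hk e3
  have hp3 := prs_le (TT δ x) hk e3
  have hp1 := prk_ge (TT δ x) hk e3
  obtain ⟨p1, hp1e⟩ : ∃ p1 : ℝ, p1 = pr 1 (yy η x) (TT δ x) := ⟨_, rfl⟩
  obtain ⟨p2, hp2e⟩ : ∃ p2 : ℝ, p2 = pr (k : ℝ) (yy η x) (TT δ x) := ⟨_, rfl⟩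
  obtain ⟨p3, hp3e⟩ : ∃ p3 : ℝ, p3 = pr ((k + 1 : ℕ) : ℝ) (yy η x) (TT δ x) := ⟨_, rfl⟩
  rw [← hp1e] at e1 e2 hp3 hp1
  rw [← hp2e] at hp2 hp3 hp1 ⊢
  rw [← hp3e] at hp3 ⊢
  have hℓ0 : 0 < ℓ := by linarith
  have hL0 : 0 < L := by linarith
  constructor
  · have hfl := Nat.lt_floor_add_one ((lam / 2 + 2 * ε) * ℓ / δ)
    have h1 : 0 ≤ (1 + θ) * ((lam / 2 + ε) * (ℓ ^ 2 / L)) := by positivity
    calc (1 + θ) * p3 * ((lam / 2 + ε) * (ℓ ^ 2 / L))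
        = p3 * ((1 + θ) * ((lam / 2 + ε) * (ℓ ^ 2 / L))) := by ring
      _ ≤ p2 * p1 * ((1 + θ) * ((lam / 2 + ε) * (ℓ ^ 2 / L))) :=
          mul_le_mul_of_nonneg_right hp3 h1
      _ = p2 * ((1 + θ) * (lam / 2 + ε) * ℓ) * (p1 * (ℓ / L)) := by
          field_simp
      _ ≤ p2 * ((1 + θ) * (lam / 2 + ε) * ℓ) * ((1 + θ) / δ) :=
          mul_le_mul_of_nonneg_left e1.le (by positivity)
      _ = p2 * ((1 + θ) * (1 + θ) * (lam / 2 + ε)) * (ℓ / δ) := by ring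
      _ ≤ p2 * ((1 - 2 * θ) * (lam / 2 + 2 * ε)) * (ℓ / δ) := by
          refine mul_le_mul_of_nonneg_right (mul_le_mul_of_nonneg_left hkey hp2.le) (by positivity)
      _ = (1 - 2 * θ) * p2 * ((lam / 2 + 2 * ε) * ℓ / δ) := by ring
      _ ≤ (1 - 2 * θ) * p2 * ((⌊(lam / 2 + 2 * ε) * ℓ / δ⌋₊ : ℝ) + 1) := by
          refine mul_le_mul_of_nonneg_left hfl.le (mul_nonneg (by linarith) hp2.le)
  · -- `p1 ≥ 1 / ℓ`
    have h1 : 1 / ℓ ≤ p1 := by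
      have h2 : L / ℓ < p1 := by
        have h3 : p1 * (ℓ / L) = p1 / (L / ℓ) := by field_simp
        rw [h3, one_lt_div (by positivity)] at e2
        exact e2
      have h3 : 1 / ℓ ≤ L / ℓ := div_le_div_of_nonneg_right e4 hℓ0.le
      linarith
    have h2 : 1 / ℓ ^ (ν + 1) ≤ p2 := by
      refine le_trans ?_ hp1
      have h3 : 1 / ℓ ^ (ν + 1) ≤ 1 / ℓ ^ (k + 1) :=
        one_div_le_one_div_of_le (by positivity) (pow_le_pow_right₀ e5 (by omega))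
      refine h3.trans ?_
      rw [← one_div_pow]
      exact pow_le_pow_left₀ (by positivity) h1 (k + 1)
    have hPP : (0 : ℝ) < PP η x := by exact_mod_cast PP_pos η x
    have h3 : (x : ℝ) / (2 * (x : ℝ) ^ (14 / 10 * η)) ≤ x / (2 * PP η x) := by
      refine div_le_div_of_nonneg_left hx0.le (by positivity) ?_
      linarith
    have h4 : (x : ℝ) / (2 * (x : ℝ) ^ (14 / 10 * η)) =
        (x : ℝ) ^ (1 - 2 * η) * (x : ℝ) ^ (6 / 10 * η) / 2 := by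
      rw [← Real.rpow_add hx0, show 1 - 2 * η + 6 / 10 * η = 1 - 14 / 10 * η by ring,
        Real.rpow_sub hx0, Real.rpow_one]
      field_simp
    have h5 : 0 < (x : ℝ) ^ (1 - 2 * η) := by positivity
    have h6 : 1 ≤ θ * ((x : ℝ) ^ (6 / 10 * η) / 2) * (1 / ℓ ^ (ν + 1)) := by
      rw [mul_one_div, one_le_div (by positivity)]
      have h7 : θ * (2 / θ * ℓ ^ (ν + 1)) ≤ θ * (x : ℝ) ^ (6 / 10 * η) :=
        mul_le_mul_of_nonneg_left e7 hθ0.le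
      have h8 : θ * (2 / θ * ℓ ^ (ν + 1)) = 2 * ℓ ^ (ν + 1) := by field_simp
      rw [h8] at h7
      linarith
    calc (x : ℝ) ^ (1 - 2 * η) = (x : ℝ) ^ (1 - 2 * η) * 1 := (mul_one _).symm
      _ ≤ (x : ℝ) ^ (1 - 2 * η) * (θ * ((x : ℝ) ^ (6 / 10 * η) / 2) * (1 / ℓ ^ (ν + 1))) :=
          mul_le_mul_of_nonneg_left h6 h5.le
      _ = θ * ((x : ℝ) / (2 * (x : ℝ) ^ (14 / 10 * η))) * (1 / ℓ ^ (ν + 1)) := by
          rw [h4]
          ring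
      _ ≤ θ * ((x : ℝ) / (2 * PP η x)) * p2 := by
          refine mul_le_mul (mul_le_mul_of_nonneg_left h3 hθ0.le) h2 (by positivity)
            (by positivity)

end Pool.Agent.H559.EH
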