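import Pool.Agent.H559.EH.Stm

/-! # Exact patterns of the random sieve: the second moment (adaptation of EG/Sec.lean of helper102
to general `k0`, helper791) -/

set_option autoImplicit false

open Finset MeasureTheory ProbabilityTheory Filter Topology
open Pool.Agent.T2H32.BF (Model V V_pos V_anti V_ratio mertens pnt cnt Surv Surv_prob Surv_meas cheb)

namespace Pool.Agent.H559.EH

namespace Sec

theorem count_le (B : Finset ℕ) (D Z : ℕ) (hD : 100 ≤ D)
    (hB : ∀ p ∈ B, p.Prime ∧ D < p) (n n' : ℕ) (hn : n ≤ Z) (hn' : n' ≤ Z) (hne : n ≠ n') :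
    4 * ((B.filter (fun p => n % p = n' % p)).card : ℝ) ≤ Real.log Z := by
  set S := B.filter (fun p => n % p = n' % p) with hS
  set m : ℕ := ((n' : ℤ) - (n : ℤ)).natAbs with hm
  have hm0 : 0 < m := by
    rw [hm, Int.natAbs_pos]
    intro h0
    exact hne (by omega)
  have hmZ : m ≤ Z := by
    rw [hm]
    omega
  have hdvd : ∏ p ∈ S, p ∣ m := by
    refine Finset.prod_primes_dvd m (fun p hp => ?_) (fun p hp => ?_)
    · exact (hB p (Finset.mem_filter.mp hp).1).1.prime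
    · have h1 : n ≡ n' [MOD p] := (Finset.mem_filter.mp hp).2
      have h2 : (p : ℤ) ∣ (n' : ℤ) - (n : ℤ) := (Nat.modEq_iff_dvd).mp h1
      exact Int.natCast_dvd.mp h2
  have hle : D ^ S.card ≤ Z := by
    calc D ^ S.card = ∏ _p ∈ S, D := (Finset.prod_const _).symm
      _ ≤ ∏ p ∈ S, p := Finset.prod_le_prod (fun _ _ => Nat.zero_le _)
          (fun p hp => (hB p (Finset.mem_filter.mp hp).1).2.le)
      _ ≤ m := Nat.le_of_dvd hm0 hdvd
      _ ≤ Z := hmZ
  have hlog : (S.card : ℝ) * Real.log D ≤ Real.log Z := by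
    rw [← Real.log_pow]
    have hpos : (0 : ℝ) < (D : ℝ) ^ S.card := by
      have : (0 : ℝ) < D := by exact_mod_cast (show 0 < D by omega)
      positivity
    refine Real.log_le_log hpos ?_
    exact_mod_cast hle
  have h4 : (4 : ℝ) ≤ Real.log D := by
    have h1 : Real.log (2 ^ 6 : ℝ) ≤ Real.log D := by
      refine Real.log_le_log (by norm_num) ?_
      have : (100 : ℝ) ≤ D := by exact_mod_cast hD
      linarith
    rw [Real.log_pow] at h1
    have h2 := Real.log_two_gt_d9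
    push_cast at h1
    linarith
  have h5 : (S.card : ℝ) * 4 ≤ (S.card : ℝ) * Real.log D :=
    mul_le_mul_of_nonneg_left h4 (Nat.cast_nonneg _)
  linarith

theorem im_card (A1 A2 : Finset ℕ) (p k0 : ℕ) (h1 : A1.card = k0) (h2 : A2.card = k0)
    (i1 : ∀ n ∈ A1, ∀ n' ∈ A1, n ≠ n' → n % p ≠ n' % p)
    (i2 : ∀ n ∈ A2, ∀ n' ∈ A2, n ≠ n' → n % p ≠ n' % p) :
    2 * k0 ≤ ((A1 ∪ A2).image (fun u => u % p)).card +
      ((A1 ×ˢ A2).filter (fun q => q.1 % p = q.2 % p)).card := by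
  have e1 : (A1.image (fun u => u % p)).card = k0 := by
    rw [Finset.card_image_of_injOn, h1]
    intro n hn n' hn' hnn
    by_contra hne
    exact i1 n hn n' hn' hne hnn
  have e2 : (A2.image (fun u => u % p)).card = k0 := by
    rw [Finset.card_image_of_injOn, h2]
    intro n hn n' hn' hnn
    by_contra hne
    exact i2 n hn n' hn' hne hnn
  have e3 := Finset.card_union_add_card_inter (A1.image (fun u => u % p)) (A2.image (fun u => u % p))
  have e4 : ((A1.image (fun u => u % p)) ∩ (A2.image (fun u => u % p))).card ≤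
      ((A1 ×ˢ A2).filter (fun q => q.1 % p = q.2 % p)).card := by
    refine le_trans (Finset.card_le_card ?_)
      (Finset.card_image_le (s := (A1 ×ˢ A2).filter (fun q => q.1 % p = q.2 % p))
        (f := fun q => q.1 % p))
    intro r hr
    rw [Finset.mem_inter, Finset.mem_image, Finset.mem_image] at hr
    obtain ⟨⟨n, hn, hnr⟩, ⟨n', hn', hnr'⟩⟩ := hr
    rw [Finset.mem_image]
    exact ⟨(n, n'), Finset.mem_filter.mpr ⟨Finset.mem_product.mpr ⟨hn, hn'⟩, hnr.trans hnr'.symm⟩, hnr⟩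
  rw [Finset.image_union]
  omega

theorem sum_c (A1 A2 B : Finset ℕ) (k0 D Z : ℕ) (hD : 100 ≤ D)
    (hB : ∀ p ∈ B, p.Prime ∧ D < p) (h1 : A1.card = k0) (h2 : A2.card = k0)
    (z1 : ∀ n ∈ A1, n ≤ Z) (z2 : ∀ n ∈ A2, n ≤ Z) (hdis : Disjoint A1 A2) :
    4 * ∑ p ∈ B, (((A1 ×ˢ A2).filter (fun q => q.1 % p = q.2 % p)).card : ℝ) ≤
      (k0 : ℝ) ^ 2 * Real.log Z := by
  have e1 : ∑ p ∈ B, (((A1 ×ˢ A2).filter (fun q => q.1 % p = q.2 % p)).card : ℝ) =
      ∑ q ∈ A1 ×ˢ A2, ((B.filter (fun p => q.1 % p = q.2 % p)).card : ℝ) := by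
    have e2 : ∀ p ∈ B, (((A1 ×ˢ A2).filter (fun q => q.1 % p = q.2 % p)).card : ℝ) =
        ∑ q ∈ A1 ×ˢ A2, (if q.1 % p = q.2 % p then (1 : ℝ) else 0) := by
      intro p _
      rw [Finset.card_filter]
      push_cast
      rfl
    rw [Finset.sum_congr rfl e2, Finset.sum_comm]
    refine Finset.sum_congr rfl fun q _ => ?_
    rw [Finset.card_filter]
    push_cast
    rfl
  rw [e1, Finset.mul_sum]
  have e3 : ∑ q ∈ A1 ×ˢ A2, 4 * ((B.filter (fun p => q.1 % p = q.2 % p)).card : ℝ) ≤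
      ∑ _q ∈ A1 ×ˢ A2, Real.log Z := by
    refine Finset.sum_le_sum fun q hq => ?_
    rw [Finset.mem_product] at hq
    refine count_le B D Z hD hB q.1 q.2 (z1 _ hq.1) (z2 _ hq.2) ?_
    intro heq
    exact Finset.disjoint_left.mp hdis hq.1 (heq ▸ hq.2)
  refine e3.trans ?_
  rw [Finset.sum_const, nsmul_eq_mul, Finset.card_product, h1, h2]
  refine le_of_eq ?_
  push_cast
  ring

theorem pair_le {Ω : Type} [MeasurableSpace Ω] (P : Measure Ω) (a : ℕ → Ω → ℕ) (h : Model P a)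
    (A1 A2 B : Finset ℕ) (k0 D Z : ℕ) (hk : 2 * k0 ≤ D) (hD : 100 ≤ D)
    (hZ : 1 ≤ Z) (hZD : 4 * (k0 : ℝ) ^ 2 * Real.log Z ≤ D)
    (hB : ∀ p ∈ B, p.Prime ∧ D < p) (h1 : A1.card = k0) (h2 : A2.card = k0)
    (z1 : ∀ n ∈ A1, n ≤ Z) (z2 : ∀ n ∈ A2, n ≤ Z) (hdis : Disjoint A1 A2)
    (i1 : ∀ p ∈ B, ∀ n ∈ A1, ∀ n' ∈ A1, n ≠ n' → n % p ≠ n' % p)
    (i2 : ∀ p ∈ B, ∀ n ∈ A2, ∀ n' ∈ A2, n ≠ n' → n % p ≠ n' % p) :
    P.real (Surv a B A1 ∩ Surv a B A2) ≤
      (∏ p ∈ B, (1 - (k0 : ℝ) / p)) ^ 2 * (1 + 4 * (k0 : ℝ) ^ 2 * Real.log Z / D) := by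
  have hlogZ : 0 ≤ Real.log Z := Real.log_nonneg (by exact_mod_cast hZ)
  have hD0 : (0 : ℝ) < D := by exact_mod_cast (show 0 < D by omega)
  have hD1 : (100 : ℝ) ≤ D := by exact_mod_cast hD
  have hk3 : 2 * (k0 : ℝ) ≤ D := by exact_mod_cast hk
  have hk0 : (0 : ℝ) ≤ k0 := Nat.cast_nonneg _
  have e1 : Surv a B A1 ∩ Surv a B A2 = Surv a B (A1 ∪ A2) := by
    ext ω
    constructor
    · rintro ⟨s1, s2⟩ p hp u hu
      rcases Finset.mem_union.mp hu with hu | hu
      · exact s1 p hp u hu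
      · exact s2 p hp u hu
    · intro s
      exact ⟨fun p hp u hu => s p hp u (Finset.mem_union_left _ hu),
        fun p hp u hu => s p hp u (Finset.mem_union_right _ hu)⟩
  rw [e1, Surv_prob h _ _ (fun p hp => (hB p hp).1)]
  set c : ℕ → ℝ := fun p => (((A1 ×ˢ A2).filter (fun q => q.1 % p = q.2 % p)).card : ℝ) with hc
  have hc0 : ∀ p, 0 ≤ c p := fun p => Nat.cast_nonneg _
  have e2 : ∀ p ∈ B, (0 : ℝ) ≤ 1 - (((A1 ∪ A2).image (fun u => u % p)).card : ℝ) / p ∧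
      1 - (((A1 ∪ A2).image (fun u => u % p)).card : ℝ) / p ≤
        (1 - (k0 : ℝ) / p) ^ 2 * Real.exp (4 * c p / D) := by
    intro p hp
    have hpD : (D : ℝ) < p := by exact_mod_cast (hB p hp).2
    have hp0 : (0 : ℝ) < p := by linarith
    constructor
    · have h3 : ((A1 ∪ A2).image (fun u => u % p)).card ≤ p := by
        have h4 : (A1 ∪ A2).image (fun u => u % p) ⊆ range p := by
          intro r hr
          obtain ⟨u, _, hu⟩ := Finset.mem_image.mp hr
          rw [Finset.mem_range, ← hu]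
          exact Nat.mod_lt _ (hB p hp).1.pos
        have h5 := Finset.card_le_card h4
        rwa [Finset.card_range] at h5
      have h6 : (((A1 ∪ A2).image (fun u => u % p)).card : ℝ) / p ≤ 1 := by
        rw [div_le_one hp0]
        exact_mod_cast h3
      linarith
    · have h3 := im_card A1 A2 p k0 h1 h2 (i1 p hp) (i2 p hp)
      have h4 : 2 * (k0 : ℝ) ≤ (((A1 ∪ A2).image (fun u => u % p)).card : ℝ) + c p := by
        have h3' : ((2 * k0 : ℕ) : ℝ) ≤ ((((A1 ∪ A2).image (fun u => u % p)).card +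
            ((A1 ×ˢ A2).filter (fun q => q.1 % p = q.2 % p)).card : ℕ) : ℝ) := by
          exact_mod_cast h3
        push_cast at h3'
        exact h3'
      have h5 : 1 - (((A1 ∪ A2).image (fun u => u % p)).card : ℝ) / p ≤
          1 - (2 * (k0 : ℝ) - c p) / p := by
        have : (2 * (k0 : ℝ) - c p) / p ≤ (((A1 ∪ A2).image (fun u => u % p)).card : ℝ) / p :=
          div_le_div_of_nonneg_right (by linarith) hp0.le
        linarith
      have hx : (k0 : ℝ) / p ≤ 1 / 2 := by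
        rw [div_le_iff₀ hp0]
        linarith
      have hx0 : 0 ≤ (k0 : ℝ) / p := div_nonneg hk0 hp0.le
      have h6 : 1 - (2 * (k0 : ℝ) - c p) / p = 1 - 2 * ((k0 : ℝ) / p) + c p / p := by ring
      have hcp : 0 ≤ c p / p := div_nonneg (hc0 p) hp0.le
      have hsq : (1 / 4 : ℝ) ≤ (1 - (k0 : ℝ) / p) ^ 2 := by nlinarith
      have h7 : 1 - 2 * ((k0 : ℝ) / p) + c p / p ≤
          (1 - (k0 : ℝ) / p) ^ 2 * (1 + 4 * (c p / p)) := by
        nlinarith [mul_le_mul_of_nonneg_right hsq hcp, sq_nonneg ((k0 : ℝ) / p)]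
      have h8 : 1 + 4 * (c p / p) ≤ Real.exp (4 * c p / D) := by
        have h9 : 4 * (c p / p) ≤ 4 * c p / D := by
          rw [← mul_div_assoc]
          exact div_le_div_of_nonneg_left (by linarith [hc0 p]) hD0 hpD.le
        have h10 := Real.add_one_le_exp (4 * c p / D)
        linarith
      calc 1 - (((A1 ∪ A2).image (fun u => u % p)).card : ℝ) / p
          ≤ 1 - 2 * ((k0 : ℝ) / p) + c p / p := by rw [← h6]; exact h5
        _ ≤ (1 - (k0 : ℝ) / p) ^ 2 * (1 + 4 * (c p / p)) := h7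
        _ ≤ _ := mul_le_mul_of_nonneg_left h8 (sq_nonneg _)
  have e3 : ∏ p ∈ B, (1 - (((A1 ∪ A2).image (fun u => u % p)).card : ℝ) / p) ≤
      ∏ p ∈ B, ((1 - (k0 : ℝ) / p) ^ 2 * Real.exp (4 * c p / D)) :=
    Finset.prod_le_prod (fun p hp => (e2 p hp).1) (fun p hp => (e2 p hp).2)
  refine e3.trans ?_
  rw [Finset.prod_mul_distrib, Finset.prod_pow, ← Real.exp_sum]
  refine mul_le_mul_of_nonneg_left ?_ (sq_nonneg _)
  have e4 : ∑ p ∈ B, 4 * c p / D = (4 * ∑ p ∈ B, c p) / D := by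
    rw [Finset.mul_sum, Finset.sum_div]
  have e5 : 4 * ∑ p ∈ B, c p ≤ (k0 : ℝ) ^ 2 * Real.log Z :=
    sum_c A1 A2 B k0 D Z hD hB h1 h2 z1 z2 hdis
  have e6 : (4 * ∑ p ∈ B, c p) / D ≤ (k0 : ℝ) ^ 2 * Real.log Z / D :=
    div_le_div_of_nonneg_right e5 hD0.le
  rw [e4]
  set u : ℝ := (k0 : ℝ) ^ 2 * Real.log Z / D with hu
  have hu0 : 0 ≤ u := div_nonneg (mul_nonneg (sq_nonneg _) hlogZ) hD0.le
  have e8 : 4 * (k0 : ℝ) ^ 2 * Real.log Z / D = 4 * u := by rw [hu]; ring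
  have hu1 : 4 * u ≤ 1 := by
    rw [← e8, div_le_one hD0]
    exact hZD
  rw [e8]
  have e9 : Real.exp u ≤ 1 + 2 * u := by
    have h3 : |Real.exp u - 1 - u| ≤ u ^ 2 := by
      refine Real.abs_exp_sub_one_sub_id_le ?_
      rw [abs_of_nonneg hu0]
      linarith
    have h4 := (abs_le.mp h3).2
    nlinarith
  calc Real.exp ((4 * ∑ p ∈ B, c p) / D) ≤ Real.exp u := Real.exp_le_exp.mpr e6
    _ ≤ 1 + 2 * u := e9
    _ ≤ 1 + 4 * u := by linarith

end Sec

theorem t_sec : S_sec := by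
  intro Ω _ P a h I A k0 Z D B hk hD hZ hZD hB hA hdis t ht
  haveI := Pool.Agent.T2H32.BF.prob h
  have hlogZ : 0 ≤ Real.log Z := Real.log_nonneg (by exact_mod_cast hZ)
  have hD0 : (0 : ℝ) < D := by exact_mod_cast (show 0 < D by omega)
  have hD1 : (100 : ℝ) ≤ D := by exact_mod_cast hD
  have hk3 : 2 * (k0 : ℝ) ≤ D := by exact_mod_cast hk
  set W : ℝ := ∏ p ∈ B, (1 - (k0 : ℝ) / p) with hW
  have hW0 : 0 ≤ W := by
    refine Finset.prod_nonneg fun p hp => ?_
    have hpD : (D : ℝ) < p := by exact_mod_cast (hB p hp).2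
    have hp0 : (0 : ℝ) < p := by linarith
    have : (k0 : ℝ) / p ≤ 1 := by
      rw [div_le_one hp0]
      linarith
    linarith
  have hP1 : ∀ i ∈ I, P.real (Surv a B (A i)) = W := by
    intro i hi
    rw [Surv_prob h _ _ (fun p hp => (hB p hp).1), hW]
    refine Finset.prod_congr rfl fun p hp => ?_
    rw [Finset.card_image_of_injOn, (hA i hi).1]
    intro n hn n' hn' hnn
    by_contra hne
    exact (hA i hi).2.2 p hp n hn n' hn' hne hnn
  have hsum : ∑ i ∈ I, P.real (Surv a B (A i)) = I.card * W := by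
    rw [Finset.sum_congr rfl hP1, Finset.sum_const, nsmul_eq_mul]
  have h1 := cheb (P := P) I (fun i => Surv a B (A i)) (fun i _ => Surv_meas h _ _) t ht
  rw [hsum] at h1
  refine h1.trans (div_le_div_of_nonneg_right ?_ (sq_nonneg t))
  set L : ℝ := 4 * (k0 : ℝ) ^ 2 * Real.log Z / D with hL
  have hL0 : 0 ≤ L := div_nonneg (mul_nonneg (by positivity) hlogZ) hD0.le
  have h2 : ∀ i ∈ I, ∀ j ∈ I, P.real (Surv a B (A i) ∩ Surv a B (A j)) ≤
      (if i = j then W else 0) + W ^ 2 * (1 + L) := by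
    intro i hi j hj
    by_cases hij : i = j
    · rw [if_pos hij, hij, Set.inter_self, hP1 j hj]
      have : 0 ≤ W ^ 2 * (1 + L) := mul_nonneg (sq_nonneg _) (by linarith)
      linarith
    · rw [if_neg hij, zero_add]
      exact Sec.pair_le P a h (A i) (A j) B k0 D Z hk hD hZ hZD hB (hA i hi).1 (hA j hj).1
        (hA i hi).2.1 (hA j hj).2.1 (hdis i hi j hj hij) (hA i hi).2.2 (hA j hj).2.2
  have h3 : ∑ i ∈ I, ∑ j ∈ I, P.real (Surv a B (A i) ∩ Surv a B (A j)) ≤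
      I.card * W + (I.card : ℝ) ^ 2 * (W ^ 2 * (1 + L)) := by
    calc ∑ i ∈ I, ∑ j ∈ I, P.real (Surv a B (A i) ∩ Surv a B (A j))
        ≤ ∑ i ∈ I, ∑ j ∈ I, ((if i = j then W else 0) + W ^ 2 * (1 + L)) :=
          Finset.sum_le_sum fun i hi => Finset.sum_le_sum fun j hj => h2 i hi j hj
      _ = I.card * W + (I.card : ℝ) ^ 2 * (W ^ 2 * (1 + L)) := by
          have h4 : ∀ i ∈ I, ∑ j ∈ I, ((if i = j then W else 0) + W ^ 2 * (1 + L)) =
              W + I.card * (W ^ 2 * (1 + L)) := by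
            intro i hi
            rw [Finset.sum_add_distrib, Finset.sum_ite_eq, if_pos hi, Finset.sum_const,
              nsmul_eq_mul]
          rw [Finset.sum_congr rfl h4, Finset.sum_const, nsmul_eq_mul]
          ring
  have h5 : I.card * W + (I.card : ℝ) ^ 2 * (W ^ 2 * (1 + L)) - (I.card * W) ^ 2 =
      I.card * W + L * (I.card * W) ^ 2 := by ring
  calc ∑ i ∈ I, ∑ j ∈ I, P.real (Surv a B (A i) ∩ Surv a B (A j)) - (I.card * W) ^ 2
      ≤ I.card * W + (I.card : ℝ) ^ 2 * (W ^ 2 * (1 + L)) - (I.card * W) ^ 2 := by linarith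
    _ = I.card * W + L * (I.card * W) ^ 2 := h5

end Pool.Agent.H559.EH
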