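import Pool.Agent.H559.EH.Stm

set_option autoImplicit false

open Finset MeasureTheory ProbabilityTheory Filter Topology
open Pool.Agent.T2H32.BF (Model V V_pos V_anti V_ratio mertens pnt cnt Surv)
open Pool.Agent.H559.BS (TT)
open Pool.Agent.H559.IX (R0 Lim)
open Pool.Agent.H559.EG (yy PP w1 w2 St Wk pr)

namespace Pool.Agent.H559.EH

namespace St1

lemma St_Wk {u1 u2 T : ℕ} {b : ℕ → ℕ} {v : ℕ} (hu : u1 ≤ u2) (h : St u1 u2 T b v) :
    Wk u1 u2 T b v := by
  intro p hp hpp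
  obtain ⟨h1, h2⟩ := h p hp hpp
  exact ⟨fun h3 => h1 (h3.trans hu), fun h3 => h2 (lt_of_le_of_lt hu h3)⟩

open Classical in
lemma det (u1 u2 T Q x g r M y : ℕ) (H : Finset ℕ) (b : ℕ → ℕ) (hu : u1 ≤ u2) (hy1 : y ≤ u1)
    (hyT : y ≤ T) (hQ : ∀ p ≤ y, p.Prime → p ∣ Q) :
    (M + 1) * ((Ioc (x / 2) (x - g - 1)).filter (fun v => v % Q = r ∧
        ∀ h ∈ H, St u1 u2 T b (v + h))).card ≤
      (M + 1) * (cand u1 u2 T Q x g r M H b).card +
      ∑ m ∈ (Ioo 0 g).filter (fun m => m ∉ H ∧ ∀ p ≤ y, p.Prime → ¬ p ∣ r + m),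
        ((Ioc (x / 2) (x - g - 1)).filter (fun v => v % Q = r ∧
          ∀ h ∈ insert m H, Wk u1 u2 T b (v + h))).card := by
  set W := Ioc (x / 2) (x - g - 1) with hW
  set N1 := W.filter (fun v => v % Q = r ∧ ∀ h ∈ H, St u1 u2 T b (v + h)) with hN1
  set S := (Ioo 0 g).filter (fun m => m ∉ H ∧ ∀ p ≤ y, p.Prime → ¬ p ∣ r + m) with hS
  set k : ℕ → ℕ := fun v => ((Ioo v (v + g)).filter (fun n => n - v ∉ H ∧
    Wk u1 u2 T b n)).card with hk
  have hc : cand u1 u2 T Q x g r M H b = N1.filter (fun v => k v ≤ M) := by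
    ext v
    simp only [cand, hN1, hk, mem_filter, and_assoc]
    rfl
  have hsplit : N1.card = (N1.filter (fun v => k v ≤ M)).card +
      (N1.filter (fun v => ¬ k v ≤ M)).card := by
    rw [Finset.card_filter_add_card_filter_not]
  have h1 : (N1.filter (fun v => ¬ k v ≤ M)).card * (M + 1) ≤ ∑ v ∈ N1, k v := by
    have := Finset.card_nsmul_le_sum (N1.filter (fun v => ¬ k v ≤ M)) k (M + 1) (by
      intro v hv
      have := (mem_filter.mp hv).2
      omega)
    rw [smul_eq_mul] at this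
    refine this.trans (Finset.sum_le_sum_of_subset (filter_subset _ _))
  have h2 : ∀ v ∈ N1, k v ≤ (S.filter (fun m => Wk u1 u2 T b (v + m))).card := by
    intro v hv
    rw [hN1, mem_filter] at hv
    obtain ⟨hvW, hvr, hv1⟩ := hv
    refine le_trans (card_le_card ?_) (card_image_le (f := fun m => v + m))
    intro n hn
    rw [mem_filter, mem_Ioo] at hn
    obtain ⟨⟨n1, n2⟩, n0, n3⟩ := hn
    rw [mem_image]
    refine ⟨n - v, ?_, by omega⟩
    have e : v + (n - v) = n := by omega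
    rw [mem_filter, hS, mem_filter, mem_Ioo, e]
    refine ⟨⟨by omega, n0, ?_⟩, n3⟩
    intro p hp hpp hdvd
    have h3 := (n3 p (hp.trans hyT) hpp).1 (hp.trans hy1)
    apply h3
    have h4 : p ∣ Q := hQ p hp hpp
    have h5 : n = Q * (v / Q) + (r + (n - v)) := by
      have := Nat.div_add_mod v Q
      rw [hvr] at this
      omega
    rw [h5]
    exact Nat.mod_eq_zero_of_dvd ((h4.mul_right _).add hdvd)
  have h3 : ∑ v ∈ N1, k v ≤ ∑ m ∈ S, (N1.filter (fun v => Wk u1 u2 T b (v + m))).card := by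
    refine (Finset.sum_le_sum h2).trans (le_of_eq ?_)
    simp only [card_filter]
    exact Finset.sum_comm
  have h4 : ∑ m ∈ S, (N1.filter (fun v => Wk u1 u2 T b (v + m))).card ≤
      ∑ m ∈ S, (W.filter (fun v => v % Q = r ∧
          ∀ h ∈ insert m H, Wk u1 u2 T b (v + h))).card := by
    refine Finset.sum_le_sum (fun m _ => card_le_card ?_)
    intro v hv
    rw [mem_filter, hN1, mem_filter] at hv
    obtain ⟨⟨a1, a2, a3⟩, a5⟩ := hv
    rw [mem_filter]
    refine ⟨a1, a2, fun h hh => ?_⟩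
    rcases mem_insert.1 hh with rfl | hh
    · exact a5
    · exact St_Wk hu (a3 h hh)
  rw [hc, hsplit, mul_add]
  have h5 : (M + 1) * (N1.filter (fun v => ¬ k v ≤ M)).card =
      (N1.filter (fun v => ¬ k v ≤ M)).card * (M + 1) := Nat.mul_comm _ _
  omega

lemma ev1 (c η : ℝ) (hc : 1 < c) (hη : η ≤ 1 / 4) : ∀ᶠ x : ℕ in atTop, yy η x ≤ w1 c x := by
  have hl : Tendsto (fun x : ℕ => Real.log (x : ℝ)) atTop atTop :=
    Real.tendsto_log_atTop.comp tendsto_natCast_atTop_atTop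
  filter_upwards [hl.eventually_ge_atTop 4, eventually_ge_atTop 1] with x hx hx1
  unfold yy w1
  apply Nat.floor_le_floor
  have hx0 : (0 : ℝ) < x := by exact_mod_cast hx1
  have h1 : Real.log ((x : ℝ) / 2) = Real.log x - Real.log 2 :=
    Real.log_div hx0.ne' (by norm_num)
  have h2 : Real.log 2 < 1 := by
    have := Real.log_two_lt_d9
    linarith
  have h3 : 1 ≤ Real.log ((x : ℝ) / 2) := by rw [h1]; linarith
  calc η * Real.log x ≤ 1 / 4 * Real.log x := mul_le_mul_of_nonneg_right hη (by linarith)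
    _ ≤ Real.log ((x : ℝ) / 2) := by rw [h1]; linarith
    _ = Real.log ((x : ℝ) / 2) ^ (1 : ℝ) := (Real.rpow_one _).symm
    _ ≤ Real.log ((x : ℝ) / 2) ^ c := Real.rpow_le_rpow_of_exponent_le h3 hc.le

lemma ev2 (δ η : ℝ) (hδ : 0 < δ) (hη : η ≤ 1 / 4) :
    ∀ᶠ x : ℕ in atTop, yy η x ≤ TT δ x := by
  have h1 : ∀ᶠ t : ℝ in atTop, Real.log t ≤ t ^ δ := by
    have h2 := (isLittleO_log_rpow_atTop hδ).bound (show (0 : ℝ) < 1 by norm_num)
    filter_upwards [h2, eventually_ge_atTop (1 : ℝ)] with t ht ht1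
    rw [Real.norm_eq_abs, abs_of_nonneg (Real.log_nonneg ht1), Real.norm_eq_abs,
      abs_of_nonneg (Real.rpow_nonneg (by linarith) _), one_mul] at ht
    exact ht
  filter_upwards [tendsto_natCast_atTop_atTop.eventually h1, eventually_ge_atTop 1] with x hx hx1
  unfold yy TT
  apply Nat.floor_le_floor
  have h3 : 0 ≤ Real.log (x : ℝ) := Real.log_nonneg (by exact_mod_cast hx1)
  calc η * Real.log x ≤ 1 / 4 * Real.log x := mul_le_mul_of_nonneg_right hη h3
    _ ≤ Real.log x := by linarith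
    _ ≤ _ := hx

lemma w1_le_w2 (c : ℝ) (hc : 1 < c) (x : ℕ) (hx : 2 ≤ x) : w1 c x ≤ w2 c x := by
  unfold w1 w2
  apply Nat.floor_le_floor
  have hx2 : (2 : ℝ) ≤ x := by exact_mod_cast hx
  apply Real.rpow_le_rpow
  · exact Real.log_nonneg (by linarith)
  · exact Real.log_le_log (by linarith) (by linarith)
  · linarith

end St1

open St1 in
theorem t_st1 (h1 : S_N1) (h2 : S_N3) (h3 : S_rat) : S_st1 := by
  classical
  intro ν A c lam ε δ η hc hlam hε hδ hδ4 hη hη4 Ω _ P a hM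
  have : IsProbabilityMeasure P := hM.independent.isProbabilityMeasure
  obtain ⟨θ, hθ0, hθ2, hrat⟩ := h3 ν lam ε δ η hlam hε hδ hδ4 hη hη4
  obtain ⟨C1, hC1⟩ := h1 ν A c lam δ η θ hc hlam hδ hδ4 hη hη4 hθ0 hθ2 Ω P a hM
  obtain ⟨C3, hC3⟩ := h2 (ν + 1) (A + 3) c lam δ η θ hc hlam hδ hδ4 hη hη4 hθ0 hθ2 Ω P a hM
  refine ⟨C1 + lam * |C3|, ?_⟩
  have hl : Tendsto (fun x : ℕ => Real.log (x : ℝ)) atTop atTop :=
    Real.tendsto_log_atTop.comp tendsto_natCast_atTop_atTop
  filter_upwards [hrat, hC1, hC3, ev1 c η hc hη4, ev2 δ η hδ hη4, hl.eventually_ge_atTop 1,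
    eventually_ge_atTop 2] with x hxr hx1 hx3 hxy hxT hxl hx2
  intro g H hpat hg r hr hrp hcard
  obtain ⟨hg1, hH0, hHg, hHle, hHc, hadm⟩ := id hpat
  obtain ⟨hr1, hr2⟩ := hxr H.card hHc
  set M : ℕ := ⌊(lam / 2 + 2 * ε) * Real.log x / δ⌋₊ with hMdef
  set Z : ℝ := (x : ℝ) / (2 * PP η x) with hZ
  set p2 : ℝ := pr (H.card : ℝ) (yy η x) (TT δ x) with hp2
  set p3 : ℝ := pr ((H.card + 1 : ℕ) : ℝ) (yy η x) (TT δ x) with hp3
  set S := (Ioo 0 g).filter (fun m => m ∉ H ∧ ∀ p ≤ yy η x, p.Prime → ¬ p ∣ r + m) with hS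
  set A1 : Set Ω := {ω | (((Ioc (x / 2) (x - g - 1)).filter (fun v => v % PP η x = r ∧
    ∀ h ∈ H, St (w1 c x) (w2 c x) (TT δ x) (fun q => a q ω) (v + h))).card : ℝ) <
      (1 - θ) * ((x : ℝ) / (2 * PP η x)) * pr (H.card : ℝ) (yy η x) (TT δ x)} with hA1
  set A3 : ℕ → Set Ω := fun m => {ω | (1 + θ) * ((x : ℝ) / (2 * PP η x)) *
    pr ((H.card + 1 : ℕ) : ℝ) (yy η x) (TT δ x) <
      (((Ioc (x / 2) (x - g - 1)).filter (fun v => v % PP η x = r ∧
        ∀ h ∈ insert m H, Wk (w1 c x) (w2 c x) (TT δ x) (fun q => a q ω) (v + h))).card : ℝ)}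
    with hA3
  have hx0 : (0 : ℝ) < x := by
    have : 0 < x := by omega
    exact_mod_cast this
  have hQ : ∀ p ≤ yy η x, p.Prime → p ∣ PP η x := by
    intro p hp hpp
    exact (hpp.dvd_primorial_iff).mpr hp
  have hZp2 : 0 < θ * Z * p2 := lt_of_lt_of_le (Real.rpow_pos_of_pos hx0 _) hr2
  have hZ0 : 0 ≤ Z := by rw [hZ]; positivity
  have hZp2' : 0 ≤ Z * p2 := by
    have : 0 < θ * (Z * p2) := by rw [← mul_assoc]; exact hZp2
    exact (pos_of_mul_pos_right this hθ0.le).le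
  have hsub : {ω | ((cand (w1 c x) (w2 c x) (TT δ x) (PP η x) x g r M H
      (fun q => a q ω)).card : ℝ) < (x : ℝ) ^ (1 - 2 * η)} ⊆ A1 ∪ ⋃ m ∈ S, A3 m := by
    intro ω hω
    by_contra hcon
    rw [Set.mem_union, not_or, Set.mem_iUnion₂] at hcon
    obtain ⟨n1, n2⟩ := hcon
    have n1' : (1 - θ) * Z * p2 ≤ (((Ioc (x / 2) (x - g - 1)).filter (fun v => v % PP η x = r ∧
        ∀ h ∈ H, St (w1 c x) (w2 c x) (TT δ x) (fun q => a q ω) (v + h))).card : ℝ) := by
      by_contra h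
      exact n1 (by rw [hA1]; exact not_le.mp h)
    have n2' : ∀ m ∈ S, (((Ioc (x / 2) (x - g - 1)).filter (fun v => v % PP η x = r ∧
        ∀ h ∈ insert m H, Wk (w1 c x) (w2 c x) (TT δ x) (fun q => a q ω) (v + h))).card : ℝ) ≤
        (1 + θ) * Z * p3 := by
      intro m hm
      by_contra h
      exact n2 ⟨m, hm, by rw [hA3]; exact not_le.mp h⟩
    have hd := det (w1 c x) (w2 c x) (TT δ x) (PP η x) x g r M (yy η x) H (fun q => a q ω)
      (w1_le_w2 c hc x hx2) hxy hxT hQ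
    have hd' : ((M : ℝ) + 1) * (((Ioc (x / 2) (x - g - 1)).filter (fun v => v % PP η x = r ∧
        ∀ h ∈ H, St (w1 c x) (w2 c x) (TT δ x) (fun q => a q ω) (v + h))).card : ℝ) ≤
        ((M : ℝ) + 1) * ((cand (w1 c x) (w2 c x) (TT δ x) (PP η x) x g r M H
          (fun q => a q ω)).card : ℝ) +
        ∑ m ∈ S, (((Ioc (x / 2) (x - g - 1)).filter (fun v => v % PP η x = r ∧
        ∀ h ∈ insert m H, Wk (w1 c x) (w2 c x) (TT δ x) (fun q => a q ω) (v + h))).card : ℝ) := by
      exact_mod_cast hd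
    have hsum := Finset.sum_le_sum n2'
    rw [sum_const, nsmul_eq_mul] at hsum
    have hs2 : (S.card : ℝ) * ((1 + θ) * Z * p3) ≤ Z * ((1 - 2 * θ) * p2 * ((M : ℝ) + 1)) := by
      have hRHS : 0 ≤ Z * ((1 - 2 * θ) * p2 * ((M : ℝ) + 1)) := by
        have e : Z * ((1 - 2 * θ) * p2 * ((M : ℝ) + 1)) =
            (Z * p2) * ((1 - 2 * θ) * ((M : ℝ) + 1)) := by ring
        rw [e]
        refine mul_nonneg hZp2' (mul_nonneg (by linarith) (by positivity))
      rcases S.eq_empty_or_nonempty with h0 | ⟨m, hm⟩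
      · rw [h0]
        simpa using hRHS
      · have e1 : 0 ≤ (1 + θ) * Z * p3 := le_trans (Nat.cast_nonneg _) (n2' m hm)
        calc (S.card : ℝ) * ((1 + θ) * Z * p3) ≤
              ((lam / 2 + ε) * (Real.log x ^ 2 / Real.log (Real.log x))) *
                ((1 + θ) * Z * p3) := mul_le_mul_of_nonneg_right hcard e1
          _ = Z * ((1 + θ) * p3 * ((lam / 2 + ε) *
                (Real.log x ^ 2 / Real.log (Real.log x)))) := by ring
          _ ≤ _ := mul_le_mul_of_nonneg_left hr1 hZ0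
    have hM0 : (0 : ℝ) < (M : ℝ) + 1 := by positivity
    have hω' : ((cand (w1 c x) (w2 c x) (TT δ x) (PP η x) x g r M H
      (fun q => a q ω)).card : ℝ) < θ * Z * p2 := lt_of_lt_of_le hω hr2
    have hfin : ((M : ℝ) + 1) * ((1 - θ) * Z * p2) <
        ((M : ℝ) + 1) * (θ * Z * p2) + Z * ((1 - 2 * θ) * p2 * ((M : ℝ) + 1)) := by
      calc ((M : ℝ) + 1) * ((1 - θ) * Z * p2) ≤ _ := mul_le_mul_of_nonneg_left n1' hM0.le
        _ ≤ _ := hd'
        _ < _ := by
          have := mul_lt_mul_of_pos_left hω' hM0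
          linarith
    have e3 : ((M : ℝ) + 1) * (θ * Z * p2) + Z * ((1 - 2 * θ) * p2 * ((M : ℝ) + 1)) =
        ((M : ℝ) + 1) * ((1 - θ) * Z * p2) := by ring
    rw [e3] at hfin
    exact lt_irrefl _ hfin
  have hl0 : (0 : ℝ) < Real.log x := by linarith
  calc P.real {ω | ((cand (w1 c x) (w2 c x) (TT δ x) (PP η x) x g r M H
      (fun q => a q ω)).card : ℝ) < (x : ℝ) ^ (1 - 2 * η)} ≤ P.real (A1 ∪ ⋃ m ∈ S, A3 m) :=
        measureReal_mono hsub
    _ ≤ P.real A1 + P.real (⋃ m ∈ S, A3 m) := measureReal_union_le _ _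
    _ ≤ P.real A1 + ∑ m ∈ S, P.real (A3 m) := by
        have := measureReal_biUnion_finset_le (μ := P) S A3
        linarith
    _ ≤ C1 / Real.log x ^ A + ∑ m ∈ S, |C3| / Real.log x ^ (A + 3) := by
        refine add_le_add (hx1 g H hpat hg r hr hrp) (Finset.sum_le_sum ?_)
        intro m hm
        rw [hS, mem_filter, mem_Ioo] at hm
        obtain ⟨⟨hm0, hmg⟩, hmH, -⟩ := hm
        have hcardK : (insert m H).card = H.card + 1 := card_insert_of_notMem hmH
        have h := hx3 g hg (insert m H) (insert_nonempty m H) (by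
          intro h hh
          rcases mem_insert.1 hh with rfl | hh
          · exact hmg.le
          · exact hHle h hh) (by rw [hcardK]; omega) r hr
        rw [hcardK] at h
        refine h.trans ?_
        exact div_le_div_of_nonneg_right (le_abs_self _) (by positivity)
    _ ≤ C1 / Real.log x ^ A + lam * |C3| / Real.log x ^ A := by
        rw [sum_const, nsmul_eq_mul]
        have hSg : (S.card : ℝ) ≤ lam * Real.log x ^ 2 := by
          have e1 : S.card ≤ g := by
            calc S.card ≤ (Ioo 0 g).card := card_filter_le _ _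
              _ = g - 1 := by simp
              _ ≤ g := by omega
          calc (S.card : ℝ) ≤ g := by exact_mod_cast e1
            _ ≤ _ := hg
        have e2 : (S.card : ℝ) * (|C3| / Real.log x ^ (A + 3)) ≤
            (lam * Real.log x ^ 2) * (|C3| / Real.log x ^ (A + 3)) :=
          mul_le_mul_of_nonneg_right hSg (by positivity)
        have e3 : (lam * Real.log x ^ 2) * (|C3| / Real.log x ^ (A + 3)) =
            lam * |C3| / Real.log x ^ (A + 1) := by
          have e5 : Real.log x ^ (A + 3) = Real.log x ^ (A + 1) * Real.log x ^ 2 := by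
            rw [← pow_add]
          rw [e5]
          field_simp
        have e4 : lam * |C3| / Real.log x ^ (A + 1) ≤ lam * |C3| / Real.log x ^ A := by
          apply div_le_div_of_nonneg_left (by positivity) (by positivity)
          exact pow_le_pow_right₀ hxl (by omega)
        linarith
    _ = (C1 + lam * |C3|) / Real.log x ^ A := by ring

end Pool.Agent.H559.EH
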