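import Pool.Agent.H559.EH.Stm
import Pool.Agent.H559.EG.St2

set_option autoImplicit false

/-! # The second stage for admissible patterns: inclusion and exclusion, Chebyshev -/

open Finset MeasureTheory ProbabilityTheory Filter Topology
open Pool.Agent.T2H32.BF (Model prob cnt cheb)
open Pool.Agent.H559.BS (TT)
open Pool.Agent.H559.EG (pr)
open Pool.Agent.H559.EG.St2 (Ps hit_meas Ps_meas ie cls2 cnt_filter)

namespace Pool.Agent.H559.EH.St2

variable {Ω : Type} [MeasurableSpace Ω] {P : Measure Ω} {a : ℕ → Ω → ℕ}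

/-- the second moment -/
theorem sm (h : Model P a) {ι : Type} [DecidableEq ι] (I : Finset ι) (E : ι → Set Ω) (γ : ι → ℝ) (W K ε : ℝ) (hW : 0 < W) (hW1 : W ≤ 1)
    (hK : 1 ≤ K) (hε : 0 ≤ ε) (hs : 2 * (K * ε) ≤ W) (hγ : ∀ i ∈ I, 0 ≤ γ i)
    (h1 : ∀ i ∈ I, γ i * (W - K * ε) ≤ P.real (E i))
    (h2 : ∀ i ∈ I, ∀ j ∈ I, i ≠ j → P.real (E i ∩ E j) ≤ γ i * γ j * (W ^ 2 + K ^ 2 * ε)) (hpos : 0 < ∑ i ∈ I, γ i)
    (hE : ∀ i ∈ I, MeasurableSet (E i)) :
    P.real {ω | cnt I E ω < W / 4 * ∑ i ∈ I, γ i} ≤ 8 / (W * ∑ i ∈ I, γ i) + 48 * K ^ 2 * ε / W ^ 2 := by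
  have := prob h
  set s := ∑ i ∈ I, γ i with hsd
  set μ := ∑ i ∈ I, P.real (E i) with hμd
  have hK2 : 0 < K ^ 2 := by positivity
  have hKε : 0 ≤ K * ε := by positivity
  have hμ1 : s * (W - K * ε) ≤ μ := by
    rw [hsd, hμd, sum_mul]
    exact sum_le_sum h1
  have hμ2 : s * W / 2 ≤ μ := by
    refine le_trans ?_ hμ1
    nlinarith
  have hμ0 : 0 < μ := lt_of_lt_of_le (by positivity) hμ2
  have hvar : ∑ i ∈ I, ∑ j ∈ I, P.real (E i ∩ E j) ≤ μ + s ^ 2 * (W ^ 2 + K ^ 2 * ε) := by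
    have h3 : ∀ i ∈ I, ∑ j ∈ I, P.real (E i ∩ E j) ≤ P.real (E i) + γ i * s * (W ^ 2 + K ^ 2 * ε) := by
      intro i hi
      rw [← add_sum_erase I _ hi, Set.inter_self]
      have h4 : ∑ j ∈ I.erase i, P.real (E i ∩ E j) ≤ ∑ j ∈ I.erase i, γ i * γ j * (W ^ 2 + K ^ 2 * ε) :=
        sum_le_sum fun j hj => h2 i hi j (mem_of_mem_erase hj) (ne_of_mem_erase hj).symm
      have h5 : ∑ j ∈ I.erase i, γ i * γ j * (W ^ 2 + K ^ 2 * ε) ≤ ∑ j ∈ I, γ i * γ j * (W ^ 2 + K ^ 2 * ε) :=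
        sum_le_sum_of_subset_of_nonneg (erase_subset i I) fun j hj _ =>
          mul_nonneg (mul_nonneg (hγ i hi) (hγ j hj)) (by positivity)
      have h6 : ∑ j ∈ I, γ i * γ j * (W ^ 2 + K ^ 2 * ε) = γ i * s * (W ^ 2 + K ^ 2 * ε) := by
        rw [← sum_mul, ← mul_sum]
      linarith
    calc ∑ i ∈ I, ∑ j ∈ I, P.real (E i ∩ E j) ≤ ∑ i ∈ I, (P.real (E i) + γ i * s * (W ^ 2 + K ^ 2 * ε)) := sum_le_sum h3
      _ = μ + s ^ 2 * (W ^ 2 + K ^ 2 * ε) := by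
        rw [sum_add_distrib, ← sum_mul, ← sum_mul]
        ring
  have hvar2 : ∑ i ∈ I, ∑ j ∈ I, P.real (E i ∩ E j) - μ ^ 2 ≤ μ + 3 * K ^ 2 * ε * s ^ 2 := by
    have h3 : (s * (W - K * ε)) ^ 2 ≤ μ ^ 2 := by
      have h4 : 0 ≤ s * (W - K * ε) := mul_nonneg hpos.le (by linarith)
      exact pow_le_pow_left₀ h4 hμ1 2
    have h6 : W * (K * ε) ≤ K ^ 2 * ε := by
      have e1 : W * (K * ε) ≤ K * (K * ε) := mul_le_mul_of_nonneg_right (hW1.trans hK) hKε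
      nlinarith
    have h8 : (W - K * ε) ^ 2 ≥ W ^ 2 - 2 * (K ^ 2 * ε) := by nlinarith [sq_nonneg (K * ε)]
    have h9 : s ^ 2 * (W ^ 2 - 2 * (K ^ 2 * ε)) ≤ μ ^ 2 := by
      refine le_trans ?_ h3
      rw [mul_pow]
      exact mul_le_mul_of_nonneg_left h8 (by positivity)
    nlinarith
  have hch := cheb (P := P) I E hE (μ / 2) (by positivity)
  have hsub : {ω | cnt I E ω < W / 4 * s} ⊆ {ω | μ / 2 ≤ |cnt I E ω - μ|} := by
    intro ω hω
    simp only [Set.mem_ofPred_eq] at hω ⊢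
    rw [abs_sub_comm]
    refine le_trans ?_ (le_abs_self _)
    nlinarith
  refine (measureReal_mono hsub).trans (hch.trans ?_)
  have h8 : s ≤ 2 * μ / W := by
    rw [le_div_iff₀ hW]
    linarith
  have h9 : s ^ 2 ≤ (2 * μ / W) ^ 2 := pow_le_pow_left₀ hpos.le h8 2
  have h10 : (∑ i ∈ I, ∑ j ∈ I, P.real (E i ∩ E j) - μ ^ 2) / (μ / 2) ^ 2 ≤ (μ + 3 * K ^ 2 * ε * (2 * μ / W) ^ 2) / (μ / 2) ^ 2 := by
    refine div_le_div_of_nonneg_right (hvar2.trans ?_) (by positivity)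
    have := mul_le_mul_of_nonneg_left h9 (show 0 ≤ 3 * K ^ 2 * ε by positivity)
    linarith
  have h11 : (μ + 3 * K ^ 2 * ε * (2 * μ / W) ^ 2) / (μ / 2) ^ 2 = 4 / μ + 48 * K ^ 2 * ε / W ^ 2 := by
    field_simp
    ring
  have h12 : 4 / μ ≤ 8 / (W * s) := by
    rw [div_le_div_iff₀ hμ0 (by positivity)]
    linarith
  linarith

end Pool.Agent.H559.EH.St2

namespace Pool.Agent.H559.EH

open St2

theorem t_st2 (hT : Pool.Agent.H559.EG.S_two) : S_st2 := by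
  intro Ω _ P a h ν δ C0 κ hδ hδ4 hC0 hκ
  classical
  have hprob := prob h
  set μ : ℝ := min κ δ / 4 with hμ
  have hmin : 0 < min κ δ := lt_min hκ hδ
  have hμ0 : 0 < μ := by positivity
  refine ⟨μ, hμ0, ?_⟩
  have hlog : Tendsto (fun x : ℕ => Real.log (x : ℝ)) atTop atTop := Real.tendsto_log_atTop.comp tendsto_natCast_atTop_atTop
  have e1 : ∀ᶠ x : ℕ in atTop, Real.log (x : ℝ) ^ 3 ≤ (x : ℝ) ^ δ := by
    have h1 : ∀ᶠ y : ℝ in atTop, ‖Real.log y ^ (3 : ℝ)‖ ≤ 1 * ‖y ^ δ‖ := (isLittleO_log_rpow_rpow_atTop 3 hδ).bound one_pos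
    filter_upwards [tendsto_natCast_atTop_atTop.eventually h1, hlog.eventually_ge_atTop 0, eventually_ge_atTop 1] with x hx hx0 hx1
    rw [one_mul, Real.norm_of_nonneg (Real.rpow_nonneg (Nat.cast_nonneg x) δ)] at hx
    have h2 := (le_abs_self _).trans hx
    exact_mod_cast h2
  have hpow : ∀ s : ℝ, 0 < s → Tendsto (fun x : ℕ => (x : ℝ) ^ s) atTop atTop := fun s hs =>
    (tendsto_rpow_atTop hs).comp tendsto_natCast_atTop_atTop
  have e2 := (hpow (δ / 2) (by positivity)).eventually_ge_atTop (2 * 2 ^ ν / δ ^ ν)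
  have e3 := (hpow μ hμ0).eventually_ge_atTop (8 / δ ^ ν + 48 * (2 ^ ν) ^ 2 / (δ ^ ν) ^ 2)
  filter_upwards [hT Ω P a h δ (2 * C0 + 2 * ν + 1) hδ hδ4 (by positivity), e1, e2, e3, hlog.eventually_ge_atTop 4,
    eventually_ge_atTop 1] with x hx hx1 hx2 hx3 hx4 hx5
  intro N hN1 hN2 M g hM hg1 hg3 H hHg hHν 𝒱 B hB hdis hcard
  set T := TT δ x with hTd
  set q := pr 1 T N with hq
  set L := (Ioc T N).filter Nat.Prime with hL
  set G := 1 - q with hG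
  set ε : ℝ := (x : ℝ) ^ (-(δ / 2)) with hε
  have hx0 : (0 : ℝ) < x := by
    have : 0 < x := hx5
    exact_mod_cast this
  have hx1' : (1 : ℝ) ≤ x := by exact_mod_cast hx5
  have hε0 : 0 < ε := Real.rpow_pos_of_pos hx0 _
  have hq0 : 0 < q := lt_of_lt_of_le hδ hN2
  have hG0 : 0 < G := by linarith
  have hG1 : G ≤ 1 := by linarith
  have hq1 : q ≤ 1 := by linarith
  have hδ1 : δ ≤ 1 := by linarith
  set W := q ^ H.card with hWd
  have hW0 : 0 < W := by positivity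
  have hW1 : W ≤ 1 := pow_le_one₀ hq0.le hq1
  have hδW : δ ^ ν ≤ W := by
    refine (pow_le_pow_of_le_one hδ.le hδ1 hHν).trans ?_
    exact pow_le_pow_left₀ hδ.le hN2 _
  have hδν : 0 < δ ^ ν := by positivity
  have hK1 : (1 : ℝ) ≤ 2 ^ ν := one_le_pow₀ (by norm_num)
  have hKc : (2 : ℝ) ^ H.card ≤ 2 ^ ν := pow_le_pow_right₀ (by norm_num) hHν
  have hgT : g ≤ T := by
    rw [hTd]
    unfold TT
    exact Nat.le_floor (hg3.trans hx1)
  have hε8 : 2 * (2 ^ ν * ε) ≤ δ ^ ν := by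
    have h1 : ε * (x : ℝ) ^ (δ / 2) = 1 := by
      rw [hε, ← Real.rpow_add hx0]
      simp
    have h2 : 2 * 2 ^ ν ≤ δ ^ ν * (x : ℝ) ^ (δ / 2) := by
      have h3 := mul_le_mul_of_nonneg_left hx2 hδν.le
      rwa [mul_div_cancel₀ _ hδν.ne'] at h3
    calc 2 * (2 ^ ν * ε) = 2 * 2 ^ ν * ε := by ring
      _ ≤ δ ^ ν * (x : ℝ) ^ (δ / 2) * ε := mul_le_mul_of_nonneg_right h2 hε0.le
      _ = δ ^ ν * (ε * (x : ℝ) ^ (δ / 2)) := by ring
      _ = δ ^ ν := by rw [h1, mul_one]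
  set U : ℕ → Finset ℕ := fun v => H.image (fun h => v + h) with hU
  have hUmem : ∀ v n, n ∈ U v ↔ ∃ h ∈ H, v + h = n := by
    intro v n
    simp [hU]
  have hUIcc : ∀ v, ∀ n ∈ U v, v ≤ n ∧ n ≤ v + g := by
    intro v n hn
    obtain ⟨h1, hh1, rfl⟩ := (hUmem v n).1 hn
    have := hHg h1 hh1
    omega
  have hUcard : ∀ v, (U v).card = H.card := fun v => card_image_of_injective H (add_right_injective v)
  -- the approximation for the subsets of two windows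
  have happ : ∀ v ∈ 𝒱, ∀ w ∈ 𝒱, ∀ B' ⊆ (B v ∪ B w) ∪ (U v ∪ U w),
      |P.real {ω | ∀ n ∈ B', ∃ p ∈ L, n % p = a p ω} - G ^ B'.card| ≤ ε * G ^ B'.card := by
    intro v hv w hw B' hB'
    obtain ⟨hv1, hv2, hv3, hv4⟩ := hB v hv
    obtain ⟨hw1, hw2, hw3, hw4⟩ := hB w hw
    have hsub : B' ⊆ Icc v (v + g) ∪ Icc w (w + g) := by
      intro n hn
      have h1 := hB' hn
      simp only [mem_union] at h1
      simp only [mem_union, mem_Icc]
      rcases h1 with (h1 | h1) | (h1 | h1)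
      · have := mem_Ioo.1 (hv2 h1)
        omega
      · have := mem_Ioo.1 (hw2 h1)
        omega
      · exact Or.inl (hUIcc v n h1)
      · exact Or.inr (hUIcc w n h1)
    refine hx N hN1 B' ?_ ?_ ?_
    · intro n hn
      have h1 := hsub hn
      simp only [mem_union, mem_Icc] at h1
      omega
    · have h1 : B'.card ≤ 2 * M + 2 * ν := by
        refine (card_le_card hB').trans ((card_union_le _ _).trans ?_)
        have h2 : (B v ∪ B w).card ≤ 2 * M := (card_union_le _ _).trans (by omega)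
        have h3 : (U v ∪ U w).card ≤ 2 * ν := (card_union_le _ _).trans (by
          rw [hUcard, hUcard]
          omega)
        omega
      have h2 : (B'.card : ℝ) ≤ 2 * M + 2 * ν := by exact_mod_cast h1
      have h3 : (0 : ℝ) ≤ ν := Nat.cast_nonneg ν
      nlinarith
    · intro p hp r
      exact cls2 v w g p r (lt_of_le_of_lt hgT hp) B' hsub
  set E : ℕ → Set Ω := fun v => {ω | Fv (fun q => a q ω) L (B v) v H} with hE
  have hEPs : ∀ v, E v = Ps a L (B v) (U v) := by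
    intro v
    ext ω
    simp only [hE, Fv, Ps, Set.mem_ofPred_eq, not_exists, not_and]
    constructor
    · rintro ⟨h1, h2⟩
      refine ⟨h1, fun u hu p hp => ?_⟩
      obtain ⟨h3, hh3, rfl⟩ := (hUmem v u).1 hu
      exact h2 p hp h3 hh3
    · rintro ⟨h1, h2⟩
      exact ⟨h1, fun p hp h3 hh3 => h2 (v + h3) ((hUmem v _).2 ⟨h3, hh3, rfl⟩) p hp⟩
  have hEE : ∀ v w, E v ∩ E w = Ps a L (B v ∪ B w) (U v ∪ U w) := by
    intro v w
    rw [hEPs, hEPs]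
    ext ω
    simp only [Ps, Set.mem_inter_iff, Set.mem_ofPred_eq, mem_union]
    constructor
    · rintro ⟨⟨h1, h2⟩, h3, h4⟩
      exact ⟨fun n hn => hn.elim (h1 n) (h3 n), fun n hn => hn.elim (h2 n) (h4 n)⟩
    · rintro ⟨h1, h2⟩
      exact ⟨⟨fun n hn => h1 n (Or.inl hn), fun n hn => h2 n (Or.inl hn)⟩,
        fun n hn => h1 n (Or.inr hn), fun n hn => h2 n (Or.inr hn)⟩
  have hdisj1 : ∀ v ∈ 𝒱, Disjoint (B v) (U v) := by
    intro v hv
    rw [disjoint_left]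
    intro n hn hn'
    obtain ⟨h1, hh1, rfl⟩ := (hUmem v n).1 hn'
    exact (hB v hv).2.2.2 h1 hh1 hn
  have hKG : ∀ (c d : ℕ), c ≤ d → (2 : ℝ) ^ c ≤ 2 ^ d := fun c d hcd => pow_le_pow_right₀ (by norm_num) hcd
  have hone : ∀ v ∈ 𝒱, G ^ (B v).card * (W - 2 ^ ν * ε) ≤ P.real (E v) := by
    intro v hv
    have h1 := ie h L G ε hG0.le hG1 hε0.le (U v) (B v) (hdisj1 v hv) fun B' hB' =>
      happ v hv v hv B' (hB'.trans (by simp))
    rw [← hEPs, hUcard] at h1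
    have h2 := (abs_le.1 h1).1
    have h3 : (1 - G) = q := by rw [hG]; ring
    rw [h3] at h2
    have h4 : 2 ^ H.card * ε * G ^ (B v).card ≤ 2 ^ ν * ε * G ^ (B v).card := by
      have : 0 < G ^ (B v).card := by positivity
      exact mul_le_mul_of_nonneg_right (mul_le_mul_of_nonneg_right hKc hε0.le) this.le
    have h5 : G ^ (B v).card * (W - 2 ^ ν * ε) = G ^ (B v).card * q ^ H.card - 2 ^ ν * ε * G ^ (B v).card := by
      rw [hWd]
      ring
    rw [h5]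
    linarith
  have hwin : ∀ v ∈ 𝒱, ∀ w ∈ 𝒱, v ≠ w → v + g < w ∨ w + g < v := by
    intro v hv w hw hvw
    rcases lt_or_gt_of_ne hvw with h1 | h1
    · exact Or.inl (hdis v hv w hw h1)
    · exact Or.inr (hdis w hw v hv h1)
  have htwo : ∀ v ∈ 𝒱, ∀ w ∈ 𝒱, v ≠ w →
      P.real (E v ∩ E w) ≤ G ^ (B v).card * G ^ (B w).card * (W ^ 2 + (2 ^ ν) ^ 2 * ε) := by
    intro v hv w hw hvw
    have hw1 := hwin v hv w hw hvw
    have hv2 := (hB v hv).2.1
    have hw2 := (hB w hw).2.1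
    have hBd : Disjoint (B v) (B w) := by
      rw [disjoint_left]
      intro n hn hn'
      have h1 := mem_Ioo.1 (hv2 hn)
      have h2 := mem_Ioo.1 (hw2 hn')
      omega
    have hUd : Disjoint (U v) (U w) := by
      rw [disjoint_left]
      intro n hn hn'
      have h1 := hUIcc v n hn
      have h2 := hUIcc w n hn'
      omega
    have hd : Disjoint (B v ∪ B w) (U v ∪ U w) := by
      rw [disjoint_left]
      intro n hn hn'
      simp only [mem_union] at hn hn'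
      rcases hn with hn | hn
      · have h1 := mem_Ioo.1 (hv2 hn)
        rcases hn' with hn' | hn'
        · exact disjoint_left.1 (hdisj1 v hv) hn hn'
        · have h2 := hUIcc w n hn'
          omega
      · have h1 := mem_Ioo.1 (hw2 hn)
        rcases hn' with hn' | hn'
        · have h2 := hUIcc v n hn'
          omega
        · exact disjoint_left.1 (hdisj1 w hw) hn hn'
    have h1 := ie h L G ε hG0.le hG1 hε0.le (U v ∪ U w) (B v ∪ B w) hd (happ v hv w hw)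
    rw [← hEE, card_union_of_disjoint hUd, hUcard, hUcard, card_union_of_disjoint hBd] at h1
    have h2 := (abs_le.1 h1).2
    have h3 : (1 - G) = q := by rw [hG]; ring
    rw [h3, pow_add, pow_add, pow_add] at h2
    have h4 : (2 : ℝ) ^ H.card * 2 ^ H.card ≤ (2 ^ ν) ^ 2 := by
      rw [sq]
      exact mul_le_mul hKc hKc (by positivity) (by positivity)
    have h5 : 2 ^ H.card * 2 ^ H.card * ε * (G ^ (B v).card * G ^ (B w).card) ≤ (2 ^ ν) ^ 2 * ε * (G ^ (B v).card * G ^ (B w).card) :=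
      mul_le_mul_of_nonneg_right (mul_le_mul_of_nonneg_right h4 hε0.le) (by positivity)
    have h6 : G ^ (B v).card * G ^ (B w).card * (W ^ 2 + (2 ^ ν) ^ 2 * ε) =
        G ^ (B v).card * G ^ (B w).card * (q ^ H.card * q ^ H.card) + (2 ^ ν) ^ 2 * ε * (G ^ (B v).card * G ^ (B w).card) := by
      rw [hWd]
      ring
    rw [h6]
    linarith
  have hcount : ∀ ω, cnt 𝒱 E ω = ((𝒱.filter (fun v => Fv (fun q => a q ω) L (B v) v H)).card : ℝ) := by
    intro ω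
    exact cnt_filter 𝒱 (fun v ω => Fv (fun q => a q ω) L (B v) v H) ω
  have hsum : (x : ℝ) ^ κ ≤ ∑ v ∈ 𝒱, G ^ (B v).card := by
    refine hcard.trans ?_
    rw [← nsmul_eq_mul, ← sum_const]
    exact sum_le_sum fun v hv => pow_le_pow_of_le_one hG0.le hG1 (hB v hv).2.2.1
  have hxκ : 0 < (x : ℝ) ^ κ := Real.rpow_pos_of_pos hx0 _
  have hmain := sm h 𝒱 E (fun v => G ^ (B v).card) W (2 ^ ν) ε hW0 hW1 hK1 hε0.le (hε8.trans hδW) (fun v _ => by positivity)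
    hone htwo (lt_of_lt_of_le hxκ hsum) (fun v _ => by rw [hEPs]; exact Ps_meas h _ _ _)
  have hsub : {ω | ((𝒱.filter (fun v => Fv (fun q => a q ω) L (B v) v H)).card : ℝ) < δ ^ ν / 4 * (x : ℝ) ^ κ} ⊆
      {ω | cnt 𝒱 E ω < W / 4 * ∑ v ∈ 𝒱, G ^ (B v).card} := by
    intro ω hω
    simp only [Set.mem_ofPred_eq] at hω ⊢
    rw [hcount]
    refine lt_of_lt_of_le hω ?_
    exact mul_le_mul (by linarith) hsum hxκ.le (by positivity)
  refine (measureReal_mono hsub).trans (hmain.trans ?_)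
  have k1 : 8 / (W * ∑ v ∈ 𝒱, G ^ (B v).card) ≤ 8 / (δ ^ ν * (x : ℝ) ^ κ) :=
    div_le_div_of_nonneg_left (by norm_num) (by positivity) (mul_le_mul hδW hsum hxκ.le (by positivity))
  have k2 : 48 * (2 ^ ν) ^ 2 * ε / W ^ 2 ≤ 48 * (2 ^ ν) ^ 2 * ε / (δ ^ ν) ^ 2 :=
    div_le_div_of_nonneg_left (by positivity) (by positivity) (pow_le_pow_left₀ hδν.le hδW 2)
  have k3 : 1 / (x : ℝ) ^ κ ≤ (x : ℝ) ^ (-(2 * μ)) := by
    rw [one_div, ← Real.rpow_neg hx0.le]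
    refine Real.rpow_le_rpow_of_exponent_le hx1' ?_
    have := min_le_left κ δ
    linarith
  have k4 : ε ≤ (x : ℝ) ^ (-(2 * μ)) := by
    refine Real.rpow_le_rpow_of_exponent_le hx1' ?_
    have := min_le_right κ δ
    linarith
  have k5 : 8 / (δ ^ ν * (x : ℝ) ^ κ) = 8 / δ ^ ν * (1 / (x : ℝ) ^ κ) := by
    field_simp
  have k6 : 48 * (2 ^ ν) ^ 2 * ε / (δ ^ ν) ^ 2 = 48 * (2 ^ ν) ^ 2 / (δ ^ ν) ^ 2 * ε := by ring
  calc 8 / (W * ∑ v ∈ 𝒱, G ^ (B v).card) + 48 * (2 ^ ν) ^ 2 * ε / W ^ 2 ≤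
        8 / (δ ^ ν * (x : ℝ) ^ κ) + 48 * (2 ^ ν) ^ 2 * ε / (δ ^ ν) ^ 2 := add_le_add k1 k2
    _ ≤ 8 / δ ^ ν * (x : ℝ) ^ (-(2 * μ)) + 48 * (2 ^ ν) ^ 2 / (δ ^ ν) ^ 2 * (x : ℝ) ^ (-(2 * μ)) := by
      rw [k5, k6]
      exact add_le_add (mul_le_mul_of_nonneg_left k3 (by positivity)) (mul_le_mul_of_nonneg_left k4 (by positivity))
    _ = (8 / δ ^ ν + 48 * (2 ^ ν) ^ 2 / (δ ^ ν) ^ 2) * (x : ℝ) ^ (-(2 * μ)) := by ring
    _ ≤ (x : ℝ) ^ μ * (x : ℝ) ^ (-(2 * μ)) := mul_le_mul_of_nonneg_right hx3 (by positivity)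
    _ = (x : ℝ) ^ (-μ) := by
      rw [← Real.rpow_add hx0]
      congr 1
      ring

end Pool.Agent.H559.EH
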