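import Pool.Agent.H559.EH.Stm

set_option autoImplicit false

/-! # The third stage for patterns: the primes from `z (x/2)` to `z x` -/

open Finset MeasureTheory ProbabilityTheory Filter Topology
open Pool.Agent.T2H32.BF (Model V V_pos V_anti V_ratio mertens pnt cnt Surv)
open Pool.Agent.H559.BS (TT)
open Pool.Agent.H559.IX (R0 Lim)

namespace Pool.Agent.H559.EH

namespace St3

/-- `(1 - 1/p)^(2k) ≤ 1 - k/p` -/
theorem pow_le {p : ℝ} {k : ℕ} (hp : 1 ≤ p) (hk : 2 * (k : ℝ) ≤ p) :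
    (1 - 1 / p) ^ (2 * k) ≤ 1 - k / p := by
  have h0 : 0 < p := by linarith
  have h1 : 0 ≤ 1 - 1 / p := by
    rw [sub_nonneg, div_le_one h0]
    exact hp
  have h2 : 1 - 1 / p ≤ Real.exp (-(1 / p)) := by
    have := Real.add_one_le_exp (-(1 / p))
    linarith
  obtain ⟨y, hy⟩ : ∃ y : ℝ, y = k / p := ⟨_, rfl⟩
  have hy0 : 0 ≤ y := by
    rw [hy]
    positivity
  have hy1 : y ≤ 1 / 2 := by
    rw [hy, div_le_iff₀ h0]
    linarith
  have h3 : (1 - 1 / p) ^ (2 * k) ≤ Real.exp (-(2 * y)) := by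
    refine (pow_le_pow_left₀ h1 h2 (2 * k)).trans (le_of_eq ?_)
    rw [← Real.exp_nat_mul]
    congr 1
    rw [hy]
    push_cast
    ring
  have h4 : Real.exp (-(2 * y)) ≤ (1 + 2 * y)⁻¹ := by
    rw [Real.exp_neg]
    refine inv_anti₀ (by linarith) ?_
    have := Real.add_one_le_exp (2 * y)
    linarith
  have h5 : (1 + 2 * y)⁻¹ ≤ 1 - y := by
    rw [inv_le_iff_one_le_mul₀ (by linarith)]
    nlinarith
  rw [← hy]
  exact h3.trans (h4.trans h5)

/-- lower bound for the product -/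
theorem prod_ge (m n k ν : ℕ) (hmn : m ≤ n) (hm : 2 * ν ≤ m) (hk : k ≤ ν) :
    (V n / V m) ^ (2 * ν) ≤ ∏ p ∈ (Ioc m n).filter Nat.Prime, (1 - (k : ℝ) / (p : ℝ)) := by
  have h0 : 0 ≤ V n / V m := (div_pos (V_pos _) (V_pos _)).le
  have h1 : V n / V m ≤ 1 := (div_le_one (V_pos _)).2 (V_anti hmn)
  refine (pow_le_pow_of_le_one h0 h1 (show 2 * k ≤ 2 * ν by omega)).trans ?_
  rw [V_ratio m n hmn, ← prod_pow]
  refine prod_le_prod (fun p hp => ?_) fun p hp => ?_
  · rw [mem_filter, mem_Ioc] at hp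
    have h1 : (1 : ℝ) ≤ p := by exact_mod_cast (by omega : 1 ≤ p)
    have h2 : 1 / (p : ℝ) ≤ 1 := by
      rw [div_le_one (by linarith)]
      linarith
    exact pow_nonneg (by linarith) _
  · rw [mem_filter, mem_Ioc] at hp
    refine pow_le ?_ ?_
    · exact_mod_cast (by omega : 1 ≤ p)
    · exact_mod_cast (by omega : 2 * k ≤ p)

theorem ratio_ev (z : ℕ → ℕ) (hz : Lim z) (ν : ℕ) :
    ∀ᶠ x : ℕ in atTop, 1 / 2 ≤ (V (z x) / V (z (x / 2))) ^ (2 * ν) := by
  have h1 := BS.z_div z hz 2 (by norm_num)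
  have h2 := hz.2.div h1 one_ne_zero
  have h3 := h2.pow (2 * ν)
  rw [div_one, one_pow] at h3
  filter_upwards [h3.eventually_const_le (show (1 : ℝ) / 2 < 1 by norm_num),
    BS.log_top.eventually_ge_atTop 1] with x hx hlog
  have h4 : (V (z x) * Real.log x) / (V (z (x / 2)) * Real.log x) = V (z x) / V (z (x / 2)) := by
    have : V (z (x / 2)) ≠ 0 := (V_pos _).ne'
    field_simp
  have h5 : 1 / 2 ≤ ((V (z x) * Real.log x) / (V (z (x / 2)) * Real.log x)) ^ (2 * ν) := hx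
  rwa [h4] at h5

/-- the number in terms of `cnt` -/
theorem cnt_eq {Ω : Type} (a : ℕ → Ω → ℕ) (F B H : Finset ℕ) (ω : Ω)
    [DecidablePred (fun v => ∀ p ∈ B, ∀ h ∈ H, (v + h) % p ≠ a p ω)] :
    ((F.filter (fun v => ∀ p ∈ B, ∀ h ∈ H, (v + h) % p ≠ a p ω)).card : ℝ) =
      cnt F (fun v => Surv a B (H.image fun h => v + h)) ω := by
  unfold cnt
  rw [← Finset.sum_boole]
  refine sum_congr rfl fun v _ => ?_
  by_cases h : ∀ p ∈ B, ∀ h ∈ H, (v + h) % p ≠ a p ω
  · rw [if_pos h, Set.indicator_of_mem]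
    intro p hp u hu
    rw [mem_image] at hu
    obtain ⟨i, hi, rfl⟩ := hu
    exact h p hp i hi
  · rw [if_neg h, Set.indicator_of_notMem]
    intro h2
    apply h
    intro p hp i hi
    exact h2 p hp (v + i) (mem_image.2 ⟨i, hi, rfl⟩)

theorem final_num {x κ δ ν L μ N K K0 : ℝ} (hx : 1 ≤ x) (hκ : 2 * ν ≤ κ) (hδ : 2 * ν ≤ δ)
    (hL : 0 ≤ L) (hK : K ≤ K0)
    (h16 : 16 ≤ x ^ ν) (h640 : 16 * K0 * L ≤ x ^ ν) (hμ : x ^ κ / 2 ≤ μ)
    (hN : x ^ δ / 2 ≤ N) :
    (μ + K * L / N * μ ^ 2) / (μ / 2) ^ 2 ≤ x ^ (-ν) := by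
  have hx0 : 0 < x := by linarith
  have hy : 0 < x ^ ν := Real.rpow_pos_of_pos hx0 _
  have h1 : (x ^ ν) ^ 2 ≤ x ^ κ := by
    rw [← Real.rpow_natCast, ← Real.rpow_mul hx0.le]
    exact Real.rpow_le_rpow_of_exponent_le hx (by push_cast; linarith)
  have h2 : (x ^ ν) ^ 2 ≤ x ^ δ := by
    rw [← Real.rpow_natCast, ← Real.rpow_mul hx0.le]
    exact Real.rpow_le_rpow_of_exponent_le hx (by push_cast; linarith)
  set y := x ^ ν with hyd
  have hμ0 : 0 < μ := by nlinarith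
  have hN0 : 0 < N := by nlinarith
  have hKL : 16 * (K * L) ≤ y := by
    have := mul_le_mul_of_nonneg_right hK hL
    linarith
  have e1 : (μ + K * L / N * μ ^ 2) / (μ / 2) ^ 2 = 4 / μ + 4 * (K * L) / N := by
    field_simp
    ring
  rw [e1, Real.rpow_neg hx0.le, ← hyd]
  have h3 : 4 / μ ≤ (1 / 2) * y⁻¹ := by
    rw [div_le_iff₀ hμ0]
    have h4 : 8 * y ≤ μ := by nlinarith
    have h5 : (1 / 2) * y⁻¹ * (8 * y) = 4 := by
      field_simp
      norm_num
    calc (4 : ℝ) = (1 / 2) * y⁻¹ * (8 * y) := h5.symm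
      _ ≤ _ := mul_le_mul_of_nonneg_left h4 (by positivity)
  have h4 : 4 * (K * L) / N ≤ (1 / 2) * y⁻¹ := by
    rw [div_le_iff₀ hN0]
    have h5 : 8 * (K * L) * y ≤ N := by nlinarith
    have h6 : (1 / 2) * y⁻¹ * (8 * (K * L) * y) = 4 * (K * L) := by
      field_simp
      ring
    calc 4 * (K * L) = (1 / 2) * y⁻¹ * (8 * (K * L) * y) := h6.symm
      _ ≤ _ := mul_le_mul_of_nonneg_left h5 (by positivity)
  linarith

end St3

open St3 in
theorem t_st3 (h : S_sec) : S_st3 := by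
  classical
  intro z hz Ω _ P a hM m κ hκ
  have := Pool.Agent.T2H32.BF.prob hM
  have hg := BS.g_pos
  set δ := BS.g / 8 with hδd
  have hδ : 0 < δ := by positivity
  set ν := min κ δ / 2 with hνd
  have hν : 0 < ν := by
    have := lt_min hκ hδ
    positivity
  have hνκ : 2 * ν ≤ κ := by
    have := min_le_left κ δ
    linarith
  have hνδ : 2 * ν ≤ δ := by
    have := min_le_right κ δ
    linarith
  refine ⟨ν, hν, ?_⟩
  have hw : ∀ᶠ n : ℕ in atTop, V (z (n / 2)) * Real.log n ≤ 2 :=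
    (BS.z_div z hz 2 (by norm_num)).eventually_le_const (by norm_num)
  have hpow : Tendsto (fun n : ℕ => (n : ℝ) ^ δ) atTop atTop :=
    (tendsto_rpow_atTop hδ).comp tendsto_natCast_atTop_atTop
  have hpowν : Tendsto (fun n : ℕ => (n : ℝ) ^ ν) atTop atTop :=
    (tendsto_rpow_atTop hν).comp tendsto_natCast_atTop_atTop
  filter_upwards [BS.TT_le_w δ hδ (by linarith) (fun n => z (n / 2)) hw, BS.TT_ge δ hδ,
    ratio_ev z hz m, BS.log_pow_le 3 δ 4 hδ, BS.log_pow_le 1 δ (8 * (m : ℝ) ^ 2) hδ,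
    hpow.eventually_ge_atTop (200 + 4 * m), hpowν.eventually_ge_atTop 16,
    BS.log_pow_le 1 ν (16 * (4 * (m : ℝ) ^ 2)) hν,
    eventually_ge_atTop 1] with x hT1 hT2 hR hl3 hl1 h200 h16 h640 hx1
  intro g hg1 hg3 H hHg hHm F hF hFd hFc
  have hxR : (1 : ℝ) ≤ x := by exact_mod_cast hx1
  have hx0 : (0 : ℝ) < x := by linarith
  have hL0 : 0 ≤ Real.log x := Real.log_nonneg hxR
  have hm0 : (0 : ℝ) ≤ m := Nat.cast_nonneg m
  have hk0 : (0 : ℝ) ≤ (H.card : ℝ) := Nat.cast_nonneg _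
  have hkm : (H.card : ℝ) ≤ m := by exact_mod_cast hHm
  have hkm2 : 4 * (H.card : ℝ) ^ 2 ≤ 4 * (m : ℝ) ^ 2 := by nlinarith
  rw [pow_one] at hl1 h640
  have hN : (x : ℝ) ^ δ / 2 ≤ ((z (x / 2) : ℕ) : ℝ) := by
    refine hT2.1.trans ?_
    exact_mod_cast hT1
  set N1 := z (x / 2) with hN1
  have hN100 : 100 ≤ N1 := by
    have : (100 : ℝ) ≤ (N1 : ℝ) := by linarith
    exact_mod_cast this
  have hN2m : 2 * m ≤ N1 := by
    have : (2 * m : ℝ) ≤ (N1 : ℝ) := by linarith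
    exact_mod_cast this
  have hmono : N1 ≤ z x := hz.1 (Nat.div_le_self x 2)
  set B := (Ioc N1 (z x)).filter Nat.Prime with hB
  set W := ∏ p ∈ B, (1 - (H.card : ℝ) / (p : ℝ)) with hW
  have hWhalf : 1 / 2 ≤ W := hR.trans (prod_ge N1 (z x) H.card m hmono hN2m hHm)
  have hgN : g < N1 := by
    have h1 : (g : ℝ) < N1 := by
      have : 0 < (x : ℝ) ^ δ := by positivity
      linarith
    exact_mod_cast h1
  have hF0 : 0 < (F.card : ℝ) := lt_of_lt_of_le (by positivity) hFc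
  set μ := (F.card : ℝ) * W with hμ
  have hμF : (F.card : ℝ) / 2 ≤ μ := by
    rw [hμ]
    nlinarith
  have hμ0 : 0 < μ := by linarith
  have hsec := h Ω P a hM F (fun v => H.image fun h => v + h) H.card x N1 B (by omega) hN100 hx1
    (by
      have h1 := mul_le_mul_of_nonneg_right hkm2 hL0
      linarith) (fun p hp => ?_) (fun v hv => ⟨?_, ?_, ?_⟩) ?_ (μ / 2) (by positivity)
  · rw [← hW, ← hμ] at hsec
    refine (measureReal_mono (s₂ := {ω | μ / 2 ≤
      |cnt F (fun v => Surv a B (H.image fun h => v + h)) ω - μ|}) ?_).trans (hsec.trans ?_)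
    · intro ω hω
      rw [Set.mem_ofPred_eq, cnt_eq] at hω
      rw [Set.mem_ofPred_eq, abs_sub_comm]
      refine le_trans ?_ (le_abs_self _)
      linarith
    · refine final_num hxR hνκ hνδ hL0 hkm2 h16 h640 ?_ hN
      linarith
  · rw [hB, mem_filter, mem_Ioc] at hp
    exact ⟨hp.2, hp.1.1⟩
  · rw [card_image_of_injective _ (add_right_injective v)]
  · intro n hn
    rw [mem_image] at hn
    obtain ⟨i, hi, rfl⟩ := hn
    have := hF v hv
    have := hHg i hi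
    omega
  · intro p hp n hn n' hn' hne he
    rw [hB, mem_filter, mem_Ioc] at hp
    have hmod : ∀ i j : ℕ, i < j → j ≤ g → (v + i) % p = (v + j) % p → False := by
      intro i j hij hj hu
      have h1 : v + i ≡ v + j [MOD p] := hu
      have h2 : p ∣ (v + j) - (v + i) := (Nat.modEq_iff_dvd' (by omega)).1 h1
      have h3 := Nat.le_of_dvd (by omega) h2
      omega
    rw [mem_image] at hn hn'
    obtain ⟨i, hi, rfl⟩ := hn
    obtain ⟨j, hj, rfl⟩ := hn'
    rcases lt_trichotomy i j with hij | hij | hij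
    · exact hmod i j hij (hHg j hj) he
    · exact hne (by rw [hij])
    · exact hmod j i hij (hHg i hi) he.symm
  · intro v hv w hw' hne
    rw [disjoint_left]
    intro n hn hn'
    rw [mem_image] at hn hn'
    obtain ⟨i, hi, rfl⟩ := hn
    obtain ⟨j, hj, hij⟩ := hn'
    have h1 := hHg i hi
    have h2 := hHg j hj
    rcases lt_or_gt_of_ne hne with hlt | hlt
    · have := hFd v hv w hw' hlt
      omega
    · have := hFd w hw' v hv hlt
      omega

end Pool.Agent.H559.EH
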