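import Pool.Agent.H559.EG.Phi
import Pool.Agent.H559.EG.Ap
import Pool.Agent.H559.EG.Two
import Pool.Agent.H559.EG.Num
import Pool.Agent.H559.EH.Cnt
import Pool.Agent.H559.EH.Cho
import Pool.Agent.H559.EH.Pat
import Pool.Agent.H559.EH.Det1
import Pool.Agent.H559.EH.Det3
import Pool.Agent.H559.EH.Sec
import Pool.Agent.H559.EH.N1
import Pool.Agent.H559.EH.N3
import Pool.Agent.H559.EH.Rat
import Pool.Agent.H559.EH.St1
import Pool.Agent.H559.EH.St2
import Pool.Agent.H559.EH.St3
import Pool.Agent.H559.EH.Num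
import Pool.Agent.H559.EH.Mem
import Pool.Agent.H559.EH.Prob
import Pool.Agent.H559.EH.Main

set_option autoImplicit false

/-! # Exact patterns of the random sieve: the assembly -/

namespace Pool.Agent.H559.EH

/-- **Every admissible pattern up to `lam log² X`, `lam < 2 e^(-γ)`, occurs.** -/
theorem main : S_main :=
  t_main (t_prob (t_pat t_cho (t_cnt Pool.Agent.H559.EG.t_phi))
    (t_st1 (t_N1 (t_det1 Pool.Agent.H559.EG.t_ap) t_sec) (t_N3 (t_det3 Pool.Agent.H559.EG.t_ap) t_sec) t_rat)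
    (t_st2 Pool.Agent.H559.EG.t_two) (t_st3 t_sec) (t_num Pool.Agent.H559.EG.t_num) t_mem)

end Pool.Agent.H559.EH
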