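import Pool.Agent.H559.EH.Stm

/-!
# The parameters: `S_num` (helper333 for helper559)
-/

set_option autoImplicit false

open Finset MeasureTheory ProbabilityTheory Filter Topology
open Pool.Agent.H559.BS (TT)
open Pool.Agent.H559.IX (R0 Lim)
open Pool.Agent.H559.EG (yy PP w1 w2 St Wk pr)

namespace Pool.Agent.H559.EH

namespace Num

theorem pow_large {κ κ' d : ℝ} (hκ : κ < κ') (hd : 0 < d) :
    ∀ᶠ x : ℕ in atTop, (x : ℝ) ^ κ ≤ d / 16 * (x : ℝ) ^ κ' := by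
  have hpow : ∀ᶠ x : ℕ in atTop, 16 / d ≤ (x : ℝ) ^ (κ' - κ) :=
    ((tendsto_rpow_atTop (sub_pos.2 hκ)).comp tendsto_natCast_atTop_atTop).eventually_ge_atTop _
  filter_upwards [hpow, eventually_ge_atTop 1] with x hp hx1
  have hx0 : (0 : ℝ) < x := by exact_mod_cast hx1
  have e : (x : ℝ) ^ κ' = (x : ℝ) ^ κ * (x : ℝ) ^ (κ' - κ) := by
    rw [← Real.rpow_add hx0]
    congr 1
    ring
  have h12 : 0 < (x : ℝ) ^ κ := Real.rpow_pos_of_pos hx0 _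
  have h13 : 1 ≤ d / 16 * (x : ℝ) ^ (κ' - κ) := by
    rw [div_le_iff₀ hd] at hp
    linarith
  rw [e]
  calc (x : ℝ) ^ κ = (x : ℝ) ^ κ * 1 := by ring
    _ ≤ (x : ℝ) ^ κ * (d / 16 * (x : ℝ) ^ (κ' - κ)) := mul_le_mul_of_nonneg_left h13 h12.le
    _ = d / 16 * ((x : ℝ) ^ κ * (x : ℝ) ^ (κ' - κ)) := by ring

end Num

theorem t_num (h : Pool.Agent.H559.EG.S_num) : S_num := by
  intro ν c hc z hz lam κ hlam hκ hκ1
  obtain ⟨ε, δ, η, κ', h1, h2, h3, h4, h5, h6, h7⟩ := h c hc z hz lam κ hlam hκ hκ1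
  refine ⟨ε, δ, η, κ', h1, h2, h3, h4, h5, h6, ?_⟩
  filter_upwards [h7, Num.pow_large (d := δ ^ ν) h6 (pow_pos h2 ν)] with x hx hp
  obtain ⟨a1, a2, a3, a4, a5, _, a7, a8, a9, a10⟩ := hx
  exact ⟨a1, a2, a3, a4, a5, hp, a7, a8, a9, a10⟩

end Pool.Agent.H559.EH
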