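import Pool.Agent.H559.EG.Stm

set_option autoImplicit false

/-! # Exact patterns of consecutive random primes: the statements

This generalizes the finished project `EG` (files Pool/Agent/H559/EG/*.lean, statements in EG/Stm.lean with complete paper proofs): there the pattern is `{0, g}`,
here it is an admissible finite set `H` with `0, g ∈ H ⊆ {0, ..., g}`, `|H| ≤ ν`. The proofs are the same; every docstring names the EG proof to be adapted and the changes. -/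

open Finset MeasureTheory ProbabilityTheory Filter Topology
open Pool.Agent.T2H32.BF (Model V V_pos V_anti V_ratio mertens pnt cnt Surv)
open Pool.Agent.H559.BS (TT)
open Pool.Agent.H559.IX (R0 Lim)
open Pool.Agent.H559.EG (yy PP w1 w2 St Wk pr)

namespace Pool.Agent.H559.EH

/-- `H` misses a class modulo every prime -/
def Adm (H : Finset ℕ) : Prop := ∀ p : ℕ, p.Prime → ∃ s < p, ∀ h ∈ H, h % p ≠ s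

/-- the patterns with at most `ν` elements and largest element `g` -/
def Pat (ν g : ℕ) (H : Finset ℕ) : Prop := 1 ≤ g ∧ 0 ∈ H ∧ g ∈ H ∧ (∀ h ∈ H, h ≤ g) ∧ H.card ≤ ν ∧ Adm H

noncomputable def D0 (c : ℝ) (A : ℕ) (x : ℕ) : ℕ := ⌊Real.log (x : ℝ) ^ (c + A)⌋₊

open Classical in
/-- the candidates after the sieve of the primes `≤ T` -/
noncomputable def cand (u1 u2 T Q x g r M : ℕ) (H : Finset ℕ) (b : ℕ → ℕ) : Finset ℕ :=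
  (Ioc (x / 2) (x - g - 1)).filter (fun v => v % Q = r ∧ (∀ h ∈ H, St u1 u2 T b (v + h)) ∧
    ((Ioo v (v + g)).filter (fun n => n - v ∉ H ∧ Wk u1 u2 T b n)).card ≤ M)

/-- all the elements of `B` are hit by the primes in `L`, while the `v + h`, `h ∈ H`, are not hit -/
def Fv (b : ℕ → ℕ) (L B : Finset ℕ) (v : ℕ) (H : Finset ℕ) : Prop :=
  (∀ n ∈ B, ∃ p ∈ L, n % p = b p) ∧ ∀ p ∈ L, ∀ h ∈ H, (v + h) % p ≠ b p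

open Classical in
/-- the number of the `v` in `(x/2, x)` for which the elements of `R` in `[v, v + g]` are exactly the `v + h`, `h ∈ H` -/
noncomputable def pats (R : Set ℕ) (x g : ℕ) (H : Finset ℕ) : ℕ :=
  ((Ioc (x / 2) (x - g - 1)).filter (fun v => (∀ h ∈ H, v + h ∈ R) ∧ ∀ n ∈ Ioo v (v + g), n - v ∉ H → n ∉ R)).card

/-- As `EG.t_cnt` (EG/Cnt.lean) with `g ^ ν` for `g ^ 2` (`|E| ≤ ν log g / log w`). From `EG.S_phi`. -/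
def S_cnt : Prop := ∀ (ν : ℕ) (K ε : ℝ), 0 < K → 0 < ε → ∀ᶠ g : ℕ in atTop, ∀ y : ℕ, (g : ℝ) ≤ K * (y : ℝ) ^ 2 →
  ∀ E : Finset ℕ, (∀ p ∈ E, p.Prime ∧ Real.log g / 2 < p) → ∏ p ∈ E, (p : ℝ) ≤ (g : ℝ) ^ ν →
    (((Icc 1 g).filter (fun n => ∀ p ≤ y, p.Prime → p ∣ n → p ∈ E)).card : ℝ) ≤ (1 + ε) * g / Real.log g

/-- As `EG.t_cho` (EG/Cho.lean): by the Chinese remainder theorem `s` is congruent, modulo every prime `p ≤ log g / 2`, to a class which is missed by `H` (`Adm`); `s ≥ 1` since `0 ∈ H`. -/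
def S_cho : Prop := ∀ᶠ g : ℕ in atTop, ∀ H : Finset ℕ, 0 ∈ H → Adm H → ∃ s : ℕ, 1 ≤ s ∧ (s : ℝ) ≤ (g : ℝ) ^ (7 / 10 : ℝ) ∧ s < g ∧
  ∀ p : ℕ, p.Prime → (p : ℝ) ≤ Real.log g / 2 → ∀ h ∈ H, s % p ≠ h % p

/-- As `EG.t_pat` (EG/Pat.lean). `E = {p ≤ y prime : s ≡ h (mod p) for some h ∈ H}`; these primes exceed `log g / 2`, and their product divides `∏_{h ∈ H} |s - h|`, which is `≠ 0` (`s ≠ h` modulo `2`) and `≤ g ^ ν`. `r ≡ -s (mod p)` for the primes `p ≤ y` not in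
`E`, and `r ≡ -s_p (mod p)` with a class `s_p` missed by `H` (`Adm`) for `p ∈ E`. Small `g`: `r ≡ -s_p` for all `p ≤ y`. -/
def S_pat : Prop := ∀ (ν : ℕ) (lam ε η : ℝ), 0 < lam → 0 < ε → 0 < η → ∀ᶠ x : ℕ in atTop, ∀ (g : ℕ) (H : Finset ℕ), Pat ν g H →
  (g : ℝ) ≤ lam * Real.log x ^ 2 → ∃ r < PP η x, (∀ p ≤ yy η x, p.Prime → ∀ h ∈ H, ¬ p ∣ r + h) ∧
    (((Ioo 0 g).filter (fun m => m ∉ H ∧ ∀ p ≤ yy η x, p.Prime → ¬ p ∣ r + m)).card : ℝ) ≤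
      (lam / 2 + ε) * (Real.log x ^ 2 / Real.log (Real.log x))

open Classical in
/-- As `EG.t_det1` (EG/Det1.lean) with `κ = 2 ν`: `Om p` = the classes `(c - h) mod p`, `h ∈ H`, with `c = 0` (if `p ≤ w2`) and `c = b p` (if `w1 < p`, `b p < p`): at most `|H|` classes, and at most `2 |H|` for `w1 < p ≤ w2`. -/
def S_det1 : Prop := ∀ (ν A : ℕ) (c η ε lam : ℝ), 1 < c → 0 < η → η ≤ 1 / 4 → 0 < ε → 0 < lam → ∀ᶠ x : ℕ in atTop, ∀ (g : ℕ) (H : Finset ℕ),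
  (g : ℝ) ≤ lam * Real.log x ^ 2 → Pat ν g H → ∀ r < PP η x, (∀ p ≤ yy η x, p.Prime → ∀ h ∈ H, ¬ p ∣ r + h) → ∀ b : ℕ → ℕ,
    (1 - ε) * ((x : ℝ) / (2 * PP η x)) * pr H.card (yy η x) (D0 c A x) ≤
      (((Ioc (x / 2) (x - g - 1)).filter (fun v => v % PP η x = r ∧ ∀ h ∈ H, St (w1 c x) (w2 c x) (D0 c A x) b (v + h))).card : ℝ)

open Classical in
/-- As `EG.t_det3` (EG/Det3.lean), for an arbitrary set `K ⊆ {0, ..., g}` with at most `ν` elements: `|Om p| = |K|` unless `p` divides a difference of two elements of `K`; the number of the primes `p > y` dividing `∏ |h - h'| ≤ g ^ (ν²)` is at most `4 ν²` for large `x`. -/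
def S_det3 : Prop := ∀ (ν A : ℕ) (c η ε lam : ℝ), 1 < c → 0 < η → η ≤ 1 / 4 → 0 < ε → 0 < lam → ∀ᶠ x : ℕ in atTop, ∀ g : ℕ,
  (g : ℝ) ≤ lam * Real.log x ^ 2 → ∀ K : Finset ℕ, (∀ h ∈ K, h ≤ g) → K.card ≤ ν → ∀ r < PP η x, ∀ b : ℕ → ℕ, (∀ p, p.Prime → b p < p) →
    (((Ioc (x / 2) (x - g - 1)).filter (fun v => v % PP η x = r ∧ ∀ h ∈ K, Wk (w1 c x) (w2 c x) (D0 c A x) b (v + h))).card : ℝ) ≤
      (1 + ε) * ((x : ℝ) / (2 * PP η x)) * pr K.card (yy η x) (D0 c A x)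

/-- As `EG.t_sec` (EG/Sec.lean) for general `k0`: `P(both) ≤ W² exp (4 ∑ c_p / D)`, `∑_p c_p ≤ k0² log Z / log D ≤ k0² log Z / 4` (`D ≥ 100`), so `≤ W² (1 + 2 k0² log Z / D)`. -/
def S_sec : Prop := ∀ (Ω : Type) [MeasurableSpace Ω] (P : Measure Ω) (a : ℕ → Ω → ℕ), Model P a →
  ∀ (I : Finset ℕ) (A : ℕ → Finset ℕ) (k0 Z D : ℕ) (B : Finset ℕ), 2 * k0 ≤ D → 100 ≤ D → 1 ≤ Z → 4 * (k0 : ℝ) ^ 2 * Real.log Z ≤ D →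
  (∀ p ∈ B, p.Prime ∧ D < p) →
  (∀ i ∈ I, (A i).card = k0 ∧ (∀ n ∈ A i, n ≤ Z) ∧ ∀ p ∈ B, ∀ n ∈ A i, ∀ n' ∈ A i, n ≠ n' → n % p ≠ n' % p) →
  (∀ i ∈ I, ∀ j ∈ I, i ≠ j → Disjoint (A i) (A j)) → ∀ t : ℝ, 0 < t →
    P.real {ω | t ≤ |cnt I (fun i => Surv a B (A i)) ω - I.card * ∏ p ∈ B, (1 - (k0 : ℝ) / p)|} ≤
      (I.card * ∏ p ∈ B, (1 - (k0 : ℝ) / p) + 4 * (k0 : ℝ) ^ 2 * Real.log Z / D * (I.card * ∏ p ∈ B, (1 - (k0 : ℝ) / p)) ^ 2) / t ^ 2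

open Classical in
/-- As `EG.t_N1` (EG/N1.lean), from `S_det1` (with `A + 1` for `A`, so `40 ℓ/D`-type terms are `O(ℓ^(-A))`) and `S_sec` (`k0 = |H|`, the sets `{v + h : h ∈ H}`). -/
def S_N1 : Prop := ∀ (ν A : ℕ) (c lam δ η θ : ℝ), 1 < c → 0 < lam → 0 < δ → δ ≤ 1 / 4 → 0 < η → η ≤ 1 / 4 → 0 < θ → θ ≤ 1 / 2 →
  ∀ (Ω : Type) [MeasurableSpace Ω] (P : Measure Ω) (a : ℕ → Ω → ℕ), Model P a → ∃ C : ℝ, ∀ᶠ x : ℕ in atTop, ∀ (g : ℕ) (H : Finset ℕ),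
    Pat ν g H → (g : ℝ) ≤ lam * Real.log x ^ 2 → ∀ r < PP η x, (∀ p ≤ yy η x, p.Prime → ∀ h ∈ H, ¬ p ∣ r + h) →
    P.real {ω | (((Ioc (x / 2) (x - g - 1)).filter (fun v => v % PP η x = r ∧
        ∀ h ∈ H, St (w1 c x) (w2 c x) (TT δ x) (fun q => a q ω) (v + h))).card : ℝ) <
      (1 - θ) * ((x : ℝ) / (2 * PP η x)) * pr H.card (yy η x) (TT δ x)} ≤ C / Real.log x ^ A

open Classical in
/-- As `EG.t_N3` (EG/N3.lean), from `S_det3` and `S_sec`, for an arbitrary nonempty set `K ⊆ {0, ..., g}` with at most `ν` elements. -/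
def S_N3 : Prop := ∀ (ν A : ℕ) (c lam δ η θ : ℝ), 1 < c → 0 < lam → 0 < δ → δ ≤ 1 / 4 → 0 < η → η ≤ 1 / 4 → 0 < θ → θ ≤ 1 / 2 →
  ∀ (Ω : Type) [MeasurableSpace Ω] (P : Measure Ω) (a : ℕ → Ω → ℕ), Model P a → ∃ C : ℝ, ∀ᶠ x : ℕ in atTop, ∀ g : ℕ,
    (g : ℝ) ≤ lam * Real.log x ^ 2 → ∀ K : Finset ℕ, K.Nonempty → (∀ h ∈ K, h ≤ g) → K.card ≤ ν → ∀ r < PP η x,
    P.real {ω | (1 + θ) * ((x : ℝ) / (2 * PP η x)) * pr K.card (yy η x) (TT δ x) <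
      (((Ioc (x / 2) (x - g - 1)).filter (fun v => v % PP η x = r ∧
        ∀ h ∈ K, Wk (w1 c x) (w2 c x) (TT δ x) (fun q => a q ω) (v + h))).card : ℝ)} ≤ C / Real.log x ^ A

/-- As `EG.t_rat` (EG/Rat.lean): `pr (k+1) y T ≤ pr k y T * pr 1 y T` (`1 - (k+1)/p ≤ (1 - k/p)(1 - 1/p)`, `p > y ≥ ν + 1`), `pr k y T ≥ V(T)^(k+1)` for large `x`. -/
def S_rat : Prop := ∀ (ν : ℕ) (lam ε δ η : ℝ), 0 < lam → 0 < ε → 0 < δ → δ ≤ 1 / 4 → 0 < η → η ≤ 1 / 4 → ∃ θ : ℝ, 0 < θ ∧ θ ≤ 1 / 2 ∧ ∀ᶠ x : ℕ in atTop,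
  ∀ k ≤ ν, (1 + θ) * pr ((k + 1 : ℕ) : ℝ) (yy η x) (TT δ x) * ((lam / 2 + ε) * (Real.log x ^ 2 / Real.log (Real.log x))) ≤
      (1 - 2 * θ) * pr (k : ℝ) (yy η x) (TT δ x) * ((⌊(lam / 2 + 2 * ε) * Real.log x / δ⌋₊ : ℝ) + 1) ∧
    (x : ℝ) ^ (1 - 2 * η) ≤ θ * ((x : ℝ) / (2 * PP η x)) * pr (k : ℝ) (yy η x) (TT δ x)

/-- As `EG.t_st1` (EG/St1.lean), from `S_N1`, `S_N3` (with `K = insert m H`, `|K| = |H| + 1`, `0 < m < g`, `m ∉ H`, `ν + 1` for `ν`, `A + 3` for `A`) and `S_rat`. -/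
def S_st1 : Prop := ∀ (ν A : ℕ) (c lam ε δ η : ℝ), 1 < c → 0 < lam → 0 < ε → 0 < δ → δ ≤ 1 / 4 → 0 < η → η ≤ 1 / 4 →
  ∀ (Ω : Type) [MeasurableSpace Ω] (P : Measure Ω) (a : ℕ → Ω → ℕ), Model P a → ∃ C : ℝ, ∀ᶠ x : ℕ in atTop, ∀ (g : ℕ) (H : Finset ℕ),
    Pat ν g H → (g : ℝ) ≤ lam * Real.log x ^ 2 → ∀ r < PP η x, (∀ p ≤ yy η x, p.Prime → ∀ h ∈ H, ¬ p ∣ r + h) →
    (((Ioo 0 g).filter (fun m => m ∉ H ∧ ∀ p ≤ yy η x, p.Prime → ¬ p ∣ r + m)).card : ℝ) ≤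
      (lam / 2 + ε) * (Real.log x ^ 2 / Real.log (Real.log x)) →
    P.real {ω | ((cand (w1 c x) (w2 c x) (TT δ x) (PP η x) x g r ⌊(lam / 2 + 2 * ε) * Real.log x / δ⌋₊ H
      (fun q => a q ω)).card : ℝ) < (x : ℝ) ^ (1 - 2 * η)} ≤ C / Real.log x ^ A

open Classical in
/-- As `EG.t_st2` (EG/St2.lean), from `EG.S_two`. Inclusion and exclusion over the subsets `J ⊆ H` (the elements `v + h`, `h ∈ J`, are hit): `P(F_v) = ∑_{J ⊆ H} (-1)^|J| P(all of B v ∪ (v + J) are hit)`, so `|P(F_v) - G^|B v| (1-G)^|H|| ≤ 2^|H| x^(-δ/2) G^|B v|`,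
and for `v ≠ w` over the pairs `J, J' ⊆ H`: `|P(F_v ∩ F_w) - G^(|B v| + |B w|) (1-G)^(2|H|)| ≤ 4^|H| x^(-δ/2) G^(|B v| + |B w|)`. A convenient form: for finite disjoint sets `B, U` of naturals satisfying the conditions of `S_two` (for `B ∪ U`)
`|P(B hit, no element of U hit) - G^|B| (1-G)^|U|| ≤ 2^|U| x^(-δ/2) G^|B|`, by induction on `U` (P(B hit, U ∪ {u} not hit) = P(B hit, U not hit) - P(B ∪ {u} hit, U not hit)); apply it to `(B v, v + H)` and to `(B v ∪ B w, (v + H) ∪ (w + H))`. `(1-G)^|H| ≥ δ^ν`. -/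
def S_st2 : Prop := ∀ (Ω : Type) [MeasurableSpace Ω] (P : Measure Ω) (a : ℕ → Ω → ℕ), Model P a → ∀ (ν : ℕ) (δ C0 κ : ℝ), 0 < δ → δ ≤ 1 / 4 → 0 < C0 →
  0 < κ → ∃ μ : ℝ, 0 < μ ∧ ∀ᶠ x : ℕ in atTop, ∀ N : ℕ, 1 / 2 ≤ 1 - pr 1 (TT δ x) N → δ ≤ pr 1 (TT δ x) N →
    ∀ M g : ℕ, (M : ℝ) ≤ C0 * Real.log x → 1 ≤ g → (g : ℝ) ≤ Real.log x ^ 3 → ∀ H : Finset ℕ, (∀ h ∈ H, h ≤ g) → H.card ≤ ν →
    ∀ (𝒱 : Finset ℕ) (B : ℕ → Finset ℕ),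
    (∀ v ∈ 𝒱, v + g ≤ x ∧ B v ⊆ Ioo v (v + g) ∧ (B v).card ≤ M ∧ ∀ h ∈ H, v + h ∉ B v) → (∀ v ∈ 𝒱, ∀ w ∈ 𝒱, v < w → v + g < w) →
    (x : ℝ) ^ κ ≤ 𝒱.card * (1 - pr 1 (TT δ x) N) ^ M →
    P.real {ω | ((𝒱.filter (fun v => Fv (fun q => a q ω) ((Ioc (TT δ x) N).filter Nat.Prime) (B v) v H)).card : ℝ) <
      δ ^ ν / 4 * (x : ℝ) ^ κ} ≤ (x : ℝ) ^ (-μ)

open Classical in
/-- As `EG.t_st3` (EG/St3.lean), from `S_sec` with `k0 = |H|`. -/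
def S_st3 : Prop := ∀ z : ℕ → ℕ, Lim z → ∀ (Ω : Type) [MeasurableSpace Ω] (P : Measure Ω) (a : ℕ → Ω → ℕ), Model P a → ∀ (ν : ℕ) (κ : ℝ), 0 < κ →
  ∃ μ : ℝ, 0 < μ ∧ ∀ᶠ x : ℕ in atTop, ∀ g : ℕ, 1 ≤ g → (g : ℝ) ≤ Real.log x ^ 3 → ∀ H : Finset ℕ, (∀ h ∈ H, h ≤ g) → H.card ≤ ν →
    ∀ F : Finset ℕ, (∀ v ∈ F, v + g ≤ x) → (∀ v ∈ F, ∀ w ∈ F, v < w → v + g < w) → (x : ℝ) ^ κ ≤ F.card →
    P.real {ω | ((F.filter (fun v => ∀ p ∈ (Ioc (z (x / 2)) (z x)).filter Nat.Prime, ∀ h ∈ H, (v + h) % p ≠ a p ω)).card : ℝ) <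
      (F.card : ℝ) / 4} ≤ (x : ℝ) ^ (-μ)

/-- From `EG.S_num` (or as its proof `EG.t_num`, EG/Num.lean): only the sixth inequality is new, `x^κ ≤ (δ^ν/16) x^κ'` for large `x` (`κ < κ'`). -/
def S_num : Prop := ∀ (ν : ℕ) (c : ℝ), 1 < c → ∀ z : ℕ → ℕ, Lim z → ∀ lam κ : ℝ, 0 < lam → 0 < κ → κ < 1 - lam * Real.exp Real.eulerMascheroniConstant / 2 →
  ∃ ε δ η κ' : ℝ, 0 < ε ∧ 0 < δ ∧ δ ≤ 1 / 8 ∧ 0 < η ∧ η ≤ 1 / 4 ∧ κ < κ' ∧ ∀ᶠ x : ℕ in atTop,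
    TT δ x < z (x / 2) ∧ z (x / 2) ≤ z x ∧ 1 / 2 ≤ 1 - pr 1 (TT δ x) (z (x / 2)) ∧ δ ≤ pr 1 (TT δ x) (z (x / 2)) ∧
    (x : ℝ) ^ κ' ≤ (x : ℝ) ^ (1 - 2 * η) * (1 - pr 1 (TT δ x) (z (x / 2))) ^ ⌊(lam / 2 + 2 * ε) * Real.log x / δ⌋₊ ∧
    (x : ℝ) ^ κ ≤ δ ^ ν / 16 * (x : ℝ) ^ κ' ∧ w2 c x ≤ TT δ x ∧ lam * Real.log x ^ 2 ≤ Real.log x ^ 3 ∧ lam * Real.log x ^ 2 < PP η x ∧ 6 ≤ x

/-- As `EG.t_mem` (EG/Mem.lean). -/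
def S_mem : Prop := ∀ c : ℝ, 1 < c → ∀ z : ℕ → ℕ, Lim z → ∀ x T : ℕ, 6 ≤ x → T < z (x / 2) → w2 c x ≤ T → ∀ (b : ℕ → ℕ) (v g : ℕ) (H : Finset ℕ),
  x / 2 < v → v + g < x → (∀ h ∈ H, h ≤ g) → (∀ h ∈ H, St (w1 c x) (w2 c x) T b (v + h)) →
  ∀ B : Finset ℕ, (∀ n ∈ Ioo v (v + g), n - v ∉ H → Wk (w1 c x) (w2 c x) T b n → n ∈ B) →
  Fv b ((Ioc T (z (x / 2))).filter Nat.Prime) B v H → (∀ p ∈ (Ioc (z (x / 2)) (z x)).filter Nat.Prime, ∀ h ∈ H, (v + h) % p ≠ b p) →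
    (∀ h ∈ H, v + h ∈ R0 z c b) ∧ ∀ n ∈ Ioo v (v + g), n - v ∉ H → n ∉ R0 z c b

/-- As `EG.t_prob` (EG/Prob.lean), from `S_pat`, `S_st1`, `S_st2`, `S_st3`, `S_num`, `S_mem`, with `B v = (Ioo v (v+g)).filter (fun n => n - v ∉ H ∧ Wk .. n)`. -/
def S_prob : Prop := ∀ (ν A : ℕ) (c : ℝ), 1 < c → ∀ z : ℕ → ℕ, Lim z → ∀ lam κ : ℝ, 0 < lam → 0 < κ → κ < 1 - lam * Real.exp Real.eulerMascheroniConstant / 2 →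
  ∀ (Ω : Type) [MeasurableSpace Ω] (P : Measure Ω) (a : ℕ → Ω → ℕ), Model P a → ∃ C : ℝ, ∀ᶠ x : ℕ in atTop, ∀ (g : ℕ) (H : Finset ℕ),
    Pat ν g H → (g : ℝ) ≤ lam * Real.log x ^ 2 →
    P.real {ω | (pats (R0 z c (fun q => a q ω)) x g H : ℝ) < (x : ℝ) ^ κ} ≤ C / Real.log x ^ A

/-- As `EG.t_main` (EG/Main.lean), from `S_prob` with `A = 2 ν + 3`: the number of the sets `H ⊆ {0, ..., ⌊lam log² x⌋}` with at most `ν` elements is at most `(ν + 1) (lam log² x + 2)^ν`; union bound over these `H`, Borel-Cantelli over `x = 2^j`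
(`∑_j (ν + 1) (lam (j log 2)² + 2)^ν C/(j log 2)^(2ν + 3) < ∞`). -/
def S_main : Prop := ∀ c : ℝ, 1 < c → ∀ z : ℕ → ℕ, Lim z → ∀ (Ω : Type) [MeasurableSpace Ω] (P : Measure Ω) (a : ℕ → Ω → ℕ), Model P a →
  ∀ᵐ ω ∂P, ∀ (ν : ℕ) (lam κ : ℝ), 0 < κ → κ < 1 - lam * Real.exp Real.eulerMascheroniConstant / 2 → ∀ᶠ X : ℕ in atTop, ∀ (g : ℕ) (H : Finset ℕ),
    Pat ν g H → (g : ℝ) ≤ lam * Real.log X ^ 2 →
      (X : ℝ) ^ κ ≤ ({v : ℕ | v + g ≤ X ∧ (∀ h ∈ H, v + h ∈ R0 z c (fun q => a q ω)) ∧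
        ∀ n, v < n → n < v + g → n - v ∉ H → n ∉ R0 z c (fun q => a q ω)}.ncard : ℝ)

end Pool.Agent.H559.EH
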